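import Pool.Agent.V1141.SO.DMain

/-!
# Sums of pairs of dual representations and of representations with forms
-/

set_option autoImplicit false

namespace Pool.Agent.V1141.SO

open Module Pool.Agent.V1141.WT Pool.Agent.V1141.OF

variable {k : Type} [Field k] {Γ : Type} [Group Γ] {χ : Γ →* k} {I J : Type}

/-- The sum `H` of all `V j`, `V' j` (`j ∈ J`) and of all `W i` (`i ∈ I`). -/
abbrev Whole (R : J → Piece k χ) (P : I → FormPiece k χ) : Type := Total R × Sum P

/-- The action of `Γ` on `H`. -/
def actW (R : J → Piece k χ) (P : I → FormPiece k χ) : Γ → Whole R P → Whole R P :=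
  fun g x => (action R g x.1, act P g x.2)

/-- The relations between the eigenvalues `α j i` of `γ` on the `V j`, finitely many eigenvalues of `γ` on
the `W i`, the eigenvalues of `γ` on `M` (or `1`) and `χ γ` have constant exponents on each `V j`, which
are zero if `j ∉ T`. -/
def OnlyConstantRelationsAll [Fintype J] {M : Type} [AddCommGroup M] [Module k M]
    (R : J → Piece k χ) (P : I → FormPiece k χ) (τ : Representation k Γ M) (γ : Γ) (T : Set J)
    (α : ∀ j, Fin (dm R j) → k) : Prop :=
  ∀ β, (β = 1 ∨ Module.End.HasEigenvalue (τ γ) β) → ∀ (n : ℕ) (t : Fin n → I) (a : Fin n → k),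
    (∀ l, Module.End.HasEigenvalue ((P (t l)).ρ γ) (a l)) →
      OnlyConstantRelations T (χ γ) (β * ∏ l, a l) α

/-- The numbers of variables of the pairings, of the Weil classes and of the discriminants. -/
def numbers (R : J → Piece k χ) (P : I → FormPiece k χ) (T : Set J) : Set ℕ :=
  {n | n = 2 ∨ (∃ j ∈ T, n = dm R j) ∨ ∃ i, (P i).sgn = 1 ∧ n = finrank k (P i).V}

end Pool.Agent.V1141.SO
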