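import Pool.Agent.V1141.SO.Comb

/-!
# Tate classes of all classical types: the main theorem
-/

set_option autoImplicit false
set_option linter.unusedSectionVars false

namespace Pool.Agent.V1141.SO

open Module Pool.Agent.V1141.WT Pool.Agent.V1141.OF

noncomputable section

section decomposition

variable {k : Type} [Field k] {H₁ H₂ M : Type} [AddCommGroup H₁] [Module k H₁] [AddCommGroup H₂]
  [Module k H₂] [AddCommGroup M] [Module k M] {N : ℕ}

/-- every multilinear map on pairs is the sum of its parts -/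
theorem eq_sum_merge (f : MultilinearMap k (fun _ : Fin N => H₁ × H₂) M) :
    f = ∑ s : Finset (Fin N), merge (finSumEquivOfFinset (s := s) rfl rfl)
      (split (finSumEquivOfFinset (s := s) rfl rfl) f) := by
  classical
  refine MultilinearMap.ext fun x => ?_
  rw [MultilinearMap.sum_apply]
  have h1 : x = (fun i => ((x i).1, (0 : H₂))) + (fun i => ((0 : H₁), (x i).2)) := by
    funext i
    rw [Pi.add_apply, Prod.mk_add_mk, add_zero, zero_add]
  conv_lhs => rw [h1]
  rw [MultilinearMap.map_add_univ]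
  refine Finset.sum_congr rfl fun s _ => ?_
  rw [merge_apply, split_apply]
  congr 1
  funext l
  obtain ⟨t, rfl⟩ := (finSumEquivOfFinset (s := s) rfl rfl).surjective l
  rw [Equiv.symm_apply_apply]
  rcases t with i | i
  · have h2 : finSumEquivOfFinset (s := s) rfl rfl (Sum.inl i) ∈ s := by
      rw [finSumEquivOfFinset_inl]
      exact Finset.orderEmbOfFin_mem _ _ _
    rw [Finset.piecewise_eq_of_mem _ _ _ h2]
    rfl
  · have h2 : finSumEquivOfFinset (s := s) rfl rfl (Sum.inr i) ∉ s := by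
      rw [finSumEquivOfFinset_inr]
      exact Finset.mem_compl.1 (Finset.orderEmbOfFin_mem _ _ _)
    rw [Finset.piecewise_eq_of_notMem _ _ _ h2]
    rfl

end decomposition

section family

variable {k : Type} [Field k] [CharZero k] {Γ : Type} [Group Γ] {χ : Γ →* k} {I J : Type}
  [Fintype I] [DecidableEq I] [Fintype J] (R : J → Piece k χ) (P : I → FormPiece k χ)

/-- the eigenvalues on multilinear maps -/
theorem eigen_hom [IsAlgClosed k] {M : Type} [AddCommGroup M] [Module k M]
    (τ : Representation k Γ M) (γ : Γ) (hsimple : SimpleEigenvalues P γ) {n : ℕ} {β : k}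
    (h : Module.End.HasEigenvalue (homRep (OF.sumRep fun i => (P i).ρ) τ n γ) β) :
    ∃ (t : Fin n → I) (a : Fin n → k),
      (∀ l, Module.End.HasEigenvalue ((P (t l)).ρ γ) (a l)) ∧
        Module.End.HasEigenvalue (τ γ) (β * ∏ l, a l) := by
  classical
  choose d α b hα hb hev using fun i => exists_eigenbasis_sep ((P i).ρ γ) ((hsimple i).1)
  let E : Basis (Σ i, Fin (d i)) k (Sum P) := Pi.basis b
  have hE : ∀ x, OF.sumRep (fun i => (P i).ρ) γ (E x) = α x.1 x.2 • E x := by
    intro x
    have h1 := sumRep_pow (fun i => (P i).ρ) b hb 1 x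
    rwa [pow_one, pow_one] at h1
  obtain ⟨u, hu⟩ := h.exists_hasEigenvector
  have h1 : homRep (OF.sumRep fun i => (P i).ρ) τ n γ u = β • u := hu.apply_eq_smul
  have h2 : ∃ K : Fin n → Σ i, Fin (d i), u (fun l => E (K l)) ≠ 0 := by
    by_contra hK
    push Not at hK
    apply hu.2
    refine Basis.ext_multilinear (fun _ => E) fun K => ?_
    rw [hK K]
    rfl
  obtain ⟨K, hK⟩ := h2
  refine ⟨fun l => (K l).1, fun l => α (K l).1 (K l).2, fun l => (hev _ _).2 ⟨_, rfl⟩, ?_⟩
  have h3 := DFunLike.congr_fun h1 (fun l => OF.sumRep (fun i => (P i).ρ) γ (E (K l)))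
  rw [homRep_apply, smul_apply] at h3
  have h4 : (fun l => OF.sumRep (fun i => (P i).ρ) γ⁻¹ (OF.sumRep (fun i => (P i).ρ) γ (E (K l)))) =
      fun l => E (K l) := by
    funext l
    rw [← Module.End.mul_apply, ← map_mul, inv_mul_cancel, map_one, Module.End.one_apply]
  have h5 : (fun l => OF.sumRep (fun i => (P i).ρ) γ (E (K l))) =
      fun l => α (K l).1 (K l).2 • E (K l) := funext fun l => hE (K l)
  rw [h4, h5, MultilinearMap.map_smul_univ, smul_smul] at h3
  exact Module.End.hasEigenvalue_of_hasEigenvector ⟨Module.End.mem_eigenspace_iff.2 h3, hK⟩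

/-- the parts of a Tate class are Tate classes -/
theorem split_tate {M : Type} [AddCommGroup M] [Module k M] {τ : Representation k Γ M}
    {N n₁ n₂ : ℕ} (e : Fin n₁ ⊕ Fin n₂ ≃ Fin N)
    {f : MultilinearMap k (fun _ : Fin N => Whole R P) M} (hf : IsTateClass (actW R P) τ f) :
    IsTateClass (action R) (homRep (OF.sumRep fun i => (P i).ρ) τ n₂) (split e f) := by
  obtain ⟨Δ, hΔ, h⟩ := hf
  refine ⟨Δ, hΔ, fun g hg x => MultilinearMap.ext fun y => ?_⟩
  change split e f (fun i => action R g (x i)) y =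
    τ g (split e f x (fun l => OF.sumRep (fun i => (P i).ρ) g⁻¹ (y l)))
  rw [split_apply, split_apply]
  have h1 := h g hg (fun l => Sum.elim (fun i => ((x i, 0) : Whole R P))
    (fun i => (0, OF.sumRep (fun i => (P i).ρ) g⁻¹ (y i))) (e.symm l))
  unfold move at h1
  rw [← h1]
  congr 1
  funext l
  rcases e.symm l with i | i
  · change (action R g (x i), (0 : Sum P)) = (action R g (x i), act P g 0)
    congr 1
    funext i'
    exact (map_zero _).symm
  · change ((0 : Total R), y i) = (action R g 0, act P g (OF.sumRep (fun i => (P i).ρ) g⁻¹ (y i)))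
    refine Prod.ext ?_ ?_
    · funext j
      exact Prod.ext (map_zero _).symm (map_zero _).symm
    · funext i'
      change y i i' = (P i').ρ g ((P i').ρ g⁻¹ (y i i'))
      rw [← Module.End.mul_apply, ← map_mul, mul_inv_cancel, map_one, Module.End.one_apply]

/-- the index types of the factors -/
def ixs {A B : Type} (Ia : A → Type) (m : B → ℕ) : A ⊕ B → Type
  | Sum.inl a => Ia a
  | Sum.inr b => Fin (m b)

/-- they are finite -/
def ixsFin {A B : Type} (Ia : A → Type) (fa : ∀ a, Fintype (Ia a)) (m : B → ℕ) :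
    ∀ a, Fintype (ixs Ia m a)
  | Sum.inl a => fa a
  | Sum.inr b => Fin.fintype (m b)

/-- the factors -/
def factors {A B : Type} {Ia : A → Type} {m : B → ℕ}
    (ψa : ∀ a, MultilinearMap k (fun _ : Ia a => Total R) k)
    (ψb : ∀ b, MultilinearMap k (fun _ : Fin (m b) => Sum P) k) :
    ∀ a, MultilinearMap k (fun _ : ixs Ia m a => Whole R P) k
  | Sum.inl a => (ψa a).compLinearMap (fun _ => LinearMap.fst k (Total R) (Sum P))
  | Sum.inr b => (ψb b).compLinearMap (fun _ => LinearMap.snd k (Total R) (Sum P))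

/-- the merge of a product and a product is a product -/
theorem merge_product {M : Type} [AddCommGroup M] [Module k M]
    {τ : Representation k Γ M} {T : Set J}
    {N n₁ n₂ : ℕ} (e : Fin n₁ ⊕ Fin n₂ ≃ Fin N) {c : ℤ}
    {ψ : MultilinearMap k (fun _ : Fin n₁ => Total R) k}
    (hψ1 : IsProduct (action R) χ ({2} ∪ {n | ∃ j ∈ T, n = dm R j}) ψ)
    (hψ2 : IsTate (action R) χ c ψ) {u : MultilinearMap k (fun _ : Fin n₂ => Sum P) M}
    (hu : IsProductTimes P (twistRep χ τ (-c)) u) :
    IsProductWith (actW R P) τ χ (numbers R P T) (merge e (ψ.smulRight u)) := by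
  obtain ⟨ψ₂, u₂, c₂, h1, h2, h3, h4⟩ := hu
  refine ⟨merge e (ψ.smulRight ψ₂), u₂, c + c₂, ?_, ?_, ?_, ?_⟩
  · obtain ⟨A, _, Ia, _, p, c₁, ψa, ha1, ha2⟩ := hψ1
    obtain ⟨B, _, m, q, ψb, hb1, hb2⟩ := h1
    have hb : ∀ b, ∃ cb : ℤ, m b ∈ numbers R P T ∧ IsTate (act P) χ cb (ψb b) := by
      intro b
      rcases hb1 b with ⟨i, ε, hh⟩ | ⟨i, hi, hm, D, hh⟩
      · have hm : m b = 2 := by
          have := Fintype.card_congr ε
          rw [Fintype.card_fin, Fintype.card_fin] at this
          exact this.symm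
        refine ⟨((P i).w : ℤ), Or.inl hm, ?_⟩
        have : ψb b = pairM (V := fun i => (P i).V) i (P i).ω ε := MultilinearMap.ext hh
        rw [this]
        exact pair_tate P i ε
      · refine ⟨(((P i).w / 2 * m b : ℕ) : ℤ), Or.inr (Or.inr ⟨i, hi, hm⟩), ?_⟩
        have : ψb b = detM (V := fun i => (P i).V) i D := MultilinearMap.ext hh
        rw [this]
        exact disc_tate P i hi hm D
    choose cb hb3 hb4 using hb
    refine ⟨A ⊕ B, inferInstance, ixs Ia m, ixsFin Ia (fun a => inferInstance) m,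
      (Equiv.sumSigmaDistrib (ixs Ia m)).trans ((Equiv.sumCongr p q).trans e),
      Sum.elim c₁ cb, factors R P ψa ψb, ?_, ?_⟩
    · rintro (a | b)
      · refine ⟨?_, ?_⟩
        · change Fintype.card (Ia a) ∈ numbers R P T
          rcases (ha1 a).1 with h | ⟨j, hj, h⟩
          · exact Or.inl h
          · exact Or.inr (Or.inl ⟨j, hj, h⟩)
        · obtain ⟨Δ, hΔ, h⟩ := (ha1 a).2
          exact ⟨Δ, hΔ, fun g hg x => h g hg fun i => (x i).1⟩
      · refine ⟨?_, ?_⟩
        · change Fintype.card (Fin (m b)) ∈ numbers R P T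
          rw [Fintype.card_fin]
          exact hb3 b
        · obtain ⟨Δ, hΔ, h⟩ := hb4 b
          exact ⟨Δ, hΔ, fun g hg x => h g hg fun i => (x i).2⟩
    · intro x
      rw [Fintype.prod_sum_type, merge_apply, MultilinearMap.smulRight_apply,
        smul_apply, ha2, hb2, smul_eq_mul]
      rfl
  · obtain ⟨Δ, hΔ, h⟩ := hψ2
    obtain ⟨Δ', hΔ', h'⟩ := h2
    refine ⟨Δ ⊓ Δ', inferInstance, fun g hg x => ?_⟩
    rw [merge_apply, merge_apply, MultilinearMap.smulRight_apply, MultilinearMap.smulRight_apply,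
      smul_apply, smul_apply, zpow_add₀ (OF.chi_ne χ g)]
    have e1 := h g hg.1 (fun i => (x (e (Sum.inl i))).1)
    have e2 := h' g hg.2 (fun i => (x (e (Sum.inr i))).2)
    change ψ (fun i => action R g (x (e (Sum.inl i))).1) •
      ψ₂ (fun i => act P g (x (e (Sum.inr i))).2) = _
    rw [e1, e2, smul_eq_mul, smul_eq_mul]
    ring
  · obtain ⟨Δ, hΔ, h⟩ := h3
    refine ⟨Δ, hΔ, fun g hg => ?_⟩
    have e1 : χ g ^ (-c) • τ g u₂ = χ g ^ c₂ • u₂ := h g hg
    change τ g u₂ = _
    rw [zpow_add₀ (OF.chi_ne χ g), mul_smul, ← e1, smul_smul, ← zpow_add₀ (OF.chi_ne χ g),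
      add_neg_cancel, zpow_zero, one_smul]
  · intro x
    rw [merge_apply, merge_apply, MultilinearMap.smulRight_apply, MultilinearMap.smulRight_apply,
      smul_apply, smul_apply, h4, smul_smul, smul_eq_mul]

/-- `merge` is linear -/
def mergeL {H₁ H₂ M : Type} [AddCommGroup H₁] [Module k H₁] [AddCommGroup H₂]
    [Module k H₂] [AddCommGroup M] [Module k M] {N n₁ n₂ : ℕ} (e : Fin n₁ ⊕ Fin n₂ ≃ Fin N) :
    MultilinearMap k (fun _ : Fin n₁ => H₁) (MultilinearMap k (fun _ : Fin n₂ => H₂) M) →ₗ[k]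
      MultilinearMap k (fun _ : Fin N => H₁ × H₂) M where
  toFun := merge e
  map_add' _ _ := rfl
  map_smul' _ _ := rfl

/-- `u ↦ ψ ⊗ u` is linear -/
def timesL {H₁ M : Type} [AddCommGroup H₁] [Module k H₁] [AddCommGroup M] [Module k M] {n₁ : ℕ}
    (ψ : MultilinearMap k (fun _ : Fin n₁ => H₁) k) :
    M →ₗ[k] MultilinearMap k (fun _ : Fin n₁ => H₁) M where
  toFun u := ψ.smulRight u
  map_add' _ _ := MultilinearMap.ext fun _ => smul_add _ _ _
  map_smul' _ _ := MultilinearMap.ext fun _ => smul_comm _ _ _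

theorem cmain [IsAlgClosed k] (T : Set J) (e : J → ℤ) (hT : WeilClassesAreTate R T e)
    {M : Type} [AddCommGroup M] [Module k M] [FiniteDimensional k M] (τ : Representation k Γ M)
    (γ : Γ) (α : ∀ j, Fin (dm R j) → k) (hα : AreEigenvalues R γ α)
    (hEnd : ∀ i, OnlyScalarEndos (P i).ρ) (hsimple : SimpleEigenvalues P γ)
    (hrel : NoRelationsUpToTwist P τ γ) (hind : OnlyConstantRelationsAll R P τ γ T α) :
    SplitIn (actW R P) τ χ (numbers R P T) := by
  classical
  intro N f hf
  rw [eq_sum_merge f]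
  refine Submodule.sum_mem _ fun s _ => ?_
  have hF := split_tate R P (finSumEquivOfFinset (s := s) rfl rfl) hf
  have hq : χ γ ≠ 0 := OF.chi_ne χ γ
  have hind' : ∀ β, β = 1 ∨ Module.End.HasEigenvalue
      (homRep (OF.sumRep fun i => (P i).ρ) τ sᶜ.card γ) β →
      OnlyConstantRelations T (χ γ) β α := by
    rintro β (rfl | hβ)
    · have h1 := hind 1 (Or.inl rfl) 0 (fun l => l.elim0) (fun l => l.elim0) (fun l => l.elim0)
      rwa [Finset.univ_eq_empty, Finset.prod_empty, mul_one] at h1
    · obtain ⟨t, a, ha, hβ'⟩ := eigen_hom P τ γ hsimple hβ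
      have ha0 : ∀ l, a l ≠ 0 := by
        intro l h
        obtain ⟨v, hv⟩ := (ha l).exists_hasEigenvector
        apply hv.2
        have h2 : (P (t l)).ρ γ⁻¹ ((P (t l)).ρ γ v) = v := by
          rw [← Module.End.mul_apply, ← map_mul, inv_mul_cancel, map_one, Module.End.one_apply]
        rw [← h2, hv.apply_eq_smul, h, zero_smul, map_zero]
      have hdual : ∀ l, Module.End.HasEigenvalue ((P (t l)).ρ γ) (χ γ ^ (P (t l)).w / a l) := by
        intro l
        exact eigen_dual (P (t l)).ω (P (t l)).nondeg (pow_ne_zero _ hq)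
          ((P (t l)).twisted γ) (ha l) (mul_div_cancel₀ _ (ha0 l))
      have h1 := hind _ (Or.inr hβ') _ t _ hdual
      intro m c n hn hm
      refine h1 m (c - n * ∑ l, ((P (t l)).w : ℤ)) n hn ?_
      rw [hm]
      have h2 : (β * ∏ l, a l) * ∏ l, χ γ ^ (P (t l)).w / a l =
          β * χ γ ^ (∑ l, ((P (t l)).w : ℤ)) := by
        rw [mul_assoc, ← Finset.prod_mul_distrib]
        congr 1
        have h3 : χ γ ^ (∑ l, ((P (t l)).w : ℤ)) = ∏ l, χ γ ^ (P (t l)).w := by
          rw [← Nat.cast_sum, zpow_natCast, Finset.prod_pow_eq_pow_sum]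
        rw [h3]
        exact Finset.prod_congr rfl fun l _ => mul_div_cancel₀ _ (ha0 l)
      rw [h2, mul_pow, mul_assoc, ← zpow_natCast (χ γ ^ _) n, ← zpow_mul, ← zpow_add₀ hq]
      congr 2
      ring
  have h1 := umain R T e hT (homRep (OF.sumRep fun i => (P i).ρ) τ sᶜ.card) γ α hα hind' _ _ hF
  have h2 : (Submodule.span k {h | IsProductWith (action R)
      (homRep (OF.sumRep fun i => (P i).ρ) τ sᶜ.card) χ ({2} ∪ {n | ∃ j ∈ T, n = dm R j}) h}) ≤
      (Submodule.span k {h | IsProductWith (actW R P) τ χ (numbers R P T) h}).comap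
        (mergeL (finSumEquivOfFinset (s := s) rfl rfl)) := by
    rw [Submodule.span_le]
    rintro G ⟨ψ, u, c, hψ1, hψ2, hu, hG⟩
    have hG' : G = timesL ψ u := MultilinearMap.ext hG
    have hu' : IsTateClass (act P) (twistRep χ τ (-c)) u := by
      obtain ⟨Δ, hΔ, h⟩ := hu
      refine ⟨Δ, hΔ, fun g hg y => ?_⟩
      have e1 := DFunLike.congr_fun (h g hg) (fun l => OF.sumRep (fun i => (P i).ρ) g (y l))
      have e2 : τ g (u (fun l => OF.sumRep (fun i => (P i).ρ) g⁻¹
          (OF.sumRep (fun i => (P i).ρ) g (y l)))) =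
          χ g ^ c • u (fun l => OF.sumRep (fun i => (P i).ρ) g (y l)) := e1
      have e3 : (fun l => OF.sumRep (fun i => (P i).ρ) g⁻¹
          (OF.sumRep (fun i => (P i).ρ) g (y l))) = y := by
        funext l
        rw [← Module.End.mul_apply, ← map_mul, inv_mul_cancel, map_one, Module.End.one_apply]
      rw [e3] at e2
      change u (fun l => OF.sumRep (fun i => (P i).ρ) g (y l)) = χ g ^ (-c) • τ g (u y)
      rw [e2, smul_smul, ← zpow_add₀ (OF.chi_ne χ g), neg_add_cancel, zpow_zero, one_smul]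
    have h3 := main P (twistRep χ τ (-c)) hEnd γ hsimple (noRelations_twist P hrel (-c)) u hu'
    have h4 : (Submodule.span k {h | IsProductTimes P (twistRep χ τ (-c)) h}) ≤
        (Submodule.span k {h | IsProductWith (actW R P) τ χ (numbers R P T) h}).comap
          ((mergeL (finSumEquivOfFinset (s := s) rfl rfl)).comp (timesL ψ)) := by
      rw [Submodule.span_le]
      intro u' hu''
      exact Submodule.subset_span (merge_product R P (finSumEquivOfFinset (s := s) rfl rfl)
        hψ1 hψ2 hu'')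
    rw [hG']
    exact h4 h3
  exact h2 h1

end family

end

end Pool.Agent.V1141.SO
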