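import Pool.Agent.V1141.SO.CDefs
import Pool.Agent.V1141.WT.UMain

/-!
# Tate classes of all classical types: the combination
-/

set_option autoImplicit false
set_option linter.unusedSectionVars false

namespace Pool.Agent.V1141.SO

open Module Pool.Agent.V1141.WT Pool.Agent.V1141.OF

noncomputable section

/-- the representation on multilinear maps -/
def homRep {k : Type} [Field k] {Γ : Type} [Group Γ] {H M : Type} [AddCommGroup H] [Module k H]
    [AddCommGroup M] [Module k M] (ρ : Representation k Γ H) (τ : Representation k Γ M) (n : ℕ) :
    Representation k Γ (MultilinearMap k (fun _ : Fin n => H) M) where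
  toFun g :=
    { toFun := fun u => (τ g).compMultilinearMap (u.compLinearMap fun _ => ρ g⁻¹)
      map_add' := fun u v => MultilinearMap.ext fun x => map_add (τ g) _ _
      map_smul' := fun a u => MultilinearMap.ext fun x => map_smul (τ g) a _ }
  map_one' := by
    refine LinearMap.ext fun u => MultilinearMap.ext fun x => ?_
    change τ 1 (u (fun l => ρ 1⁻¹ (x l))) = u x
    simp only [inv_one, map_one, Module.End.one_apply]
  map_mul' g h := by
    refine LinearMap.ext fun u => MultilinearMap.ext fun x => ?_
    change τ (g * h) (u (fun l => ρ (g * h)⁻¹ (x l))) =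
      τ g (τ h (u (fun l => ρ h⁻¹ (ρ g⁻¹ (x l)))))
    simp only [mul_inv_rev, map_mul, Module.End.mul_apply]

theorem homRep_apply {k : Type} [Field k] {Γ : Type} [Group Γ] {H M : Type} [AddCommGroup H]
    [Module k H] [AddCommGroup M] [Module k M] (ρ : Representation k Γ H)
    (τ : Representation k Γ M) (n : ℕ) (g : Γ) (u : MultilinearMap k (fun _ : Fin n => H) M)
    (x : Fin n → H) : homRep ρ τ n g u x = τ g (u (fun l => ρ g⁻¹ (x l))) := rfl

section merge

variable {k : Type} [Field k] {H₁ H₂ M : Type} [AddCommGroup H₁] [Module k H₁] [AddCommGroup H₂]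
  [Module k H₂] [AddCommGroup M] [Module k M] {N n₁ n₂ : ℕ}

/-- the multilinear map of two groups of variables as a map on pairs -/
def merge (e : Fin n₁ ⊕ Fin n₂ ≃ Fin N)
    (G : MultilinearMap k (fun _ : Fin n₁ => H₁) (MultilinearMap k (fun _ : Fin n₂ => H₂) M)) :
    MultilinearMap k (fun _ : Fin N => H₁ × H₂) M where
  toFun x := G (fun i => (x (e (Sum.inl i))).1) (fun i => (x (e (Sum.inr i))).2)
  map_update_add' := by
    classical
    intro inst x j y z
    obtain ⟨t, rfl⟩ := e.surjective j
    rcases t with i | i
    · have h1 : ∀ v : H₁ × H₂, (fun i' => (Function.update x (e (Sum.inl i)) v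
          (e (Sum.inl i'))).1) = Function.update (fun i' => (x (e (Sum.inl i'))).1) i v.1 := by
        intro v
        funext i'
        by_cases h : i' = i
        · subst h
          rw [Function.update_self, Function.update_self]
        · rw [Function.update_of_ne h, Function.update_of_ne]
          exact fun h' => h (Sum.inl_injective (e.injective h'))
      have h2 : ∀ v : H₁ × H₂, (fun i' => (Function.update x (e (Sum.inl i)) v
          (e (Sum.inr i'))).2) = fun i' => (x (e (Sum.inr i'))).2 := by
        intro v
        funext i'
        rw [Function.update_of_ne]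
        exact fun h' => absurd (e.injective h') (by simp)
      rw [h1, h1, h1, h2, h2, h2, Prod.fst_add, G.map_update_add]
      rfl
    · have h1 : ∀ v : H₁ × H₂, (fun i' => (Function.update x (e (Sum.inr i)) v
          (e (Sum.inr i'))).2) = Function.update (fun i' => (x (e (Sum.inr i'))).2) i v.2 := by
        intro v
        funext i'
        by_cases h : i' = i
        · subst h
          rw [Function.update_self, Function.update_self]
        · rw [Function.update_of_ne h, Function.update_of_ne]
          exact fun h' => h (Sum.inr_injective (e.injective h'))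
      have h2 : ∀ v : H₁ × H₂, (fun i' => (Function.update x (e (Sum.inr i)) v
          (e (Sum.inl i'))).1) = fun i' => (x (e (Sum.inl i'))).1 := by
        intro v
        funext i'
        rw [Function.update_of_ne]
        exact fun h' => absurd (e.injective h') (by simp)
      rw [h1, h1, h1, h2, h2, h2, Prod.snd_add, MultilinearMap.map_update_add]
  map_update_smul' := by
    classical
    intro inst x j a y
    obtain ⟨t, rfl⟩ := e.surjective j
    rcases t with i | i
    · have h1 : ∀ v : H₁ × H₂, (fun i' => (Function.update x (e (Sum.inl i)) v
          (e (Sum.inl i'))).1) = Function.update (fun i' => (x (e (Sum.inl i'))).1) i v.1 := by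
        intro v
        funext i'
        by_cases h : i' = i
        · subst h
          rw [Function.update_self, Function.update_self]
        · rw [Function.update_of_ne h, Function.update_of_ne]
          exact fun h' => h (Sum.inl_injective (e.injective h'))
      have h2 : ∀ v : H₁ × H₂, (fun i' => (Function.update x (e (Sum.inl i)) v
          (e (Sum.inr i'))).2) = fun i' => (x (e (Sum.inr i'))).2 := by
        intro v
        funext i'
        rw [Function.update_of_ne]
        exact fun h' => absurd (e.injective h') (by simp)
      rw [h1, h1, h2, h2, Prod.smul_fst, G.map_update_smul]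
      rfl
    · have h1 : ∀ v : H₁ × H₂, (fun i' => (Function.update x (e (Sum.inr i)) v
          (e (Sum.inr i'))).2) = Function.update (fun i' => (x (e (Sum.inr i'))).2) i v.2 := by
        intro v
        funext i'
        by_cases h : i' = i
        · subst h
          rw [Function.update_self, Function.update_self]
        · rw [Function.update_of_ne h, Function.update_of_ne]
          exact fun h' => h (Sum.inr_injective (e.injective h'))
      have h2 : ∀ v : H₁ × H₂, (fun i' => (Function.update x (e (Sum.inr i)) v
          (e (Sum.inl i'))).1) = fun i' => (x (e (Sum.inl i'))).1 := by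
        intro v
        funext i'
        rw [Function.update_of_ne]
        exact fun h' => absurd (e.injective h') (by simp)
      rw [h1, h1, h2, h2, Prod.smul_snd, MultilinearMap.map_update_smul]

theorem merge_apply (e : Fin n₁ ⊕ Fin n₂ ≃ Fin N)
    (G : MultilinearMap k (fun _ : Fin n₁ => H₁) (MultilinearMap k (fun _ : Fin n₂ => H₂) M))
    (x : Fin N → H₁ × H₂) :
    merge e G x = G (fun i => (x (e (Sum.inl i))).1) (fun i => (x (e (Sum.inr i))).2) := rfl

/-- the part of `f` with the variables `e (inl i)` in `H₁` and the variables `e (inr i)` in `H₂` -/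
def split (e : Fin n₁ ⊕ Fin n₂ ≃ Fin N) (f : MultilinearMap k (fun _ : Fin N => H₁ × H₂) M) :
    MultilinearMap k (fun _ : Fin n₁ => H₁) (MultilinearMap k (fun _ : Fin n₂ => H₂) M) :=
  (MultilinearMap.compLinearMapₗ (fun _ : Fin n₂ => LinearMap.inr k H₁ H₂)).compMultilinearMap
    ((MultilinearMap.currySum (f.domDomCongr e.symm)).compLinearMap
      (fun _ => LinearMap.inl k H₁ H₂))

theorem split_apply (e : Fin n₁ ⊕ Fin n₂ ≃ Fin N)
    (f : MultilinearMap k (fun _ : Fin N => H₁ × H₂) M) (x : Fin n₁ → H₁) (y : Fin n₂ → H₂) :
    split e f x y = f (fun l => Sum.elim (fun i => ((x i, 0) : H₁ × H₂)) (fun i => (0, y i))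
      (e.symm l)) := by
  unfold split
  rfl

end merge

end

end Pool.Agent.V1141.SO
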