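import Pool.Agent.V1141.SO.Num

/-!
# Homological and numerical equivalence on products: the main theorem
-/

set_option autoImplicit false
set_option linter.unusedSectionVars false

namespace Pool.Agent.V1141.SO

open Module Pool.Agent.V1141.WT Pool.Agent.V1141.OF

section defs

variable {k : Type} [Field k] {Γ : Type} [Group Γ] {χ : Γ →* k} {I : Type}
  (P : I → FormPiece k χ)

/-- `g` is a Tate class with values in a twist of `M`: the elements `s` of a subgroup of finite index
act on it through `χ s ^ c`. -/
def IsTwistedTateClass {M : Type} [AddCommGroup M] [Module k M] (τ : Representation k Γ M) {N : ℕ}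
    (c : ℤ) (g : MultilinearMap k (fun _ : Fin N => Sum P) M) : Prop :=
  ∃ Δ : Subgroup Γ, Δ.FiniteIndex ∧ ∀ s ∈ Δ, ∀ x,
    g (fun l => act P s (x l)) = χ s ^ c • move τ s (g x)

/-- `f` is a sum of Tate classes with values in twists of `M`. -/
def IsSumOfTateClasses {M : Type} [AddCommGroup M] [Module k M] (τ : Representation k Γ M) {N : ℕ}
    (f : MultilinearMap k (fun _ : Fin N => Sum P) M) : Prop :=
  f ∈ Submodule.span k {g | ∃ c : ℤ, IsTwistedTateClass P τ c g}

/-- The eigenvalues of `γ` on the `V i` satisfy only the trivial relations with each other, with `χ γ`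
and with each eigenvalue of `γ` on `M`. -/
def NoRelationsUpToTwist {M : Type} [AddCommGroup M] [Module k M] (τ : Representation k Γ M)
    (γ : Γ) : Prop :=
  ∀ (β : k) (c : ℤ), Module.End.HasEigenvalue (τ γ) β →
    NoRelationsWith (fun i => (P i).ρ) χ (fun i => (P i).w) γ (β * χ γ ^ c)

/-- The pairing of `u` with `u'`. -/
def meet {M M' : Type} [AddCommGroup M] [Module k M] [AddCommGroup M'] [Module k M']
    (B : M →ₗ[k] M' →ₗ[k] k) (u : M) (u' : M') : k := B u u'

/-- Every element of `A` which is orthogonal to all elements of `A'` is zero. -/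
def Separated {M M' : Type} [AddCommGroup M] [Module k M] [AddCommGroup M'] [Module k M']
    (B : M →ₗ[k] M' →ₗ[k] k) (A : Set M) (A' : Set M') : Prop :=
  ∀ u ∈ A, (∀ u' ∈ A', meet B u u' = 0) → u = 0

/-- `A` is a set of classes on the product (for example the classes of algebraic cycles, or the
subspace spanned by them) in the tensor product of `M` and of the `N`-th tensor power of the dual of `H`,
that is of multilinear maps; they are sums of Tate classes. `AU` is a set of classes on `U`, in `M`,
which contains their contractions with products of pairings and discriminants, and `AU'` is a set of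
classes on `U` in the complementary degree. -/
structure Cycles [Fintype I] [DecidableEq I] {P : I → FormPiece k χ} {M : Type}
    [AddCommGroup M] [Module k M] (τ : Representation k Γ M) (h : ∀ i, HypBasis (P i)) (N : ℕ) where
  /-- the classes on the product -/
  A : Set (MultilinearMap k (fun _ : Fin N => Sum P) M)
  tate : ∀ f ∈ A, IsSumOfTateClasses P τ f
  /-- the classes on `U` -/
  AU : Set M
  contr : ∀ f ∈ A, ∀ ψ, IsProductOfForms P ψ → contraction h f ψ ∈ AU
  /-- the cohomology of `U` in the complementary degree -/
  M' : Type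
  [acM' : AddCommGroup M']
  [mM' : Module k M']
  /-- the intersection pairing -/
  B : M →ₗ[k] M' →ₗ[k] k
  /-- the classes on `U` in the complementary degree -/
  AU' : Set M'

attribute [instance] Cycles.acM' Cycles.mM'

/-- Homological and numerical equivalence coincide on `U`. -/
def Cycles.HomEqNumOnU [Fintype I] [DecidableEq I] {P : I → FormPiece k χ} {M : Type}
    [AddCommGroup M] [Module k M] {τ : Representation k Γ M} {h : ∀ i, HypBasis (P i)} {N : ℕ}
    (D : Cycles τ h N) : Prop := Separated D.B D.AU D.AU'

/-- Homological and numerical equivalence coincide on the product: every class `f` in `A`, which is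
orthogonal to the products of a product `ψ` of pairings and discriminants and of a class `u'` in `AU'`,
is zero. -/
def Cycles.HomEqNum [Fintype I] [DecidableEq I] {P : I → FormPiece k χ} {M : Type}
    [AddCommGroup M] [Module k M] {τ : Representation k Γ M} {h : ∀ i, HypBasis (P i)} {N : ℕ}
    (D : Cycles τ h N) : Prop :=
  ∀ f ∈ D.A, (∀ ψ, IsProductOfForms P ψ → ∀ u' ∈ D.AU', meet D.B (contraction h f ψ) u' = 0) →
    f = 0

end defs

noncomputable section

variable {k : Type} [Field k] [CharZero k] {Γ : Type} [Group Γ] {χ : Γ →* k} {I : Type}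
  [Fintype I] (P : I → FormPiece k χ)

theorem noRelations_twist {M : Type} [AddCommGroup M] [Module k M] {τ : Representation k Γ M}
    {γ : Γ} (h : NoRelationsUpToTwist P τ γ) (c : ℤ) : NoRelations P (twistRep χ τ c) γ := by
  intro β hβ
  have h1 := h _ c (eigen_twist τ c hβ)
  rwa [mul_assoc, ← zpow_add₀ (OF.chi_ne χ γ), neg_add_cancel, zpow_zero, mul_one] at h1

/-- Hyperbolic bases exist. -/
theorem exists_hyp [IsAlgClosed k] {M : Type} [AddCommGroup M] [Module k M]
    [FiniteDimensional k M]
    (τ : Representation k Γ M) (hEnd : ∀ i, OnlyScalarEndos (P i).ρ) (γ : Γ)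
    (hsimple : SimpleEigenvalues P γ) (hrel : NoRelationsUpToTwist P τ γ) (i : I) :
    Nonempty (HypBasis (P i)) := by
  classical
  have hsgn : ∀ i, (P i).sgn = 1 ∨ (P i).sgn = -1 := fun i =>
    (P i).sgn_eq.imp (fun h => h.1) id
  obtain ⟨d, b, inv, J, hJ, hinv, hωb, -⟩ := tt_mem (V := fun i => (P i).V)
    (fun i => (P i).ρ) (twistRep χ τ 0) χ (fun i => (P i).w) (fun i => (P i).sgn) hsgn
    (fun i => (P i).ω) (fun i => (P i).sym) (fun i => (P i).nondeg) (fun i => (P i).twisted)
    hEnd γ (fun i => (hsimple i).1) (fun i => (hsimple i).2) (noRelations_twist P hrel 0)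
  exact ⟨{ d := d i, b := b i, star := inv i, v := J i, star_star := hinv i, v_ne := hJ i,
           form := fun x y => hωb i x y }⟩

theorem dmain [DecidableEq I] [IsAlgClosed k] {M : Type} [AddCommGroup M] [Module k M]
    [FiniteDimensional k M]
    (τ : Representation k Γ M) (hEnd : ∀ i, OnlyScalarEndos (P i).ρ) (γ : Γ)
    (hsimple : SimpleEigenvalues P γ) (hrel : NoRelationsUpToTwist P τ γ)
    (h : ∀ i, HypBasis (P i)) {N : ℕ} (D : Cycles τ h N) (hD : D.HomEqNumOnU) : D.HomEqNum :=
  fun f hf hnum => zero_of_contractions P τ hEnd γ hsimple (noRelations_twist P hrel) h (D.tate f hf)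
    fun ψ hψ => hD _ (D.contr f hf ψ hψ) (hnum ψ hψ)

end

end Pool.Agent.V1141.SO
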