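import Pool.Agent.V1141.WT.PiecesU
import Pool.Agent.V1141.OF.OrthDefs

/-!
# Representations with forms, products of pairings and discriminant forms
-/

set_option autoImplicit false

namespace Pool.Agent.V1141.SO

open Module Pool.Agent.V1141.WT Pool.Agent.V1141.OF

/-- A representation `V` of `Γ` over `k` with a nondegenerate bilinear form `ω`, which is symmetric
(`sgn = 1`) or alternating (`sgn = -1`) and is multiplied by `χ ^ w` by `Γ`; `w` is even if the
form is symmetric. -/
structure FormPiece (k : Type) [Field k] {Γ : Type} [Group Γ] (χ : Γ →* k) where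
  /-- the space -/
  V : Type
  [acV : AddCommGroup V]
  [mV : Module k V]
  [finV : FiniteDimensional k V]
  /-- the action -/
  ρ : Representation k Γ V
  /-- the form -/
  ω : V →ₗ[k] V →ₗ[k] k
  /-- the twist -/
  w : ℕ
  /-- the sign -/
  sgn : ℤ
  sgn_eq : (sgn = 1 ∧ Even w) ∨ sgn = -1
  sym : ∀ u v, value ω u v = (sgn : k) * value ω v u
  nondeg : ∀ u, (∀ v, value ω v u = 0) → u = 0
  twisted : ∀ g u v, value ω (move ρ g u) (move ρ g v) = χ g ^ w * value ω u v

attribute [instance] FormPiece.acV FormPiece.mV FormPiece.finV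

section family

variable {k : Type} [Field k] {Γ : Type} [Group Γ] {χ : Γ →* k} {I : Type}

/-- The sum `H` of all `V i`. -/
abbrev Sum (P : I → FormPiece k χ) : Type := ∀ i, (P i).V

/-- The action of `Γ` on `H`. -/
def act (P : I → FormPiece k χ) : Γ → Sum P → Sum P := fun g x i => move (P i).ρ g (x i)

/-- The form `φ` in two variables on `H` is one of the pairings `ω i`. -/
def IsPairing (P : I → FormPiece k χ) {m : ℕ}
    (φ : MultilinearMap k (fun _ : Fin m => Sum P) k) : Prop :=
  ∃ (i : I) (e : Fin 2 ≃ Fin m), ∀ x, φ x = value (P i).ω (x (e 0) i) (x (e 1) i)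

/-- The form `φ` in `dim (V i)` variables on `H` is a discriminant form of one of the `V i` with a
symmetric form: an alternating form in `dim (V i)` variables on `V i`. -/
def IsDiscriminant (P : I → FormPiece k χ) {m : ℕ}
    (φ : MultilinearMap k (fun _ : Fin m => Sum P) k) : Prop :=
  ∃ i : I, (P i).sgn = 1 ∧ m = finrank k (P i).V ∧
    ∃ D : (P i).V [⋀^Fin m]→ₗ[k] k, ∀ x, φ x = D (fun l => x l i)

/-- `φ` is a product of pairings and discriminant forms; each variable occurs in exactly one of the
factors. -/
def IsProductOfForms (P : I → FormPiece k χ) {N : ℕ}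
    (φ : MultilinearMap k (fun _ : Fin N => Sum P) k) : Prop :=
  ∃ (A : Type) (_ : Fintype A) (m : A → ℕ) (p : (Σ a, Fin (m a)) ≃ Fin N)
    (ψ : ∀ a, MultilinearMap k (fun _ : Fin (m a) => Sum P) k),
    (∀ a, IsPairing P (ψ a) ∨ IsDiscriminant P (ψ a)) ∧
      ∀ x, φ x = ∏ a, ψ a (fun i => x (p ⟨a, i⟩))

/-- `f` is the product of a form `ψ`, which is a product of pairings and discriminant forms and is
multiplied by `χ ^ c` by a subgroup of finite index, and of a vector `u` of `M` with the same
property. -/
def IsProductTimes {M : Type} [AddCommGroup M] [Module k M] (P : I → FormPiece k χ)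
    (τ : Representation k Γ M) {N : ℕ} (f : MultilinearMap k (fun _ : Fin N => Sum P) M) : Prop :=
  ∃ (ψ : MultilinearMap k (fun _ : Fin N => Sum P) k) (u : M) (c : ℤ),
    IsProductOfForms P ψ ∧ IsTate (act P) χ c ψ ∧ IsTateVector τ χ c u ∧ ∀ x, f x = ψ x • u

/-- The action of `γ` on every `V i` has simple eigenvalues, and at most one of them is equal to its
dual eigenvalue. -/
def SimpleEigenvalues (P : I → FormPiece k χ) (γ : Γ) : Prop :=
  ∀ i, ((P i).ρ γ).charpoly.Separable ∧ ∀ a a', Module.End.HasEigenvalue ((P i).ρ γ) a →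
    Module.End.HasEigenvalue ((P i).ρ γ) a' → a ^ 2 = χ γ ^ (P i).w → a' ^ 2 = χ γ ^ (P i).w → a = a'

/-- The eigenvalues of `γ` on the `V i` satisfy only the trivial relations with each other and with the
eigenvalues of `γ` on `M`. -/
def NoRelations {M : Type} [AddCommGroup M] [Module k M] (P : I → FormPiece k χ)
    (τ : Representation k Γ M) (γ : Γ) : Prop :=
  ∀ β, Module.End.HasEigenvalue (τ γ) β →
    NoRelationsWith (fun i => (P i).ρ) χ (fun i => (P i).w) γ β

end family

end Pool.Agent.V1141.SO
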