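import Pool.Agent.V1141.SO.Defs
import Pool.Agent.V1141.WT.D6

/-!
# Determinants of representations with symmetric forms; pairings and discriminants as forms
-/

set_option autoImplicit false
set_option linter.unusedSectionVars false

namespace Pool.Agent.V1141.SO

open Module Pool.Agent.V1141.WT Pool.Agent.V1141.OF

noncomputable section

theorem det_sq {k : Type} [Field k] {Γ : Type} [Group Γ] {χ : Γ →* k} {V : Type}
    [AddCommGroup V] [Module k V] [FiniteDimensional k V] (ρ : Representation k Γ V)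
    (ω : V →ₗ[k] V →ₗ[k] k) (hnd : ∀ u, (∀ v, ω u v = 0) → u = 0) {w : ℕ}
    (hω : ∀ g u v, ω (ρ g u) (ρ g v) = χ g ^ w * ω u v) (g : Γ) :
    LinearMap.det (ρ g) ^ 2 = χ g ^ (w * finrank k V) := by
  classical
  let b : Basis (Fin (finrank k V)) k V := finBasis k V
  have h1 : LinearMap.toMatrix₂ b b (ω.compl₁₂ (ρ g) (ρ g)) =
      (LinearMap.toMatrix b b (ρ g)).transpose * LinearMap.toMatrix₂ b b ω *
        LinearMap.toMatrix b b (ρ g) := LinearMap.toMatrix₂_compl₁₂ _ _ _ _ _ _ _
  have h2 : ω.compl₁₂ (ρ g) (ρ g) = χ g ^ w • ω := by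
    refine LinearMap.ext fun u => LinearMap.ext fun v => ?_
    rw [LinearMap.compl₁₂_apply, hω]
    rfl
  rw [h2, map_smul] at h1
  have h3 := congrArg Matrix.det h1
  rw [Matrix.det_smul, Matrix.det_mul, Matrix.det_mul, Matrix.det_transpose,
    LinearMap.det_toMatrix, Fintype.card_fin] at h3
  have h4 : (LinearMap.toMatrix₂ b b ω).det ≠ 0 :=
    (LinearMap.separatingLeft_iff_det_ne_zero b).1 hnd
  have h5 : (χ g ^ w) ^ finrank k V = LinearMap.det (ρ g) ^ 2 := by
    apply mul_right_cancel₀ h4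
    rw [h3]
    ring
  rw [← h5, ← pow_mul]

theorem det_tate {k : Type} [Field k] [CharZero k] {Γ : Type} [Group Γ] {χ : Γ →* k} {V : Type}
    [AddCommGroup V] [Module k V] [FiniteDimensional k V] (ρ : Representation k Γ V)
    (ω : V →ₗ[k] V →ₗ[k] k) (hnd : ∀ u, (∀ v, ω u v = 0) → u = 0) {w : ℕ} (hw : Even w)
    (hω : ∀ g u v, ω (ρ g u) (ρ g v) = χ g ^ w * ω u v) :
    ∃ Δ : Subgroup Γ, Δ.FiniteIndex ∧ ∀ g ∈ Δ, LinearMap.det (ρ g) =
      χ g ^ (w / 2 * finrank k V) := by
  obtain ⟨v, rfl⟩ := hw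
  have hv : (v + v) / 2 = v := by omega
  rw [hv]
  set n := v * finrank k V with hn
  have hχ : ∀ g, χ g ≠ 0 := fun g => chi_ne χ g
  let φ : Γ →* k :=
    { toFun := fun g => LinearMap.det (ρ g) * (χ g ^ n)⁻¹
      map_one' := by
        rw [map_one, map_one, map_one, one_pow, inv_one, mul_one]
      map_mul' := fun g h => by
        rw [map_mul, map_mul, map_mul, mul_pow, mul_inv]
        ring }
  have hφ : ∀ g, φ g = 1 ∨ φ g = -1 := by
    intro g
    rw [← sq_eq_one_iff]
    change (LinearMap.det (ρ g) * (χ g ^ n)⁻¹) ^ 2 = 1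
    rw [mul_pow, det_sq ρ ω hnd hω g, inv_pow, ← pow_mul, hn]
    rw [show (v + v) * finrank k V = v * finrank k V * 2 by ring]
    exact mul_inv_cancel₀ (pow_ne_zero _ (hχ g))
  have hfin : Finite φ.toHomUnits.range := by
    have h1 : ((φ.toHomUnits.range : Subgroup kˣ) : Set kˣ) ⊆ {1, -1} := by
      rintro _ ⟨g, rfl⟩
      rcases hφ g with h | h
      · left
        exact Units.ext h
      · right
        exact Units.ext h
    exact (Set.toFinite ({1, -1} : Set kˣ)).subset h1
  refine ⟨φ.toHomUnits.ker, Subgroup.finiteIndex_ker _, fun g hg => ?_⟩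
  rw [MonoidHom.mem_ker] at hg
  have h1 : LinearMap.det (ρ g) * (χ g ^ n)⁻¹ = 1 := congrArg Units.val hg
  exact (mul_inv_eq_one₀ (pow_ne_zero _ (hχ g))).1 h1

section

variable {k : Type} [Field k] {I : Type} {V : I → Type} [∀ i, AddCommGroup (V i)]
  [∀ i, Module k (V i)]

/-- the pairing as a form in the variables `e 0`, `e 1` -/
def pairM (i : I) (B : V i →ₗ[k] V i →ₗ[k] k) {m : ℕ} (e : Fin 2 ≃ Fin m) :
    MultilinearMap k (fun _ : Fin m => ∀ i, V i) k where
  toFun x := B (x (e 0) i) (x (e 1) i)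
  map_update_add' := by
    intro inst x j y z
    obtain ⟨t, rfl⟩ := e.surjective j
    have ht : t = 0 ∨ t = 1 := by omega
    have h01 : e 0 ≠ e 1 := fun h => absurd (e.injective h) (by decide)
    rcases ht with rfl | rfl
    · simp only [Function.update_self, Function.update_of_ne h01.symm, Pi.add_apply, map_add,
        LinearMap.add_apply]
    · simp only [Function.update_self, Function.update_of_ne h01, Pi.add_apply, map_add]
  map_update_smul' := by
    intro inst x j c y
    obtain ⟨t, rfl⟩ := e.surjective j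
    have ht : t = 0 ∨ t = 1 := by omega
    have h01 : e 0 ≠ e 1 := fun h => absurd (e.injective h) (by decide)
    rcases ht with rfl | rfl
    · simp only [Function.update_self, Function.update_of_ne h01.symm, Pi.smul_apply, map_smul,
        LinearMap.smul_apply]
    · simp only [Function.update_self, Function.update_of_ne h01, Pi.smul_apply, map_smul]

theorem pairM_apply (i : I) (B : V i →ₗ[k] V i →ₗ[k] k) {m : ℕ} (e : Fin 2 ≃ Fin m)
    (x : Fin m → ∀ i, V i) : pairM i B e x = B (x (e 0) i) (x (e 1) i) := rfl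

/-- the alternating form on the component `i` -/
def detM (i : I) {m : ℕ} (D : (V i) [⋀^Fin m]→ₗ[k] k) :
    MultilinearMap k (fun _ : Fin m => ∀ i, V i) k :=
  D.toMultilinearMap.compLinearMap (fun _ => LinearMap.proj i)

theorem detM_apply (i : I) {m : ℕ} (D : (V i) [⋀^Fin m]→ₗ[k] k) (x : Fin m → ∀ i, V i) :
    detM i D x = D (fun l => x l i) := rfl

end

section family

variable {k : Type} [Field k] [CharZero k] {Γ : Type} [Group Γ] {χ : Γ →* k} {I : Type}
  (P : I → FormPiece k χ)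

theorem sgn_ne (i : I) : ((P i).sgn : k) ≠ 0 := by
  rcases (P i).sgn_eq with ⟨h, -⟩ | h
  · rw [h, Int.cast_one]
    exact one_ne_zero
  · rw [h, Int.cast_neg, Int.cast_one]
    exact neg_ne_zero.2 one_ne_zero

theorem nondeg' (i : I) (u : (P i).V) (hu : ∀ v, (P i).ω u v = 0) : u = 0 := by
  apply (P i).nondeg u
  intro v
  have h1 := (P i).sym u v
  unfold value at h1 ⊢
  rw [hu] at h1
  rcases mul_eq_zero.1 h1.symm with h | h
  · exact absurd h (sgn_ne P i)
  · exact h

/-- a pairing is a Tate form -/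
theorem pair_tate (i : I) {m : ℕ} (e : Fin 2 ≃ Fin m) :
    IsTate (act P) χ ((P i).w : ℤ) (pairM (V := fun i => (P i).V) i (P i).ω e) := by
  refine ⟨⊤, inferInstance, fun g _ x => ?_⟩
  rw [zpow_natCast]
  exact (P i).twisted g _ _

/-- a discriminant form is a Tate form -/
theorem disc_tate (i : I) (hi : (P i).sgn = 1) {m : ℕ} (hm : m = finrank k (P i).V)
    (D : (P i).V [⋀^Fin m]→ₗ[k] k) :
    IsTate (act P) χ (((P i).w / 2 * m : ℕ) : ℤ) (detM (V := fun i => (P i).V) i D) := by
  have hw : Even (P i).w := by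
    rcases (P i).sgn_eq with ⟨-, h⟩ | h
    · exact h
    · rw [hi] at h
      norm_num at h
  obtain ⟨Δ, hΔ, h⟩ := det_tate (P i).ρ (P i).ω (nondeg' P i) hw (P i).twisted
  subst hm
  refine ⟨Δ, hΔ, fun g hg x => ?_⟩
  rw [zpow_natCast, ← h g hg, detM_apply, detM_apply]
  let b : Basis (Fin (finrank k (P i).V)) k (P i).V := finBasis k (P i).V
  have h1 := D.eq_smul_basis_det b
  rw [h1, AlternatingMap.smul_apply, AlternatingMap.smul_apply]
  have h2 := b.det_comp ((P i).ρ g) (fun l => x l i)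
  have h3 : b.det (fun l => act P g (x l) i) = b.det ((P i).ρ g ∘ fun l => x l i) := rfl
  rw [h3, h2, smul_eq_mul, smul_eq_mul]
  ring

/-- a product of Tate forms is a Tate form -/
theorem prod_tate {N : ℕ} {A : Type} [Fintype A] {m : A → ℕ} (p : (Σ a, Fin (m a)) ≃ Fin N)
    (c : A → ℤ) (ψ : ∀ a, MultilinearMap k (fun _ : Fin (m a) => Sum P) k)
    (hψ : ∀ a, IsTate (act P) χ (c a) (ψ a)) (φ : MultilinearMap k (fun _ : Fin N => Sum P) k)
    (hφ : ∀ x, φ x = ∏ a, ψ a (fun i => x (p ⟨a, i⟩))) :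
    IsTate (act P) χ (∑ a, c a) φ := by
  choose Δ hΔ h using hψ
  refine ⟨⨅ a, Δ a, Subgroup.finiteIndex_iInf hΔ, fun g hg x => ?_⟩
  rw [hφ, hφ, ← coe_prod_zpow (chi_ne χ g), ← Finset.prod_mul_distrib]
  exact Finset.prod_congr rfl fun a _ => h a g (Subgroup.mem_iInf.1 hg a) _

end family

end

end Pool.Agent.V1141.SO
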