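import Pool.Agent.TH125.Nod.Fft2

/-!
# Products of pairings and determinants
-/

set_option autoImplicit false
set_option linter.unusedSectionVars false

open Finset Function

namespace Pool.Agent.V1141.SO

open Pool.Agent.TH125.Nod

variable {K : Type} [Field K] {B : Type} [Fintype B] [DecidableEq B] {ι : Type} [DecidableEq ι]

/-- the pairing -/
def pairF (κ : B → ι) (Q : Matrix B B K) {m : ℕ} (i : ι) (e : Fin 2 ≃ Fin m) (J : Fin m → B) : K :=
  if κ (J (e 0)) = i then Q (J (e 0)) (J (e 1)) else 0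

/-- the determinant -/
def detF (κ : B → ι) (K : Type) [Field K] {m : ℕ} (i : ι) (e : Fin m ≃ {b // κ b = i})
    (J : Fin m → B) : K :=
  Matrix.det (Matrix.of fun x y : Fin m => if J x = (e y).1 then (1 : K) else 0)

/-- the basic factors -/
def Basic (κ : B → ι) (Q : Matrix B B K) (s : ι → ℤ) {m : ℕ} (c : Fin m → ι)
    (ψ : (Fin m → B) → K) : Prop :=
  (∃ (i : ι) (e : Fin 2 ≃ Fin m), (∀ x, c x = i) ∧ ψ = pairF κ Q i e) ∨
  ∃ (i : ι) (e : Fin m ≃ {b // κ b = i}), s i = 1 ∧ (∀ x, c x = i) ∧ ψ = detF κ K i e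

/-- products -/
def IsGen (κ : B → ι) (Q : Matrix B B K) (s : ι → ℤ) {S : Type} (c : S → ι)
    (g : (S → B) → K) : Prop :=
  ∃ (A : Type) (_ : Fintype A) (m : A → ℕ) (p : (Σ a, Fin (m a)) ≃ S)
    (ψ : ∀ a, (Fin (m a) → B) → K), (∀ a, Basic κ Q s (fun x => c (p ⟨a, x⟩)) (ψ a)) ∧
      g = fun J => ∏ a, ψ a (fun x => J (p ⟨a, x⟩))

/-- the span of the products -/
def GenD (κ : B → ι) (Q : Matrix B B K) (s : ι → ℤ) {S : Type} (c : S → ι) :
    Submodule K ((S → B) → K) := Submodule.span K {g | IsGen κ Q s c g}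

variable {κ : B → ι} {Q : Matrix B B K} {s : ι → ℤ} (hQb : ∀ u v, κ u ≠ κ v → Q u v = 0)

include hQb in
theorem basic_sup {m : ℕ} {c : Fin m → ι} {ψ : (Fin m → B) → K} (h : Basic κ Q s c ψ)
    {J : Fin m → B} {x : Fin m} (hx : κ (J x) ≠ c x) : ψ J = 0 := by
  rcases h with ⟨i, e, hc, rfl⟩ | ⟨i, e, -, hc, rfl⟩
  · unfold pairF
    rw [hc] at hx
    obtain ⟨y, rfl⟩ := e.surjective x
    have hy : y = 0 ∨ y = 1 := by omega
    rcases hy with rfl | rfl
    · rw [if_neg hx]
    · by_cases h : κ (J (e 0)) = i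
      · rw [if_pos h, hQb _ _ (fun h' => hx (h' ▸ h))]
      · rw [if_neg h]
  · unfold detF
    rw [hc] at hx
    refine Matrix.det_eq_zero_of_row_eq_zero x fun y => ?_
    rw [Matrix.of_apply, if_neg]
    intro h
    apply hx
    rw [h]
    exact (e y).2

include hQb in
theorem isGen_sup {S : Type} {c : S → ι} {g : (S → B) → K} (h : IsGen κ Q s c g) : Sup κ c g := by
  obtain ⟨A, _, m, p, ψ, hψ, rfl⟩ := h
  intro J hJ
  push Not at hJ
  obtain ⟨j, hj⟩ := hJ
  obtain ⟨⟨a, x⟩, rfl⟩ := p.surjective j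
  exact Finset.prod_eq_zero (Finset.mem_univ a) (basic_sup hQb (hψ a) (x := x) hj)

theorem isGen_perm {S : Type} [DecidableEq S] {c : S → ι} {σ : Equiv.Perm S}
    (hσ : ∀ j, c (σ j) = c j) {g : (S → B) → K} (h : IsGen κ Q s c g) :
    IsGen κ Q s c (rho (K := K) σ g) := by
  obtain ⟨A, _, m, p, ψ, hψ, rfl⟩ := h
  refine ⟨A, inferInstance, m, p.trans σ, ψ, fun a => ?_, rfl⟩
  have h1 : (fun x => c ((p.trans σ) ⟨a, x⟩)) = fun x => c (p ⟨a, x⟩) := funext fun x => hσ _
  rw [h1]
  exact hψ a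

theorem genD_perm {S : Type} [DecidableEq S] {c : S → ι} {σ : Equiv.Perm S}
    (hσ : ∀ j, c (σ j) = c j) {g : (S → B) → K} (h : g ∈ GenD κ Q s c) :
    rho (K := K) σ g ∈ GenD κ Q s c := by
  unfold GenD at h ⊢
  induction h using Submodule.span_induction with
  | mem x hx => exact Submodule.subset_span (isGen_perm hσ hx)
  | zero => rw [map_zero]; exact Submodule.zero_mem _
  | add x y _ _ hx hy => rw [map_add]; exact Submodule.add_mem _ hx hy
  | smul a x _ hx => rw [map_smul]; exact Submodule.smul_mem _ a hx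

theorem isGen_cons {S Y : Type} {c : S → ι} {m : ℕ} (p : Fin m ⊕ Y ≃ S) {ψ : (Fin m → B) → K}
    (hψ : Basic κ Q s (fun x => c (p (Sum.inl x))) ψ) {g : (Y → B) → K}
    (hg : IsGen κ Q s (fun y => c (p (Sum.inr y))) g) :
    IsGen κ Q s c (fun J => ψ (fun x => J (p (Sum.inl x))) * g (fun y => J (p (Sum.inr y)))) := by
  obtain ⟨A, _, m', p', ψ', hψ', rfl⟩ := hg
  let mm : Unit ⊕ A → ℕ := Sum.elim (fun _ => m) m'
  let pp : (Σ a, Fin (mm a)) ≃ S := (Equiv.sumSigmaDistrib (fun a => Fin (mm a))).trans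
    ((Equiv.sumCongr (Equiv.uniqueSigma (fun _ : Unit => Fin m)) p').trans p)
  let ψψ : ∀ a, (Fin (mm a) → B) → K := fun a => match a with
    | Sum.inl _ => ψ
    | Sum.inr a => ψ' a
  refine ⟨Unit ⊕ A, inferInstance, mm, pp, ψψ, ?_, ?_⟩
  · rintro (a | a)
    · exact hψ
    · exact hψ' a
  · funext J
    rw [Fintype.prod_sum_type, Fintype.prod_unique]
    rfl

theorem genD_cons {S Y : Type} {c : S → ι} {m : ℕ} (p : Fin m ⊕ Y ≃ S) {ψ : (Fin m → B) → K}
    (hψ : Basic κ Q s (fun x => c (p (Sum.inl x))) ψ) {g : (Y → B) → K}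
    (hg : g ∈ GenD κ Q s (fun y => c (p (Sum.inr y)))) :
    (fun J => ψ (fun x => J (p (Sum.inl x))) * g (fun y => J (p (Sum.inr y)))) ∈ GenD κ Q s c := by
  unfold GenD at hg ⊢
  induction hg using Submodule.span_induction with
  | mem x hx => exact Submodule.subset_span (isGen_cons p hψ hx)
  | zero =>
    convert Submodule.zero_mem _ using 1
    funext J
    simp
  | add x y _ _ hx hy =>
    convert Submodule.add_mem _ hx hy using 1
    funext J
    simp only [Pi.add_apply, mul_add]
  | smul a x _ hx =>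
    convert Submodule.smul_mem _ a hx using 1
    funext J
    simp only [Pi.smul_apply, smul_eq_mul]
    ring

theorem genD_empty {S : Type} [IsEmpty S] (c : S → ι) (f : (S → B) → K) : f ∈ GenD κ Q s c := by
  have h1 : f = f (fun j => (IsEmpty.false j).elim) • (fun _ : S → B => (1 : K)) := by
    funext J
    rw [Pi.smul_apply, smul_eq_mul, mul_one]
    congr 1
    funext j
    exact (IsEmpty.false j).elim
  rw [h1]
  refine Submodule.smul_mem _ _ (Submodule.subset_span ⟨Empty, inferInstance, fun _ => 0,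
    Equiv.equivOfIsEmpty _ _, fun a => a.elim, fun a => a.elim, ?_⟩)
  funext J
  rw [Finset.univ_eq_empty, Finset.prod_empty]

include hQb in
theorem genD_sup {S : Type} {c : S → ι} {g : (S → B) → K} (h : g ∈ GenD κ Q s c) : Sup κ c g := by
  intro J hJ
  unfold GenD at h
  induction h using Submodule.span_induction with
  | mem x hx => exact isGen_sup hQb hx J hJ
  | zero => rfl
  | add x y _ _ hx hy => rw [Pi.add_apply, hx, hy, add_zero]
  | smul a x _ hx => rw [Pi.smul_apply, hx, smul_zero]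

include hQb in
theorem genD_pair {S : Type} {c : S → ι} {a b : S} (hab : a ≠ b) (hc : c a = c b)
    {g : ({x // x ≠ a ∧ x ≠ b} → B) → K} (hg : g ∈ GenD κ Q s (fun x => c x.1)) [Fintype S] :
    (fun J : S → B => if ∀ j, κ (J j) = c j then Q (J a) (J b) • g (fun x => J x.1) else 0) ∈
      GenD κ Q s c := by
  classical
  have hbij : Bijective (Sum.elim (fun x : Fin 2 => if x = 0 then a else b)
      (fun x : {x // x ≠ a ∧ x ≠ b} => x.1)) := by
    constructor
    · rintro (x | x) (y | y) h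
      · simp only [Sum.elim_inl] at h
        congr 1
        by_cases hx : x = 0 <;> by_cases hy : y = 0
        · rw [hx, hy]
        · rw [if_pos hx, if_neg hy] at h
          exact absurd h hab
        · rw [if_neg hx, if_pos hy] at h
          exact absurd h.symm hab
        · omega
      · simp only [Sum.elim_inl, Sum.elim_inr] at h
        by_cases hx : x = 0
        · rw [if_pos hx] at h
          exact absurd h.symm y.2.1
        · rw [if_neg hx] at h
          exact absurd h.symm y.2.2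
      · simp only [Sum.elim_inl, Sum.elim_inr] at h
        by_cases hy : y = 0
        · rw [if_pos hy] at h
          exact absurd h x.2.1
        · rw [if_neg hy] at h
          exact absurd h x.2.2
      · exact congrArg Sum.inr (Subtype.ext h)
    · intro x
      by_cases h1 : x = a
      · exact ⟨Sum.inl 0, by rw [Sum.elim_inl, if_pos rfl, h1]⟩
      by_cases h2 : x = b
      · exact ⟨Sum.inl 1, by rw [Sum.elim_inl, if_neg (by decide), h2]⟩
      exact ⟨Sum.inr ⟨x, h1, h2⟩, rfl⟩
  have h1 := genD_cons (c := c) (Equiv.ofBijective _ hbij)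
    (ψ := pairF κ Q (c a) (Equiv.refl (Fin 2))) (Or.inl ⟨c a, Equiv.refl _, fun x => by
      change c (if x = 0 then a else b) = c a
      by_cases hx : x = 0
      · rw [if_pos hx]
      · rw [if_neg hx, hc], rfl⟩) (g := g) hg
  convert h1 using 1
  funext J
  simp only [Equiv.ofBijective_apply, Sum.elim_inl, Sum.elim_inr, pairF, Equiv.refl_apply,
    if_true, if_neg (show ¬ (1 : Fin 2) = 0 by decide), smul_eq_mul]
  by_cases hJ : ∀ j, κ (J j) = c j
  · rw [if_pos hJ, if_pos (hJ a)]
  · rw [if_neg hJ]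
    push Not at hJ
    obtain ⟨j, hj⟩ := hJ
    by_cases ha : j = a
    · subst ha
      rw [if_neg hj, zero_mul]
    by_cases hb : j = b
    · subst hb
      by_cases h2 : κ (J a) = c a
      · rw [hQb _ _ (fun h => hj (by rw [← h, h2, hc])), ite_self, zero_mul]
      · rw [if_neg h2, zero_mul]
    · rw [genD_sup hQb hg (fun x => J x.1) (fun h => hj (h ⟨j, ha, hb⟩)), mul_zero]

end Pool.Agent.V1141.SO
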