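import Pool.Agent.V1141.SO.Alt
import Pool.Agent.V1141.SO.Gen

/-!
# The first fundamental theorem for products of special orthogonal and symplectic groups
-/

set_option autoImplicit false
set_option linter.unusedSectionVars false

open Finset Function

namespace Pool.Agent.V1141.SO

open Pool.Agent.TH125.Nod

variable {K : Type} [Field K] {B : Type} [Fintype B] [DecidableEq B] {ι : Type} [DecidableEq ι]
  {κ : B → ι} {Q : Matrix B B K} {s : ι → ℤ}

theorem inv_rho {S : Type} [Fintype S] [DecidableEq S] {t : ι → K} {f : (S → B) → K}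
    (hf : Inv κ Q t f) (σ : Equiv.Perm S) : Inv κ Q t (rho (K := K) σ f) := by
  intro u v huv J
  have h := hf u v huv (fun j => J (σ j))
  rw [← Equiv.sum_comp σ]
  refine Eq.trans (Finset.sum_congr rfl fun j _ => ?_) h
  have h1 : ∀ z, rho (K := K) σ f (update J (σ j) z) = f (update (fun j => J (σ j)) j z) := by
    intro z
    change f (fun j' => update J (σ j) z (σ j')) = _
    congr 1
    funext j'
    by_cases h : j' = j
    · subst h
      rw [update_self, update_self]
    · rw [update_of_ne h, update_of_ne (fun h' => h (σ.injective h'))]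
  rw [h1, h1]

/-- the invariant forms -/
def invS (κ : B → ι) (Q : Matrix B B K) (t : ι → K) (S : Type) [Fintype S] [DecidableEq S] :
    Submodule K ((S → B) → K) where
  carrier := {f | Inv κ Q t f}
  add_mem' := by
    intro f g hf hg u v huv J
    have h1 := hf u v huv J
    have h2 := hg u v huv J
    rw [← add_zero (0 : K)]
    nth_rewrite 1 [← h1]
    rw [← h2, ← Finset.sum_add_distrib]
    refine Finset.sum_congr rfl fun j _ => ?_
    simp only [Pi.add_apply, smul_eq_mul]
    ring
  zero_mem' := by
    intro u v huv J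
    simp
  smul_mem' := by
    intro r f hf u v huv J
    have h1 := hf u v huv J
    rw [← mul_zero r, ← h1, Finset.mul_sum]
    refine Finset.sum_congr rfl fun j _ => ?_
    simp only [Pi.smul_apply, smul_eq_mul]
    ring

theorem alt_case [CharZero K] (hQb : ∀ u v, κ u ≠ κ v → Q u v = 0) {S : Type} [Fintype S]
    [DecidableEq S] {c : S → ι} {i : ι} (hi : s i = 1) {t : ι → K} {w : (S → B) → K}
    (hsup : Sup κ c w) (hinv : Inv κ Q t w)
    (halt : ∀ a b, c a = i → c b = i → a ≠ b → sw (K := K) a b w = -w)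
    (hcard : (univ.filter (c · = i)).card = (univ.filter fun b => κ b = i).card)
    (ih : ∀ g : ({x // ¬ (c x = i)} → B) → K, Sup κ (fun x : {x // ¬ (c x = i)} => c x.1) g →
      Inv κ Q t g → g ∈ GenD κ Q s (fun x : {x // ¬ (c x = i)} => c x.1)) :
    w ∈ GenD κ Q s c := by
  classical
  obtain ⟨n, hn⟩ : ∃ n, n = (univ.filter (c · = i)).card := ⟨_, rfl⟩
  let eA : Fin n ≃ {x // c x = i} := (Fintype.equivFinOfCardEq (by
    rw [Fintype.card_subtype, hn])).symm
  let e0 : Fin n ≃ {b // κ b = i} := (Fintype.equivFinOfCardEq (by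
    rw [Fintype.card_subtype, hn, hcard])).symm
  let p : Fin n ⊕ {x // ¬ (c x = i)} ≃ S := (Equiv.sumCongr eA (Equiv.refl _)).trans
    (Equiv.sumCompl (fun x => c x = i))
  let comb : ({x // ¬ (c x = i)} → B) → S → B := fun J' x =>
    if h : c x = i then (e0 (eA.symm ⟨x, h⟩)).1 else J' ⟨x, h⟩
  have hcomb1 : ∀ J' x, c x = i → κ (comb J' x) = i := by
    intro J' x h
    simp only [comb]
    rw [dif_pos h]
    exact (e0 _).2
  have hcomb2 : ∀ J' x (h : ¬ (c x = i)), comb J' x = J' ⟨x, h⟩ := by
    intro J' x h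
    simp only [comb]
    rw [dif_neg h]
  let g : ({x // ¬ (c x = i)} → B) → K := fun J' => w (comb J')
  have hgs : Sup κ (fun x : {x // ¬ (c x = i)} => c x.1) g := by
    intro J' hJ'
    apply hsup
    intro h
    apply hJ'
    intro x
    have h1 := h x.1
    rw [hcomb2 J' x.1 x.2] at h1
    exact h1
  have hgi : Inv κ Q t g := by
    intro u v huv J'
    by_cases hu : κ u = i
    · refine Finset.sum_eq_zero fun j _ => ?_
      have h1 : ∀ z, κ z = i → g (update J' j z) = 0 := by
        intro z hz
        apply hgs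
        intro h
        have h2 := h j
        rw [update_self, hz] at h2
        exact j.2 h2.symm
      rw [h1 u hu, h1 v (by rw [← huv, hu]), smul_zero, smul_zero, sub_zero]
    · have h := hinv u v huv (comb J')
      rw [← (Equiv.sumCompl (fun x => c x = i)).sum_comp, Fintype.sum_sum_type] at h
      have h1 : ∀ x : {x // c x = i}, Q v (comb J' x.1) = 0 ∧ Q u (comb J' x.1) = 0 := by
        intro x
        have h2 := hcomb1 J' x.1 x.2
        exact ⟨hQb _ _ (by rw [h2, ← huv]; exact hu), hQb _ _ (by rw [h2]; exact hu)⟩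
      rw [Finset.sum_eq_zero (fun x _ => ?_), zero_add] at h
      · rw [← h]
        refine Finset.sum_congr rfl fun j _ => ?_
        have h3 : ∀ z, g (update J' j z) = w (update (comb J') j.1 z) := by
          intro z
          change w (comb (update J' j z)) = _
          congr 1
          funext x
          by_cases hx : x = j.1
          · subst hx
            rw [update_self, hcomb2 _ _ j.2, update_self]
          · rw [update_of_ne hx]
            by_cases hx' : c x = i
            · simp only [comb]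
              rw [dif_pos hx', dif_pos hx']
            · rw [hcomb2 _ _ hx', hcomb2 _ _ hx', update_of_ne]
              intro h4
              exact hx (congrArg Subtype.val h4)
        rw [h3, h3, Equiv.sumCompl_apply_inr, hcomb2 J' j.1 j.2]
      · rw [Equiv.sumCompl_apply_inl, (h1 x).1, (h1 x).2, zero_smul, mul_zero, zero_smul, sub_zero]
  have hg := ih g hgs hgi
  have hmain := genD_cons (c := c) p (ψ := detF κ K i e0)
    (Or.inr ⟨i, e0, hi, fun x => (eA x).2, rfl⟩) (g := g) hg
  convert hmain using 1
  funext J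
  change w J = detF κ K i e0 (fun x => J (eA x).1) * w (comb (fun y => J y.1))
  by_cases hbad : ∃ x : Fin n, κ (J (eA x).1) ≠ i
  · obtain ⟨x, hx⟩ := hbad
    rw [hsup J (fun h => hx ((h _).trans (eA x).2)), basic_sup (s := s) (c := fun _ => i) hQb
      (Or.inr ⟨i, e0, hi, fun _ => rfl, rfl⟩) (x := x) hx, zero_mul]
  push Not at hbad
  by_cases hinj : Injective fun x : Fin n => J (eA x).1
  · let σf : Fin n → Fin n := fun x => e0.symm ⟨J (eA x).1, hbad x⟩
    have hσf : Injective σf := by
      intro x y h
      apply hinj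
      exact congrArg Subtype.val (e0.symm.injective h)
    let σ : Equiv.Perm (Fin n) := Equiv.ofBijective σf (Finite.injective_iff_bijective.1 hσf)
    have hσ : ∀ x, J (eA x).1 = (e0 (σ x)).1 := by
      intro x
      change _ = (e0 (e0.symm ⟨J (eA x).1, hbad x⟩)).1
      rw [Equiv.apply_symm_apply]
    have h1 : detF κ K i e0 (fun x => J (eA x).1) = ((Equiv.Perm.sign σ : ℤ) : K) := by
      have h2 : detF κ K i e0 (fun x => J (eA x).1) = Matrix.det ((σ.toPEquiv).toMatrix) := by
        unfold detF
        congr 1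
        ext x y
        rw [Matrix.of_apply, PEquiv.toMatrix_apply]
        change (if J (eA x).1 = (e0 y).1 then (1 : K) else 0) = _
        rw [hσ]
        have h3 : ((e0 (σ x)).1 = (e0 y).1) ↔ y ∈ (σ.toPEquiv) x := by
          rw [Equiv.toPEquiv_apply, Option.mem_some_iff]
          exact ⟨fun h => e0.injective (Subtype.ext h), fun h => by rw [h]⟩
        by_cases h4 : (e0 (σ x)).1 = (e0 y).1
        · rw [if_pos h4, if_pos (h3.1 h4)]
        · rw [if_neg h4, if_neg (fun h => h4 (h3.2 h))]
      rw [h2, Matrix.det_permutation]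
    have key : ∀ τ : Equiv.Perm {x // c x = i},
        rho (K := K) (Equiv.Perm.ofSubtype τ) w = ((Equiv.Perm.sign τ : ℤ) : K) • w := by
      intro τ
      induction τ using Equiv.Perm.swap_induction_on with
      | one => simp [rho_one]
      | swap_mul τ x y hxy hτ =>
        rw [map_mul, rho_mul, hτ, map_smul, Equiv.Perm.sign_mul, Equiv.Perm.sign_swap hxy,
          Equiv.Perm.ofSubtype_swap_eq]
        have h5 := halt x.1 y.1 x.2 y.2 (fun h => hxy (Subtype.ext h))
        rw [sw] at h5
        rw [h5]
        push_cast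
        module
    have h6 := congrFun (key (eA.permCongr σ)) (comb (fun y => J y.1))
    rw [Pi.smul_apply, Equiv.Perm.sign_permCongr, smul_eq_mul] at h6
    rw [h1, ← h6]
    change w J = w (fun x => comb (fun y => J y.1) (Equiv.Perm.ofSubtype (eA.permCongr σ) x))
    congr 1
    funext x
    by_cases hx : c x = i
    · have h8 : Equiv.Perm.ofSubtype (eA.permCongr σ) x = ((eA.permCongr σ) ⟨x, hx⟩).1 :=
        Equiv.Perm.ofSubtype_apply_of_mem (eA.permCongr σ) hx
      rw [h8]
      have h9 : comb (fun y => J y.1) ((eA.permCongr σ) ⟨x, hx⟩).1 =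
          (e0 (eA.symm ((eA.permCongr σ) ⟨x, hx⟩))).1 := dif_pos ((eA.permCongr σ) ⟨x, hx⟩).2
      have h7 := hσ (eA.symm ⟨x, hx⟩)
      rw [Equiv.apply_symm_apply] at h7
      refine Eq.trans h7 (Eq.trans ?_ h9.symm)
      rw [Equiv.permCongr_apply, Equiv.symm_apply_apply]
    · have h8 : Equiv.Perm.ofSubtype (eA.permCongr σ) x = x :=
        Equiv.Perm.ofSubtype_apply_of_not_mem (eA.permCongr σ) hx
      rw [h8]
      exact (hcomb2 (fun y => J y.1) x hx).symm
  · have hne : ∃ x y, J (eA x).1 = J (eA y).1 ∧ x ≠ y := by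
      unfold Injective at hinj
      push Not at hinj
      exact hinj
    obtain ⟨x, y, hxy, hne⟩ := hne
    have h1 : detF κ K i e0 (fun x => J (eA x).1) = 0 := by
      unfold detF
      refine Matrix.det_zero_of_row_eq hne ?_
      funext z
      rw [Matrix.of_apply, Matrix.of_apply]
      change (if J (eA x).1 = (e0 z).1 then (1 : K) else 0) =
        (if J (eA y).1 = (e0 z).1 then (1 : K) else 0)
      rw [hxy]
    rw [h1, zero_mul]
    have h2 := congrFun (halt (eA x).1 (eA y).1 (eA x).2 (eA y).2
      (fun h => hne (eA.injective (Subtype.ext h)))) J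
    rw [Pi.neg_apply] at h2
    change w (fun j => J (Equiv.swap (eA x).1 (eA y).1 j)) = _ at h2
    have h3 : (fun j => J (Equiv.swap (eA x).1 (eA y).1 j)) = J := by
      funext j
      by_cases e1 : j = (eA x).1
      · rw [e1, Equiv.swap_apply_left, hxy]
      by_cases e2 : j = (eA y).1
      · rw [e2, Equiv.swap_apply_right, hxy]
      rw [Equiv.swap_apply_of_ne_of_ne e1 e2]
    rw [h3] at h2
    exact self_eq_neg.1 h2

/-- the forms which are alternating modulo the generated ones -/
theorem alt_mod [CharZero K] {S : Type} [Fintype S] [DecidableEq S] {c : S → ι} {i : ι}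
    (T U : Submodule K ((S → B) → K))
    (hT : ∀ σ : Equiv.Perm S, (∀ j, c (σ j) = c j) → ∀ f ∈ T, rho (K := K) σ f ∈ T)
    (hU : ∀ σ : Equiv.Perm S, (∀ j, c (σ j) = c j) → ∀ f ∈ U, rho (K := K) σ f ∈ U)
    (hmain : ∀ w ∈ U, Sup κ c w → (∀ a b, c a = i → c b = i → a ≠ b → sw (K := K) a b w = -w) →
      w ∈ T) (w : (S → B) → K) (hwU : w ∈ U) (hw : Sup κ c w)
    (halt : ∀ a b, c a = i → c b = i → a ≠ b → sw (K := K) a b w + w ∈ T) : w ∈ T := by
  classical
  have hcσ : ∀ (τ : Equiv.Perm {x // c x = i}) (j : S), c (Equiv.Perm.ofSubtype τ j) = c j := by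
    intro τ j
    by_cases hj : c j = i
    · have h8 : Equiv.Perm.ofSubtype τ j = (τ ⟨j, hj⟩).1 :=
        Equiv.Perm.ofSubtype_apply_of_mem τ hj
      rw [h8, (τ ⟨j, hj⟩).2, hj]
    · have h8 : Equiv.Perm.ofSubtype τ j = j := Equiv.Perm.ofSubtype_apply_of_not_mem τ hj
      rw [h8]
  have key : ∀ σ : Equiv.Perm {x // c x = i},
      rho (K := K) (Equiv.Perm.ofSubtype σ) w - ((Equiv.Perm.sign σ : ℤ) : K) • w ∈ T := by
    intro σ
    induction σ using Equiv.Perm.swap_induction_on with
    | one => simp [rho_one]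
    | swap_mul τ x y hxy hτ =>
      rw [map_mul, rho_mul, Equiv.Perm.sign_mul, Equiv.Perm.sign_swap hxy,
        Equiv.Perm.ofSubtype_swap_eq]
      have hne : (x : S) ≠ y := fun h => hxy (Subtype.ext h)
      have h1 := hT (Equiv.swap (x : S) y) (fun j => c_swap x.2 y.2 j) _ hτ
      have h2 := halt x y x.2 y.2 hne
      have h3 := T.smul_mem ((Equiv.Perm.sign τ : ℤ) : K) h2
      have h4 := T.add_mem h1 h3
      convert h4 using 1
      simp only [sw, map_sub, map_smul, smul_add]
      push_cast
      module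
  let w' : (S → B) → K := ∑ σ : Equiv.Perm {x // c x = i}, ((Equiv.Perm.sign σ : ℤ) : K) •
    rho (K := K) (Equiv.Perm.ofSubtype σ) w
  have hw' : w' ∈ T := by
    refine hmain w' (U.sum_mem fun σ _ => U.smul_mem _ (hU _ (hcσ σ) w hwU)) ?_ ?_
    · intro J hJ
      change (∑ σ : Equiv.Perm {x // c x = i}, ((Equiv.Perm.sign σ : ℤ) : K) •
        rho (K := K) (Equiv.Perm.ofSubtype σ) w) J = 0
      rw [Finset.sum_apply]
      refine Finset.sum_eq_zero fun σ _ => ?_
      rw [Pi.smul_apply, Sup_rho (K := K) (hcσ σ) hw J hJ, smul_zero]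
    · intro a b ha hb hab
      change rho (K := K) (Equiv.swap a b) (∑ σ : Equiv.Perm {x // c x = i},
        ((Equiv.Perm.sign σ : ℤ) : K) • rho (K := K) (Equiv.Perm.ofSubtype σ) w) =
        -(∑ σ : Equiv.Perm {x // c x = i},
        ((Equiv.Perm.sign σ : ℤ) : K) • rho (K := K) (Equiv.Perm.ofSubtype σ) w)
      rw [map_sum, ← Finset.sum_neg_distrib]
      refine Fintype.sum_equiv (Equiv.mulLeft (Equiv.swap (⟨a, ha⟩ : {x // c x = i}) ⟨b, hb⟩)) _ _
        fun σ => ?_
      change rho (K := K) (Equiv.swap a b) (((Equiv.Perm.sign σ : ℤ) : K) •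
        rho (K := K) (Equiv.Perm.ofSubtype σ) w) =
        -(((Equiv.Perm.sign (Equiv.swap (⟨a, ha⟩ : {x // c x = i}) ⟨b, hb⟩ * σ) : ℤ) : K) •
          rho (K := K) (Equiv.Perm.ofSubtype
            (Equiv.swap (⟨a, ha⟩ : {x // c x = i}) ⟨b, hb⟩ * σ)) w)
      rw [Equiv.Perm.sign_mul, Equiv.Perm.sign_swap (fun h => hab (congrArg Subtype.val h)),
        (Equiv.Perm.ofSubtype).map_mul, rho_mul, Equiv.Perm.ofSubtype_swap_eq, map_smul]
      push_cast
      module
  have hfac : ∑ σ : Equiv.Perm {x // c x = i}, (((Equiv.Perm.sign σ : ℤ) : K) •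
      (rho (K := K) (Equiv.Perm.ofSubtype σ) w - ((Equiv.Perm.sign σ : ℤ) : K) • w)) ∈ T :=
    T.sum_mem fun σ _ => T.smul_mem _ (key σ)
  simp only [smul_sub, Finset.sum_sub_distrib, smul_smul] at hfac
  have hsq : ∀ σ : Equiv.Perm {x // c x = i},
      ((Equiv.Perm.sign σ : ℤ) : K) * ((Equiv.Perm.sign σ : ℤ) : K) = 1 := by
    intro σ
    rcases Int.units_eq_one_or (Equiv.Perm.sign σ) with h | h <;> rw [h] <;> norm_num
  simp only [hsq, one_smul, Finset.sum_const, ← Nat.cast_smul_eq_nsmul K] at hfac
  have h1 := T.sub_mem hw' hfac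
  rw [show w' = ∑ σ : Equiv.Perm {x // c x = i}, ((Equiv.Perm.sign σ : ℤ) : K) •
    rho (K := K) (Equiv.Perm.ofSubtype σ) w from rfl, sub_sub_cancel, Submodule.smul_mem_iff] at h1
  · exact h1
  · rw [Finset.card_univ, Fintype.card_perm]
    exact_mod_cast Nat.factorial_ne_zero _

/-- **The first fundamental theorem in all degrees** for a product of special orthogonal and
symplectic groups. -/
theorem fftD [CharZero K] {R : Matrix B B K} (hs : ∀ i, s i = 1 ∨ s i = -1)
    (hQb : ∀ a b, κ a ≠ κ b → Q a b = 0) (hQs : ∀ a b, Q a b = ((s (κ a) : ℤ) : K) * Q b a)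
    (hQR : Q * R = 1) (N : ℕ) : ∀ (S : Type) [Fintype S] [DecidableEq S] (c : S → ι)
    (f : (S → B) → K), Fintype.card S = N → Sup κ c f → Inv κ Q (fun i => ((s i : ℤ) : K)) f →
    f ∈ GenD κ Q s c := by
  classical
  induction N using Nat.strong_induction_on with
  | _ N ih =>
    intro S _ _ c f hN hsup hinv
    rcases isEmpty_or_nonempty S with hS | ⟨⟨a0⟩⟩
    · exact genD_empty c f
    · set i := c a0 with hi
      have hUσ : ∀ σ : Equiv.Perm S, ∀ f ∈ invS κ Q (fun i => ((s i : ℤ) : K)) S,
          rho (K := K) σ f ∈ invS κ Q (fun i => ((s i : ℤ) : K)) S :=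
        fun σ f hf => by
          have hf' : Inv κ Q (fun i => ((s i : ℤ) : K)) f := hf
          exact inv_rho hf' σ
      refine alt_mem' (K := K) (κ := κ) (c := c) (i := i) (GenD κ Q s c)
        (invS κ Q (fun i => ((s i : ℤ) : K)) S)
        (fun a b ha hb f hf => genD_perm (c_swap ha hb) hf)
        (fun a b ha hb f hf => hUσ _ f hf) (blk κ i).card rfl
        (univ.filter (c · = i)) rfl (s i) (hs i).symm ?_ ((blk κ i).card + 1) {a0} ?_
        ⟨a0, by simp⟩ ?_ f hinv hsup ?_ ?_
      · intro hsi hcard w hwU hwS halt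
        refine alt_mod (c := c) (i := i) (GenD κ Q s c) (invS κ Q (fun i => ((s i : ℤ) : K)) S)
          (fun σ hσ f hf => genD_perm hσ hf) (fun σ _ f hf => hUσ σ f hf) ?_ w hwU hwS ?_
        · intro w' hw'U hw'S halt'
          have hw'I : Inv κ Q (fun i => ((s i : ℤ) : K)) w' := hw'U
          refine alt_case hQb hsi hw'S hw'I halt' hcard fun g hg1 hg2 => ?_
          refine ih (Fintype.card {x // ¬ (c x = i)}) ?_ _ _ g rfl hg1 hg2
          rw [← hN]
          exact Fintype.card_subtype_lt (x := a0) (fun h => h hi.symm)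
        · intro a b ha hb hab
          exact halt a (by simp [ha]) b (by simp [hb]) hab
      · intro x hx
        rw [Finset.mem_singleton] at hx
        rw [hx]
        simp [hi]
      · rw [Finset.card_singleton]
        omega
      · intro a ha
        have hai : c a = i := (Finset.mem_filter.1 ha).2
        have hcon : ∀ b ∈ (univ.filter fun j => c j = i).erase a,
            con κ R i a b f ∈ GenD κ Q s (fun x : {x // x ≠ a ∧ x ≠ b} => c x.1) := by
          intro b hb
          rw [Finset.mem_erase] at hb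
          have hab : a ≠ b := Ne.symm hb.1
          refine ih (Fintype.card {x // x ≠ a ∧ x ≠ b}) ?_ _ _ _ rfl (sup_con hsup R)
            (inv_con hs hQb hQs hQR hinv hab)
          rw [← hN]
          exact Fintype.card_subtype_lt (x := a) (fun h => h.1 rfl)
        have hsum : (s i : K) • ∑ b ∈ (univ.filter fun j => c j = i).erase a,
            (fun J : S → B => if ∀ j, κ (J j) = c j then
              Q (J a) (J b) • con κ R i a b f (fun x => J x.1) else 0) ∈ GenD κ Q s c := by
          refine Submodule.smul_mem _ _ (Submodule.sum_mem _ fun b hb => ?_)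
          have hb' := Finset.mem_erase.1 hb
          exact genD_pair hQb (Ne.symm hb'.1) (hai.trans (Finset.mem_filter.1 hb'.2).2.symm)
            (hcon b hb)
        convert hsum using 1
        funext J
        rw [Pi.add_apply, Pi.smul_apply, Finset.sum_apply, Pi.smul_apply, Finset.sum_apply]
        by_cases hJ : ∀ j, κ (J j) = c j
        · simp only [if_pos hJ]
          exact cas hs hQb hQR hinv hJ hai
        · simp only [if_neg hJ, Finset.sum_const_zero, smul_zero]
          rw [hsup J hJ, smul_zero, zero_add]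
          refine Finset.sum_eq_zero fun b hb => ?_
          rw [Finset.mem_erase, Finset.mem_filter] at hb
          exact Sup_rho (K := K) (c_swap hai hb.2.2) hsup J hJ
      · intro a ha b hb hab
        rw [Finset.mem_singleton] at ha hb
        exact absurd (ha.trans hb.symm) hab

end Pool.Agent.V1141.SO
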