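import Pool.Agent.V1141.SO.Fft

/-!
# The form on tensors; nondegeneracy on the invariants
-/

set_option autoImplicit false
set_option linter.unusedSectionVars false

open Finset Function

namespace Pool.Agent.V1141.SO

open Pool.Agent.TH125.Nod

variable {K : Type} [Field K] {B : Type} [Fintype B] [DecidableEq B] {ι : Type} [DecidableEq ι]
  {κ : B → ι} {Q R : Matrix B B K} {s : ι → ℤ} {r : B → K} {iv : B → B}

/-- the form on functions of coordinates -/
def frm (r : B → K) (iv : B → B) {S : Type} [Fintype S] [DecidableEq S] (F G : (S → B) → K) : K :=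
  ∑ J : S → B, (∏ j, r (J j)) * (F J * G (fun j => iv (J j)))

theorem frm_add {S : Type} [Fintype S] [DecidableEq S] (F G G' : (S → B) → K) :
    frm r iv F (G + G') = frm r iv F G + frm r iv F G' := by
  unfold frm
  rw [← Finset.sum_add_distrib]
  refine Finset.sum_congr rfl fun J _ => ?_
  rw [Pi.add_apply]
  ring

theorem frm_smul {S : Type} [Fintype S] [DecidableEq S] (a : K) (F G : (S → B) → K) :
    frm r iv F (a • G) = a * frm r iv F G := by
  unfold frm
  rw [Finset.mul_sum]
  refine Finset.sum_congr rfl fun J _ => ?_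
  rw [Pi.smul_apply, smul_eq_mul]
  ring

theorem frm_add' {S : Type} [Fintype S] [DecidableEq S] (F F' G : (S → B) → K) :
    frm r iv (F + F') G = frm r iv F G + frm r iv F' G := by
  unfold frm
  rw [← Finset.sum_add_distrib]
  refine Finset.sum_congr rfl fun J _ => ?_
  rw [Pi.add_apply]
  ring

theorem frm_smul' {S : Type} [Fintype S] [DecidableEq S] (a : K) (F G : (S → B) → K) :
    frm r iv (a • F) G = a * frm r iv F G := by
  unfold frm
  rw [Finset.mul_sum]
  refine Finset.sum_congr rfl fun J _ => ?_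
  rw [Pi.smul_apply, smul_eq_mul]
  ring

theorem frm_perm {S : Type} [Fintype S] [DecidableEq S] (σ : Equiv.Perm S) (F G : (S → B) → K) :
    frm r iv (rho (K := K) σ F) G = frm r iv F (rho (K := K) σ⁻¹ G) := by
  unfold frm
  refine Fintype.sum_equiv (Equiv.arrowCongr σ⁻¹ (Equiv.refl B)) _ _ fun J => ?_
  have h1 : (Equiv.arrowCongr σ⁻¹ (Equiv.refl B)) J = fun j => J (σ j) := rfl
  rw [h1]
  have h2 : ∏ j, r (J (σ j)) = ∏ j, r (J j) := Equiv.prod_comp σ (fun j => r (J j))
  rw [h2]
  congr 2
  change G (fun j => iv (J j)) = G (fun j => iv (J (σ (σ.symm j))))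
  simp only [Equiv.apply_symm_apply]

/-- the form of products -/
theorem frm_mul {S X Y : Type} [Fintype S] [DecidableEq S] [Fintype X] [DecidableEq X] [Fintype Y]
    [DecidableEq Y] (p : X ⊕ Y ≃ S) (F G : (X → B) → K) (F' G' : (Y → B) → K) :
    frm r iv (fun J : S → B => F (fun x => J (p (Sum.inl x))) * F' (fun y => J (p (Sum.inr y))))
      (fun J : S → B => G (fun x => J (p (Sum.inl x))) * G' (fun y => J (p (Sum.inr y)))) =
    frm r iv F G * frm r iv F' G' := by
  unfold frm
  rw [Finset.sum_mul_sum, ← Fintype.sum_prod_type']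
  let e : (S → B) ≃ (X → B) × (Y → B) :=
    (Equiv.arrowCongr p.symm (Equiv.refl B)).trans (Equiv.sumArrowEquivProdArrow X Y B)
  refine Fintype.sum_equiv e _ _ fun J => ?_
  have h1 : (e J).1 = fun x => J (p (Sum.inl x)) := rfl
  have h2 : (e J).2 = fun y => J (p (Sum.inr y)) := rfl
  rw [h1, h2, ← Equiv.prod_comp p, Fintype.prod_sum_type]
  ring

/-- splitting the sum over all index functions -/
theorem sum_ext2 {S : Type} [Fintype S] [DecidableEq S] {a b : S} (hab : a ≠ b)
    (h : (S → B) → K) : ∑ J : S → B, h J =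
      ∑ p, ∑ q, ∑ J : {x // x ≠ a ∧ x ≠ b} → B, h (ext2 a b p q J) := by
  classical
  rw [← Fintype.sum_prod_type' (f := fun p q => ∑ J : {x // x ≠ a ∧ x ≠ b} → B,
    h (ext2 a b p q J)), ← Fintype.sum_prod_type' (f := fun (pq : B × B)
      (J : {x // x ≠ a ∧ x ≠ b} → B) => h (ext2 a b pq.1 pq.2 J))]
  symm
  refine Fintype.sum_bijective (fun z : (B × B) × ({x // x ≠ a ∧ x ≠ b} → B) =>
    ext2 a b z.1.1 z.1.2 z.2) ⟨?_, ?_⟩ _ _ fun z => rfl
  · rintro ⟨⟨p, q⟩, J⟩ ⟨⟨p', q'⟩, J'⟩ h
    change ext2 a b p q J = ext2 a b p' q' J' at h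
    have h1 := congrFun h a
    have h2 := congrFun h b
    rw [ext2_a, ext2_a] at h1
    rw [ext2_b hab, ext2_b hab] at h2
    have h3 : J = J' := by
      funext x
      have := congrFun h x.1
      rwa [ext2_val, ext2_val] at this
    rw [h1, h2, h3]
  · intro J
    refine ⟨((J a, J b), fun x => J x.1), ?_⟩
    funext x
    change ext2 a b (J a) (J b) (fun x => J x.1) x = J x
    by_cases h1 : x = a
    · rw [h1, ext2_a]
    by_cases h2 : x = b
    · rw [h2, ext2_b hab]
    exact ext2_val (J a) (J b) (fun x => J x.1) ⟨x, h1, h2⟩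

theorem prod_ext2 {S : Type} [Fintype S] [DecidableEq S] {a b : S} (hab : a ≠ b)
    (p q : B) (J : {x // x ≠ a ∧ x ≠ b} → B) :
    ∏ j, r (ext2 a b p q J j) = r p * r q * ∏ x, r (J x) := by
  rw [← Finset.mul_prod_erase Finset.univ _ (Finset.mem_univ a),
    ← Finset.mul_prod_erase (Finset.univ.erase a) _
      (Finset.mem_erase.2 ⟨Ne.symm hab, Finset.mem_univ b⟩), ext2_a, ext2_b hab, mul_assoc]
  congr 2
  rw [Finset.prod_subtype ((Finset.univ.erase a).erase b) (p := fun x => x ≠ a ∧ x ≠ b)]
  · exact Finset.prod_congr rfl fun x _ => by rw [ext2_val]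
  · intro x
    simp only [Finset.mem_erase, Finset.mem_univ, and_true]
    exact and_comm

/-- multiplication by the pairing is adjoint to the contraction -/
theorem frm_pair {S : Type} [Fintype S] [DecidableEq S] {c : S → ι} {i : ι} {a b : S}
    (hab : a ≠ b) (ha : c a = i) (hb : c b = i)
    (hiv : ∀ x, κ (iv x) = κ x) (hrQ : ∀ p q, r p * r q * Q (iv p) (iv q) =
      ((s (κ p) : ℤ) : K) * R p q) {F : (S → B) → K} (hF : Sup κ c F)
    (g : ({x // x ≠ a ∧ x ≠ b} → B) → K) :
    frm r iv F (fun J : S → B => if ∀ j, κ (J j) = c j then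
      Q (J a) (J b) • g (fun x => J x.1) else 0) =
      ((s i : ℤ) : K) * frm r iv (con κ R i a b F) g := by
  unfold frm
  rw [sum_ext2 hab, Finset.mul_sum]
  have h1 : ∀ p q, ∀ J : {x // x ≠ a ∧ x ≠ b} → B,
      (∏ j, r (ext2 a b p q J j)) * (F (ext2 a b p q J) *
        (if ∀ j, κ (iv (ext2 a b p q J j)) = c j then
          Q (iv (ext2 a b p q J a)) (iv (ext2 a b p q J b)) •
            g (fun x => iv (ext2 a b p q J x.1)) else 0)) =
      (if p ∈ blk κ i then if q ∈ blk κ i then ((s i : ℤ) : K) * ((∏ x, r (J x)) *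
        (R p q * F (ext2 a b p q J) * g (fun x => iv (J x)))) else 0 else 0) := by
    intro p q J
    by_cases hF0 : ∀ j, κ (ext2 a b p q J j) = c j
    · have hp : κ p = i := by
        have := hF0 a
        rwa [ext2_a, ha] at this
      have hq : κ q = i := by
        have := hF0 b
        rwa [ext2_b hab, hb] at this
      rw [if_pos (mem_blk.2 hp), if_pos (mem_blk.2 hq), if_pos (fun j => (hiv _).trans (hF0 j)),
        prod_ext2 hab, ext2_a, ext2_b hab]
      have h2 : (fun x : {x // x ≠ a ∧ x ≠ b} => iv (ext2 a b p q J x.1)) =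
          fun x => iv (J x) := funext fun x => by rw [ext2_val]
      rw [h2, smul_eq_mul]
      have h3 := hrQ p q
      rw [hp] at h3
      linear_combination (∏ x, r (J x)) * F (ext2 a b p q J) * g (fun x => iv (J x)) * h3
    · rw [hF _ hF0]
      simp only [zero_mul, mul_zero, ite_self]
  rw [Finset.sum_congr rfl fun p _ => Finset.sum_congr rfl fun q _ =>
    Finset.sum_congr rfl fun J _ => h1 p q J]
  have h4 : ∀ J : {x // x ≠ a ∧ x ≠ b} → B, ((s i : ℤ) : K) * ((∏ x, r (J x)) *
      (con κ R i a b F J * g (fun x => iv (J x)))) =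
      ∑ p, ∑ q, (if p ∈ blk κ i then if q ∈ blk κ i then ((s i : ℤ) : K) * ((∏ x, r (J x)) *
        (R p q * F (ext2 a b p q J) * g (fun x => iv (J x)))) else 0 else 0) := by
    intro J
    unfold con
    rw [Finset.sum_mul, Finset.mul_sum, Finset.mul_sum, ← Finset.sum_filter_add_sum_filter_not
      Finset.univ (fun p => p ∈ blk κ i) (fun p => ∑ q, (if p ∈ blk κ i then if q ∈ blk κ i then
        ((s i : ℤ) : K) * ((∏ x, r (J x)) *
        (R p q * F (ext2 a b p q J) * g (fun x => iv (J x)))) else 0 else 0))]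
    rw [Finset.sum_eq_zero (s := Finset.univ.filter fun p => ¬ p ∈ blk κ i), add_zero]
    · have h5 : Finset.univ.filter (fun p => p ∈ blk κ i) = blk κ i := by
        ext x
        simp
      rw [h5]
      refine Finset.sum_congr rfl fun p hp => ?_
      simp only [if_pos hp]
      rw [← Finset.sum_filter, h5, Finset.sum_mul, Finset.mul_sum, Finset.mul_sum]
      refine Finset.sum_congr rfl fun q _ => ?_
      rw [smul_eq_mul]
    · intro p hp
      refine Finset.sum_eq_zero fun q _ => ?_
      rw [if_neg (Finset.mem_filter.1 hp).2]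
  rw [Finset.sum_congr rfl fun J _ => h4 J]
  rw [Finset.sum_comm' (s := (Finset.univ : Finset ({x // x ≠ a ∧ x ≠ b} → B)))
    (t := fun _ => (Finset.univ : Finset B)) (t' := (Finset.univ : Finset B))
    (s' := fun _ => (Finset.univ : Finset ({x // x ≠ a ∧ x ≠ b} → B))) (by simp)]
  refine Finset.sum_congr rfl fun p _ => ?_
  exact Finset.sum_comm

end Pool.Agent.V1141.SO
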