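import Pool.Agent.V1141.SO.DMain

/-!
# Tate classes and motivic classes
-/

set_option autoImplicit false

namespace Pool.Agent.V1141.SO

open Module Pool.Agent.V1141.WT Pool.Agent.V1141.OF

variable {k : Type} [Field k] {Γ G : Type} [Group Γ] [Group G]

/-- All Tate classes in the tensor powers of the dual of `Y`, with any twist, are motivic: the
multilinear forms on `Y` which a subgroup of finite index of `Γ` multiplies by `χ ^ c` are multiplied by
`χ ^ c` by a subgroup of finite index of `G`. -/
def TateAreMotivic {Y : Type} [AddCommGroup Y] [Module k Y] (ι : Γ →* G) (χ : G →* k)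
    (act : G → Y → Y) : Prop :=
  ∀ (N : ℕ) (c : ℤ) (f : MultilinearMap k (fun _ : Fin N => Y) k),
    IsTate (fun g : Γ => act (ι g)) (χ.comp ι) c f → IsTate act χ c f

/-- The restriction of a representation with a form from `G` to `Γ`. -/
abbrev FormPiece.restrict {χ : G →* k} (ι : Γ →* G) (P : FormPiece k χ) :
    FormPiece k (χ.comp ι) where
  V := P.V
  ρ := P.ρ.comp ι
  ω := P.ω
  w := P.w
  sgn := P.sgn
  sgn_eq := P.sgn_eq
  sym := P.sym
  nondeg := P.nondeg
  twisted g u v := P.twisted (ι g) u v

variable {χ : G →* k} {I : Type}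

/-- The restrictions to `Γ` of all pieces. -/
abbrev restrictAll (ι : Γ →* G) (P : I → FormPiece k χ) : I → FormPiece k (χ.comp ι) :=
  fun i => (P i).restrict ι

/-- The action of `G` on the sum of the `V i` and of `Y`. -/
def actY {Y : Type} [AddCommGroup Y] [Module k Y] (P : I → FormPiece k χ)
    (σ : Representation k G Y) : G → Sum P × Y → Sum P × Y :=
  fun g x => (act P g x.1, move σ g x.2)

/-- The eigenvalues of `γ` on the `V i` satisfy only the trivial relations with each other, with
`χ γ` and with the eigenvalues `b l` of `γ` on `Y`. -/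
def NoRelationsWithEigenvalues {Y : Type} [AddCommGroup Y] [Module k Y] (ι : Γ →* G)
    (P : I → FormPiece k χ) (σ : Representation k G Y) (γ : Γ) : Prop :=
  ∀ (n : ℕ) (b : Fin n → k) (c : ℤ), (∀ l, Module.End.HasEigenvalue (σ (ι γ)) (b l)) →
    NoRelationsWith (fun i => ((P i).restrict ι).ρ) (χ.comp ι) (fun i => (P i).w) γ
      ((∏ l, b l)⁻¹ * χ (ι γ) ^ c)

end Pool.Agent.V1141.SO
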