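import Mathlib

/-!
# The eigenvalues on multilinear forms
-/

set_option autoImplicit false

namespace Pool.Agent.V1141.SO

open Module

/-- an eigenvalue of a bijective linear map on the target of a linear map gives an eigenvalue -/
theorem eig_curry {k : Type} [Field k] [IsAlgClosed k] {Y W : Type} [AddCommGroup Y] [Module k Y]
    [FiniteDimensional k Y] [AddCommGroup W] [Module k W] (T : Module.End k Y)
    (hT : Function.Surjective T) (S : Module.End k W) (F : Y →ₗ[k] W) (hF : F ≠ 0) {β : k}
    (h : ∀ y, S (F (T y)) = β • F y) (hβ : β ≠ 0) :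
    ∃ (a μ : k) (y : Y), T.HasEigenvalue a ∧ β = a * μ ∧ F y ≠ 0 ∧ S (F y) = μ • F y := by
  have hbij : Function.Injective T := LinearMap.injective_iff_surjective.2 hT
  -- `S` preserves the image of `F`
  let U : Submodule k W := LinearMap.range F
  have hU : ∀ u ∈ U, S u ∈ U := by
    rintro _ ⟨y, rfl⟩
    obtain ⟨z, rfl⟩ := hT y
    rw [h]
    exact U.smul_mem _ ⟨z, rfl⟩
  have : Nontrivial U := by
    by_contra hn
    rw [not_nontrivial_iff_subsingleton] at hn
    apply hF
    refine LinearMap.ext fun y => ?_
    have := hn.elim ⟨F y, y, rfl⟩ ⟨0, U.zero_mem⟩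
    exact congrArg Subtype.val this
  have hfin : FiniteDimensional k U := inferInstance
  obtain ⟨μ, hμ⟩ := Module.End.exists_eigenvalue (S.restrict hU)
  obtain ⟨⟨_, y, rfl⟩, hv1, hv2⟩ := hμ.exists_hasEigenvector
  rw [Module.End.mem_eigenspace_iff] at hv1
  have h1 : S (F y) = μ • F y := congrArg Subtype.val hv1
  have h2 : F y ≠ 0 := fun h0 => hv2 (Subtype.ext h0)
  -- `μ ≠ 0`
  have hSinj : ∀ u ∈ U, S u = 0 → u = 0 := by
    rintro _ ⟨z, rfl⟩ hz
    obtain ⟨x, rfl⟩ := hT z
    rw [h] at hz
    -- `F x = 0` for this `x`; use the dimension of the kernel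
    have h3 : F x = 0 := (smul_eq_zero.1 hz).resolve_left hβ
    -- the kernel of `F` is stable under `T⁻¹`
    have h4 : ∀ x, F (T x) = 0 → F x = 0 := by
      intro x hx
      have := h x
      rw [hx, map_zero] at this
      exact (smul_eq_zero.1 this.symm).resolve_left hβ
    have h5 : (LinearMap.ker F).comap T ≤ LinearMap.ker F := fun x hx => h4 x hx
    have h6 : finrank k ((LinearMap.ker F).comap T) = finrank k (LinearMap.ker F) := by
      let e : Y ≃ₗ[k] Y := LinearEquiv.ofBijective T ⟨hbij, hT⟩
      have : (LinearMap.ker F).comap T = (LinearMap.ker F).map (e.symm : Y →ₗ[k] Y) := by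
        ext x
        rw [Submodule.mem_comap, Submodule.mem_map]
        constructor
        · intro hx
          exact ⟨T x, hx, e.symm_apply_apply x⟩
        · rintro ⟨z, hz, rfl⟩
          have : T (e.symm z) = z := e.apply_symm_apply z
          change F (T (e.symm z)) = 0
          rw [this]
          exact hz
      rw [this]
      exact LinearEquiv.finrank_map_eq e.symm _
    have h7 := Submodule.eq_of_le_of_finrank_eq h5 h6
    have h8 : x ∈ (LinearMap.ker F).comap T := by
      rw [h7]
      exact h3
    exact h8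
  have hμ0 : μ ≠ 0 := by
    intro h0
    apply h2
    apply hSinj _ ⟨y, rfl⟩
    rw [h1, h0, zero_smul]
  refine ⟨β / μ, μ, y, ?_, (div_mul_cancel₀ β hμ0).symm, h2, h1⟩
  -- `T - β / μ` is not surjective
  by_contra hne
  have h3 : Function.Injective (T - algebraMap k (Module.End k Y) (β / μ)) := by
    rw [injective_iff_map_eq_zero]
    intro v hv
    by_contra hv0
    apply hne
    refine Module.End.hasEigenvalue_of_hasEigenvector (x := v) ⟨?_, hv0⟩
    rw [Module.End.mem_eigenspace_iff]
    rw [LinearMap.sub_apply, Module.algebraMap_end_apply, sub_eq_zero] at hv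
    exact hv
  -- the annihilator of the image of `F` modulo the eigenspaces: use the quotient `Y / ker F`
  have h4 : Function.Surjective (T - algebraMap k (Module.End k Y) (β / μ)) :=
    LinearMap.surjective_of_injective h3
  -- `S - μ` on the image of `F` is surjective, hence injective
  have h5 : ∀ u : U, ∃ u' : U, (S.restrict hU - algebraMap k (Module.End k U) μ) u' = u := by
    rintro ⟨_, z, rfl⟩
    -- `(S - μ) F (T x) = β F x - μ F (T x) = - μ F ((T - β / μ) x)`
    obtain ⟨x, hx⟩ := h4 (-(μ⁻¹ • z))
    refine ⟨⟨F (T x), T x, rfl⟩, Subtype.ext ?_⟩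
    rw [LinearMap.sub_apply, Module.algebraMap_end_apply]
    change S (F (T x)) - μ • F (T x) = F z
    rw [h]
    rw [LinearMap.sub_apply, Module.algebraMap_end_apply, sub_eq_iff_eq_add] at hx
    rw [hx, map_add, map_neg, map_smul, map_smul, smul_add, smul_neg, smul_smul,
      mul_inv_cancel₀ hμ0, one_smul, smul_smul, mul_div_cancel₀ _ hμ0]
    abel
  have h6 : Function.Injective (S.restrict hU - algebraMap k (Module.End k U) μ) :=
    LinearMap.injective_iff_surjective.2 h5
  apply h2
  have h7 : (⟨F y, y, rfl⟩ : U) = 0 := by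
    apply h6
    rw [map_zero, LinearMap.sub_apply, Module.algebraMap_end_apply]
    refine Subtype.ext ?_
    change S (F y) - μ • F y = 0
    rw [h1, sub_self]
  exact congrArg Subtype.val h7

/-- the eigenvalues on multilinear forms are products of eigenvalues -/
theorem eig_forms {k : Type} [Field k] [IsAlgClosed k] {Y : Type} [AddCommGroup Y] [Module k Y]
    [FiniteDimensional k Y] (T : Module.End k Y) (hT : Function.Surjective T) :
    ∀ (n : ℕ) (F : MultilinearMap k (fun _ : Fin n => Y) k) (β : k), F ≠ 0 → β ≠ 0 →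
      (∀ y, F (fun l => T (y l)) = β * F y) →
      ∃ b : Fin n → k, (∀ l, T.HasEigenvalue (b l)) ∧ β = ∏ l, b l
  | 0, F, β, hF, _, h => by
    refine ⟨fun l => l.elim0, fun l => l.elim0, ?_⟩
    rw [Finset.univ_eq_empty, Finset.prod_empty]
    have h1 : F (fun l => l.elim0) ≠ 0 := by
      intro h0
      apply hF
      refine MultilinearMap.ext fun y => ?_
      rw [show y = fun l => l.elim0 from funext fun l => l.elim0, h0]
      rfl
    have h2 := h (fun l => l.elim0)
    rw [show (fun l : Fin 0 => T ((fun l : Fin 0 => (l.elim0 : Y)) l)) = fun l => l.elim0 from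
      funext fun l => l.elim0] at h2
    have h3 : (β - 1) * F (fun l => l.elim0) = 0 := by
      rw [sub_mul, one_mul, ← h2, sub_self]
    exact sub_eq_zero.1 ((mul_eq_zero.1 h3).resolve_right h1)
  | n + 1, F, β, hF, hβ, h => by
    let C : Y →ₗ[k] MultilinearMap k (fun _ : Fin n => Y) k := F.curryLeft
    let S : Module.End k (MultilinearMap k (fun _ : Fin n => Y) k) :=
      { toFun := fun u => u.compLinearMap fun _ => T
        map_add' := fun _ _ => rfl
        map_smul' := fun _ _ => rfl }
    have hC : C ≠ 0 := by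
      intro h0
      apply hF
      refine MultilinearMap.ext fun y => ?_
      have h1 := DFunLike.congr_fun (DFunLike.congr_fun h0 (y 0)) (Fin.tail y)
      have h2 : C (y 0) (Fin.tail y) = F y := by
        change F (Fin.cons (y 0) (Fin.tail y)) = F y
        rw [Fin.cons_self_tail]
      rw [← h2, h1]
      rfl
    have hS : ∀ y, S (C (T y)) = β • C y := by
      intro y
      refine MultilinearMap.ext fun z => ?_
      change F (Fin.cons (T y) (fun l => T (z l))) = β * F (Fin.cons y z)
      rw [← h]
      congr 1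
      funext l
      refine Fin.cases ?_ (fun l => ?_) l
      · rw [Fin.cons_zero, Fin.cons_zero]
      · rw [Fin.cons_succ, Fin.cons_succ]
    obtain ⟨a, μ, y, ha, hβ', hy, hμ⟩ := eig_curry T hT S C hC hS hβ
    have hμ0 : μ ≠ 0 := fun h0 => hβ (by rw [hβ', h0, mul_zero])
    obtain ⟨b, hb1, hb2⟩ := eig_forms T hT n (C y) μ hy hμ0 (fun z => DFunLike.congr_fun hμ z)
    refine ⟨Fin.cons a b, fun l => ?_, ?_⟩
    · refine Fin.cases ?_ (fun l => ?_) l
      · rw [Fin.cons_zero]
        exact ha
      · rw [Fin.cons_succ]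
        exact hb1 l
    · rw [Fin.prod_univ_succ, Fin.cons_zero, hβ', hb2]
      simp only [Fin.cons_succ]

end Pool.Agent.V1141.SO
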