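import Pool.Agent.V1141.SO.GMain

/-!
# Tate classes and motivic classes: the equivalence with endomorphisms
-/

set_option autoImplicit false
set_option linter.unusedSectionVars false

namespace Pool.Agent.V1141.SO

open Module Pool.Agent.V1141.WT Pool.Agent.V1141.OF Pool.Agent.H204R3.SP Pool.Agent.H204R3.GP

noncomputable section

variable {k : Type} [Field k] [CharZero k] {Γ G : Type} [Group Γ] [Group G] {χ : G →* k} {I : Type}
  [Fintype I] [DecidableEq I] (ι : Γ →* G) (P : I → FormPiece k χ)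

/-- the projections -/
def prP (Y : Type) [AddCommGroup Y] [Module k Y] (i : I) : (Sum P × Y) →ₗ[k] (P i).V :=
  LinearMap.proj i ∘ₗ LinearMap.fst k _ _

theorem scalars_of_tate {Y : Type} [AddCommGroup Y] [Module k Y] (σ : Representation k G Y)
    (hG : ∀ i, OnlyScalarEndos (P i).ρ) (h : TateAreMotivic ι χ (actY P σ)) (i : I) :
    OnlyScalarEndos ((P i).restrict ι).ρ := by
  rintro Q ⟨Δ, hΔ, hQ⟩
  have hQ' : ∀ g ∈ Δ, ∀ v : (P i).V, Q ((P i).ρ (ι g) v) = (P i).ρ (ι g) (Q v) := hQ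
  let Q' : Module.End k (P i).V := Q
  let f : MultilinearMap k (fun _ : Fin 2 => Sum P × Y) k :=
    bil2 (((P i).ω ∘ₗ Q').compl₁₂ (prP P Y i) (prP P Y i))
  have hf : ∀ x, f x = (P i).ω (Q' ((x 0).1 i)) ((x 1).1 i) := fun x => rfl
  have htw : ∀ g u v, (P i).ω ((P i).ρ g u) ((P i).ρ g v) = χ g ^ (P i).w * (P i).ω u v :=
    (P i).twisted
  have h1 : IsTate (fun g : Γ => actY P σ (ι g)) (χ.comp ι) ((P i).w : ℤ) f := by
    refine ⟨Δ, hΔ, fun g hg x => ?_⟩
    rw [hf, hf, zpow_natCast]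
    change (P i).ω (Q ((P i).ρ (ι g) ((x 0).1 i))) ((P i).ρ (ι g) ((x 1).1 i)) =
      χ (ι g) ^ (P i).w * _
    rw [hQ' g hg, htw]
  obtain ⟨Δ', hΔ', h2⟩ := h 2 ((P i).w : ℤ) f h1
  refine hG i Q' ⟨Δ', hΔ', fun g hg v => ?_⟩
  rw [← sub_eq_zero]
  refine nondeg' P i _ fun v' => ?_
  have h4 := h2 g hg ![(Pi.single i v, 0), (Pi.single i ((P i).ρ g⁻¹ v'), 0)]
  rw [hf, hf, zpow_natCast] at h4
  have e1 : (![((Pi.single i v : Sum P), (0 : Y)),
      (Pi.single i ((P i).ρ g⁻¹ v'), 0)] 0).1 i = v := by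
    change (Pi.single i v : Sum P) i = v
    simp
  have e2 : (![((Pi.single i v : Sum P), (0 : Y)),
      (Pi.single i ((P i).ρ g⁻¹ v'), 0)] 1).1 i = (P i).ρ g⁻¹ v' := by
    change (Pi.single i ((P i).ρ g⁻¹ v') : Sum P) i = (P i).ρ g⁻¹ v'
    simp
  have e3 : (P i).ω (Q' ((P i).ρ g ((![((Pi.single i v : Sum P), (0 : Y)),
      (Pi.single i ((P i).ρ g⁻¹ v'), 0)] 0).1 i))) ((P i).ρ g ((![((Pi.single i v : Sum P),
      (0 : Y)), (Pi.single i ((P i).ρ g⁻¹ v'), 0)] 1).1 i)) =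
      χ g ^ (P i).w * (P i).ω (Q' ((![((Pi.single i v : Sum P), (0 : Y)),
      (Pi.single i ((P i).ρ g⁻¹ v'), 0)] 0).1 i)) ((![((Pi.single i v : Sum P), (0 : Y)),
      (Pi.single i ((P i).ρ g⁻¹ v'), 0)] 1).1 i) := h4
  rw [e1, e2, ← htw] at e3
  have e4 : (P i).ρ g ((P i).ρ g⁻¹ v') = v' := by
    rw [← Module.End.mul_apply, ← map_mul, mul_inv_cancel, map_one, Module.End.one_apply]
  rw [e4] at e3
  rw [map_sub, LinearMap.sub_apply, e3, sub_self]

/-- **The equivalence.** -/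
theorem giff [IsAlgClosed k] {Y : Type} [AddCommGroup Y] [Module k Y]
    [FiniteDimensional k Y] (σ : Representation k G Y)
    (hG : ∀ i, OnlyScalarEndos (P i).ρ) (γ : Γ)
    (hsimple : SimpleEigenvalues (restrictAll ι P) γ)
    (hrel : NoRelationsWithEigenvalues ι P σ γ) :
    TateAreMotivic ι χ (actY P σ) ↔
      TateAreMotivic ι χ (fun g y => move σ g y) ∧
        ∀ i, OnlyScalarEndos ((P i).restrict ι).ρ := by
  constructor
  · intro h
    have hE := scalars_of_tate ι P σ hG h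
    exact ⟨(gmain ι P σ hE γ hsimple hrel).1 h, hE⟩
  · rintro ⟨h, hE⟩
    exact (gmain ι P σ hE γ hsimple hrel).2 h

end

end Pool.Agent.V1141.SO
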