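import Pool.Agent.V1141.SO.GDefs
import Pool.Agent.V1141.SO.GEig
import Pool.Agent.V1141.SO.CMain

/-!
# Tate classes and motivic classes: the main theorem
-/

set_option autoImplicit false
set_option linter.unusedSectionVars false

namespace Pool.Agent.V1141.SO

open Module Pool.Agent.V1141.WT Pool.Agent.V1141.OF

noncomputable section

section add

variable {k H Γ : Type} [Field k] [AddCommGroup H] [Module k H] [Group Γ]

/-- the Tate forms with a given twist are a subspace -/
def tateSub (act : Γ → H → H) (χ : Γ →* k) (N : ℕ) (c : ℤ) :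
    Submodule k (MultilinearMap k (fun _ : Fin N => H) k) where
  carrier := {f | IsTate act χ c f}
  zero_mem' := ⟨⊤, inferInstance, fun g _ x => by
    rw [zero_apply, zero_apply, mul_zero]⟩
  add_mem' := by
    rintro f f' ⟨Δ, hΔ, h⟩ ⟨Δ', hΔ', h'⟩
    refine ⟨Δ ⊓ Δ', inferInstance, fun g hg x => ?_⟩
    rw [add_apply, add_apply, h g hg.1, h' g hg.2, mul_add]
  smul_mem' := by
    rintro a f ⟨Δ, hΔ, h⟩
    refine ⟨Δ, hΔ, fun g hg x => ?_⟩
    rw [smul_apply, smul_apply, h g hg, smul_eq_mul, smul_eq_mul]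
    ring

end add

section family

variable {k : Type} [Field k] [CharZero k] {Γ G : Type} [Group Γ] [Group G] {χ : G →* k} {I : Type}
  [Fintype I] [DecidableEq I] (ι : Γ →* G) (P : I → FormPiece k χ)

theorem iota_chi (g : Γ) : (χ.comp ι) g = χ (ι g) := rfl

/-- the relations -/
theorem noRelations_forms [IsAlgClosed k] {Y : Type} [AddCommGroup Y] [Module k Y]
    [FiniteDimensional k Y] (σ : Representation k G Y) (γ : Γ)
    (hrel : NoRelationsWithEigenvalues ι P σ γ) (n : ℕ) :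
    NoRelationsUpToTwist (restrictAll ι P) (homRep (σ.comp ι) (1 : Representation k Γ k) n) γ := by
  intro β c hβ
  obtain ⟨F, hF⟩ := hβ.exists_hasEigenvector
  have h1 : homRep (σ.comp ι) (1 : Representation k Γ k) n γ F = β • F := hF.apply_eq_smul
  have h2 : ∀ y, β * F (fun l => σ (ι γ) (y l)) = F y := by
    intro y
    have h3 := DFunLike.congr_fun h1 (fun l => σ (ι γ) (y l))
    rw [homRep_apply] at h3
    have h4 : (fun l => (σ.comp ι) γ⁻¹ (σ (ι γ) (y l))) = y := by
      funext l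
      change (σ.comp ι) γ⁻¹ ((σ.comp ι) γ (y l)) = y l
      rw [← Module.End.mul_apply, ← map_mul, inv_mul_cancel, map_one, Module.End.one_apply]
    rw [h4] at h3
    exact h3.symm
  have hβ0 : β ≠ 0 := by
    intro h0
    apply hF.2
    refine MultilinearMap.ext fun y => ?_
    rw [← h2 y, h0, zero_mul]
    rfl
  have hT : Function.Surjective (σ (ι γ)) := by
    intro y
    refine ⟨σ (ι γ)⁻¹ y, ?_⟩
    rw [← Module.End.mul_apply, ← map_mul, mul_inv_cancel, map_one, Module.End.one_apply]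
  obtain ⟨b, hb1, hb2⟩ := eig_forms (σ (ι γ)) hT n F β⁻¹ hF.2 (inv_ne_zero hβ0) (fun y => by
    rw [← h2 y, inv_mul_cancel_left₀ hβ0])
  have h5 := hrel n b c hb1
  rw [← hb2, inv_inv] at h5
  exact h5

/-- the parts of a Tate form are Tate classes -/
theorem split_tateY {Y : Type} [AddCommGroup Y] [Module k Y] (σ : Representation k G Y)
    {N n₁ n₂ : ℕ} (e : Fin n₁ ⊕ Fin n₂ ≃ Fin N) {c : ℤ}
    {f : MultilinearMap k (fun _ : Fin N => Sum P × Y) k}
    (hf : IsTate (fun g : Γ => actY P σ (ι g)) (χ.comp ι) c f) :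
    IsTateClass (act (restrictAll ι P))
      (twistRep (χ.comp ι) (homRep (σ.comp ι) (1 : Representation k Γ k) n₂) c) (split e f) := by
  obtain ⟨Δ, hΔ, h⟩ := hf
  refine ⟨Δ, hΔ, fun g hg x => MultilinearMap.ext fun y => ?_⟩
  change split e f (fun i => act P (ι g) (x i)) y =
    χ (ι g) ^ c * split e f x (fun l => (σ.comp ι) g⁻¹ (y l))
  rw [split_apply, split_apply]
  have h1 := h g hg (fun l => Sum.elim (fun i => ((x i, 0) : Sum P × Y))
    (fun i => (0, (σ.comp ι) g⁻¹ (y i))) (e.symm l))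
  rw [iota_chi] at h1
  rw [← h1]
  congr 1
  funext l
  rcases e.symm l with i | i
  · exact Prod.ext rfl (map_zero _).symm
  · refine Prod.ext ?_ ?_
    · funext i'
      exact (map_zero _).symm
    · change y i = σ (ι g) ((σ.comp ι) g⁻¹ (y i))
      change y i = (σ.comp ι) g ((σ.comp ι) g⁻¹ (y i))
      rw [← Module.End.mul_apply, ← map_mul, mul_inv_cancel, map_one, Module.End.one_apply]

/-- products of pairings and discriminants are Tate forms for `G` -/
theorem forms_tate {N : ℕ} {ψ : MultilinearMap k (fun _ : Fin N => Sum P) k}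
    (h : IsProductOfForms P ψ) : ∃ c : ℤ, IsTate (act P) χ c ψ := by
  obtain ⟨B, _, m, q, ψb, hb1, hb2⟩ := h
  have hb : ∀ b, ∃ cb : ℤ, IsTate (act P) χ cb (ψb b) := by
    intro b
    rcases hb1 b with ⟨i, ε, hh⟩ | ⟨i, hi, hm, D, hh⟩
    · refine ⟨((P i).w : ℤ), ?_⟩
      have : ψb b = pairM (V := fun i => (P i).V) i (P i).ω ε := MultilinearMap.ext hh
      rw [this]
      exact pair_tate P i ε
    · refine ⟨(((P i).w / 2 * m b : ℕ) : ℤ), ?_⟩
      have : ψb b = detM (V := fun i => (P i).V) i D := MultilinearMap.ext hh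
      rw [this]
      exact disc_tate P i hi hm D
  choose cb hb' using hb
  exact ⟨∑ b, cb b, prod_tate P q cb ψb hb' ψ hb2⟩

theorem chi_comp_ne (g : G) : χ g ≠ 0 := OF.chi_ne χ g

/-- the product of a product of forms and of a Tate class is motivic -/
theorem product_motivic {Y : Type} [AddCommGroup Y] [Module k Y] (σ : Representation k G Y)
    (hY : TateAreMotivic ι χ (fun g y => move σ g y))
    {N n₁ n₂ : ℕ} (e : Fin n₁ ⊕ Fin n₂ ≃ Fin N) {c : ℤ}
    {F : MultilinearMap k (fun _ : Fin n₁ => Sum P) (MultilinearMap k (fun _ : Fin n₂ => Y) k)}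
    (hF : IsProductTimes (restrictAll ι P)
      (twistRep (χ.comp ι) (homRep (σ.comp ι) (1 : Representation k Γ k) n₂) c) F) :
    IsTate (actY P σ) χ c (merge e F) := by
  obtain ⟨ψ, u, c₁, h1, h2, h3, h4⟩ := hF
  by_cases hψ : ψ = 0
  · have h0 : merge e F = 0 := by
      refine MultilinearMap.ext fun x => ?_
      rw [merge_apply, h4, hψ]
      change ((0 : k) • u) _ = 0
      rw [zero_smul]
      rfl
    rw [h0]
    exact (tateSub (actY P σ) χ N c).zero_mem
  obtain ⟨c₀, Δ₀, hΔ₀, h5⟩ := forms_tate P h1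
  obtain ⟨Δ₁, hΔ₁, h6⟩ := h2
  obtain ⟨Δ₂, hΔ₂, h7⟩ := h3
  -- the exponents agree
  obtain ⟨x₀, hx₀⟩ : ∃ x, ψ x ≠ 0 := by
    by_contra hn
    push Not at hn
    exact hψ (MultilinearMap.ext hn)
  have hexp : ∀ g ∈ Δ₁ ⊓ Δ₀.comap ι, χ (ι g) ^ c₀ = χ (ι g) ^ c₁ := by
    intro g hg
    have e1 := h5 (ι g) hg.2 x₀
    have e2 := h6 g hg.1 x₀
    have e3 : χ (ι g) ^ c₀ * ψ x₀ = χ (ι g) ^ c₁ * ψ x₀ := e1.symm.trans e2
    exact mul_right_cancel₀ hx₀ e3
  have hfin : (Δ₀.comap ι).FiniteIndex := by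
    refine ⟨?_⟩
    rw [Subgroup.index_comap]
    exact Subgroup.FiniteIndex.index_ne_zero
  have hu : IsTate (fun g : Γ => move σ (ι g)) (χ.comp ι) (c - c₀) u := by
    refine ⟨Δ₂ ⊓ (Δ₁ ⊓ Δ₀.comap ι), inferInstance, fun g hg y => ?_⟩
    have e1 := DFunLike.congr_fun (h7 g hg.1) (fun l => σ (ι g) (y l))
    have e2 : χ (ι g) ^ c * u (fun l => (σ.comp ι) g⁻¹ ((σ.comp ι) g (y l))) =
        χ (ι g) ^ c₁ * u (fun l => σ (ι g) (y l)) := e1
    have e3 : (fun l => (σ.comp ι) g⁻¹ ((σ.comp ι) g (y l))) = y := by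
      funext l
      rw [← Module.End.mul_apply, ← map_mul, inv_mul_cancel, map_one, Module.End.one_apply]
    rw [e3, ← hexp g hg.2] at e2
    change u (fun l => σ (ι g) (y l)) = χ (ι g) ^ (c - c₀) * u y
    rw [zpow_sub₀ (chi_comp_ne _), div_mul_eq_mul_div, e2,
      mul_div_cancel_left₀ _ (zpow_ne_zero _ (chi_comp_ne _))]
  obtain ⟨Δ₃, hΔ₃, h8⟩ := hY n₂ (c - c₀) u hu
  refine ⟨Δ₀ ⊓ Δ₃, inferInstance, fun g hg x => ?_⟩
  rw [merge_apply, merge_apply, h4, h4, smul_apply, smul_apply]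
  have e1 := h5 g hg.1 (fun i => (x (e (Sum.inl i))).1)
  have e2 := h8 g hg.2 (fun i => (x (e (Sum.inr i))).2)
  change ψ (fun i => act P g (x (e (Sum.inl i))).1) •
    u (fun i => move σ g (x (e (Sum.inr i))).2) = _
  rw [e1, e2, smul_eq_mul, smul_eq_mul, zpow_sub₀ (chi_comp_ne g)]
  field_simp [zpow_ne_zero c₀ (chi_comp_ne (χ := χ) g)]

theorem gmain [IsAlgClosed k] {Y : Type} [AddCommGroup Y] [Module k Y]
    [FiniteDimensional k Y] (σ : Representation k G Y)
    (hEnd : ∀ i, OnlyScalarEndos ((P i).restrict ι).ρ) (γ : Γ)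
    (hsimple : SimpleEigenvalues (restrictAll ι P) γ)
    (hrel : NoRelationsWithEigenvalues ι P σ γ) :
    TateAreMotivic ι χ (actY P σ) ↔ TateAreMotivic ι χ (fun g y => move σ g y) := by
  classical
  constructor
  · intro h N c f hf
    -- pull back to the sum
    let F : MultilinearMap k (fun _ : Fin N => Sum P × Y) k :=
      f.compLinearMap (fun _ => LinearMap.snd k (Sum P) Y)
    have hF : IsTate (fun g : Γ => actY P σ (ι g)) (χ.comp ι) c F := by
      obtain ⟨Δ, hΔ, h1⟩ := hf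
      exact ⟨Δ, hΔ, fun g hg x => h1 g hg fun i => (x i).2⟩
    obtain ⟨Δ, hΔ, h1⟩ := h N c F hF
    exact ⟨Δ, hΔ, fun g hg y => h1 g hg fun i => (0, y i)⟩
  · intro hY N c f hf
    rw [eq_sum_merge f]
    refine (tateSub (actY P σ) χ N c).sum_mem fun s _ => ?_
    have hF := split_tateY ι P σ (finSumEquivOfFinset (s := s) rfl rfl) hf
    have h1 := main (restrictAll ι P) _ hEnd γ hsimple
      (noRelations_twist (restrictAll ι P) (noRelations_forms ι P σ γ hrel sᶜ.card) c) _ hF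
    have h2 : (Submodule.span k {h | IsProductTimes (restrictAll ι P)
        (twistRep (χ.comp ι) (homRep (σ.comp ι) (1 : Representation k Γ k) sᶜ.card) c) h}) ≤
        (tateSub (actY P σ) χ N c).comap (mergeL (finSumEquivOfFinset (s := s) rfl rfl)) := by
      rw [Submodule.span_le]
      intro F hF'
      exact product_motivic ι P σ hY (finSumEquivOfFinset (s := s) rfl rfl) hF'
    exact h2 h1

end family

end

end Pool.Agent.V1141.SO
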