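import Pool.Agent.V1141.SO.Main
import Pool.Agent.V1141.OF.Orth6

/-!
# Tate classes, pairings and discriminants: the characterization
-/

set_option autoImplicit false
set_option linter.unusedSectionVars false

namespace Pool.Agent.V1141.SO

open Module Pool.Agent.V1141.WT Pool.Agent.V1141.OF

noncomputable section

variable {k : Type} [Field k] [CharZero k] {Γ : Type} [Group Γ] {χ : Γ →* k} {I : Type}
  [Fintype I] (P : I → FormPiece k χ)

theorem tate_of_span {M : Type} [AddCommGroup M] [Module k M] (τ : Representation k Γ M) {N : ℕ}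
    {f : MultilinearMap k (fun _ : Fin N => Sum P) M}
    (hf : f ∈ Submodule.span k {h | IsProductTimes P τ h}) : IsTateClass (act P) τ f := by
  induction hf using Submodule.span_induction with
  | mem x hx =>
    obtain ⟨ψ, u, c, -, ⟨Δ, hΔ, h1⟩, ⟨Δ', hΔ', h2⟩, h3⟩ := hx
    refine ⟨Δ ⊓ Δ', inferInstance, fun g hg x => ?_⟩
    rw [h3, h3, h1 g hg.1]
    unfold move at h2 ⊢
    rw [map_smul, h2 g hg.2, smul_smul, mul_comm]
  | zero => exact ⟨⊤, inferInstance, fun g _ x => (map_zero (τ g)).symm⟩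
  | add x y _ _ hx hy =>
    obtain ⟨Δ, hΔ, h1⟩ := hx
    obtain ⟨Δ', hΔ', h2⟩ := hy
    refine ⟨Δ ⊓ Δ', inferInstance, fun g hg z => ?_⟩
    rw [MultilinearMap.add_apply, MultilinearMap.add_apply, h1 g hg.1, h2 g hg.2]
    exact (map_add (τ g) _ _).symm
  | smul a x _ hx =>
    obtain ⟨Δ, hΔ, h1⟩ := hx
    refine ⟨Δ, hΔ, fun g hg z => ?_⟩
    rw [MultilinearMap.smul_apply, MultilinearMap.smul_apply, h1 g hg]
    exact (map_smul (τ g) _ _).symm

/-- A criterion for `NoRelations`. -/
theorem noRelations_of {M : Type} [AddCommGroup M] [Module k M] (τ : Representation k Γ M) (γ : Γ)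
    (h : ∀ β, Module.End.HasEigenvalue (τ γ) β →
      NoRelationsWith (fun i => (P i).ρ) χ (fun i => (P i).w) γ β ∨
      ((∀ r : ℕ, NoRelationsWith (fun i => (P i).ρ) χ (fun i => (P i).w) γ (χ γ ^ r)) ∧
        ConjugatedWith (fun i => (P i).ρ) χ (fun i => (P i).w) γ β)) : NoRelations P τ γ :=
  fun β hβ => (h β hβ).elim id fun h => noRelations_of_conj (fun i => (P i).ρ) χ
    (fun i => (P i).w) (fun i => (P i).ω) (fun i => (P i).nondeg) (fun i => (P i).twisted) h.1 h.2

end

end Pool.Agent.V1141.SO
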