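import Pool.Agent.V1141.SO.GDefs
import Pool.Agent.V1141.WT.G1

/-!
# Tate classes and motivic classes: pairs of dual representations
-/

set_option autoImplicit false

namespace Pool.Agent.V1141.SO

open Module Pool.Agent.V1141.WT Pool.Agent.V1141.OF

variable {k : Type} [Field k] {Γ G : Type} [Group Γ] [Group G] {χ : G →* k} {J : Type}

/-- The action of `G` on the sum of the `V j`, the `V' j` and of `Y`. -/
def actRY {Y : Type} [AddCommGroup Y] [Module k Y] (R : J → Piece k χ)
    (σ : Representation k G Y) : G → Total R × Y → Total R × Y :=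
  fun g x => (action R g x.1, move σ g x.2)

/-- The relations between the eigenvalues `α j i` of `γ` on the `V j`, eigenvalues `b l` of `γ` on `Y`
and `χ γ` have constant exponents on each `V j`, which are zero if `j ∉ T`. -/
def OnlyConstantRelationsWith [Fintype J] {Y : Type} [AddCommGroup Y] [Module k Y] (ι : Γ →* G)
    (R : J → Piece k χ) (σ : Representation k G Y) (γ : Γ) (T : Set J)
    (α : ∀ j, Fin (dm R j) → k) : Prop :=
  ∀ (n : ℕ) (b : Fin n → k), (∀ l, Module.End.HasEigenvalue (σ (ι γ)) (b l)) →
    OnlyConstantRelations T (χ (ι γ)) (∏ l, b l)⁻¹ α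

end Pool.Agent.V1141.SO
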