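import Pool.Agent.V1141.SO.LMain

/-!
# Tate classes and motivic classes: endomorphisms
-/

set_option autoImplicit false
set_option linter.unusedSectionVars false

namespace Pool.Agent.V1141.SO

open Module Pool.Agent.V1141.WT Pool.Agent.V1141.OF Pool.Agent.H204R3.SP Pool.Agent.H204R3.GP

noncomputable section

variable {k : Type} [Field k] [CharZero k] {Γ G : Type} [Group Γ] [Group G] {χ : G →* k}
  {J : Type} [Fintype J] (ι : Γ →* G) (R : J → Piece k χ)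

/-- the projections -/
def pr1 (Y : Type) [AddCommGroup Y] [Module k Y] (j : J) : (Total R × Y) →ₗ[k] (R j).V :=
  LinearMap.fst k _ _ ∘ₗ LinearMap.proj j ∘ₗ LinearMap.fst k _ _

/-- the projections -/
def pr2 (Y : Type) [AddCommGroup Y] [Module k Y] (j : J) : (Total R × Y) →ₗ[k] (R j).V' :=
  LinearMap.snd k _ _ ∘ₗ LinearMap.proj j ∘ₗ LinearMap.fst k _ _

theorem endos_of_tate {Y : Type} [AddCommGroup Y] [Module k Y] (σ : Representation k G Y)
    (h : TateAreMotivic ι χ (actRY R σ)) (j : J) : EndosAreMotivic ι (R j).ρ := by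
  rintro P ⟨Δ, hΔ, hP⟩
  let f : MultilinearMap k (fun _ : Fin 2 => Total R × Y) k :=
    bil2 (((R j).B ∘ₗ P).compl₁₂ (pr1 R Y j) (pr2 R Y j))
  have hf : ∀ x, f x = (R j).B (P (((x 0).1 j).1)) (((x 1).1 j).2) := fun x => rfl
  have htw : ∀ g v v', (R j).B ((R j).ρ g v) ((R j).ρ' g v') = χ g ^ (R j).w * (R j).B v v' :=
    (R j).pairing.2
  have h1 : IsTate (fun g : Γ => actRY R σ (ι g)) (χ.comp ι) (R j).w f := by
    refine ⟨Δ, hΔ, fun g hg x => ?_⟩
    rw [hf, hf]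
    change (R j).B (P ((R j).ρ (ι g) ((x 0).1 j).1)) ((R j).ρ' (ι g) ((x 1).1 j).2) =
      χ (ι g) ^ (R j).w * _
    rw [hP g hg, htw]
  classical
  obtain ⟨Δ', hΔ', h2⟩ := h 2 (R j).w f h1
  refine ⟨Δ', hΔ', fun g hg v => ?_⟩
  refine dual_sep (k := k) fun φ => ?_
  obtain ⟨v', hv'⟩ := (R j).pairing.1.2 φ
  have h3 : ∀ x, φ x = (R j).B x v' := fun x => by rw [← hv']; rfl
  have h4 := h2 g hg ![(Pi.single j (v, 0), 0), (Pi.single j (0, (R j).ρ' g⁻¹ v'), 0)]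
  rw [hf, hf] at h4
  have e1 : ((![((Pi.single j (v, 0) : Total R), (0 : Y)),
      (Pi.single j (0, (R j).ρ' g⁻¹ v'), 0)] 0).1 j) = (v, 0) := by
    change (Pi.single j (v, 0) : Total R) j = (v, 0)
    simp
  have e2 : ((![((Pi.single j (v, 0) : Total R), (0 : Y)),
      (Pi.single j (0, (R j).ρ' g⁻¹ v'), 0)] 1).1 j) = (0, (R j).ρ' g⁻¹ v') := by
    change (Pi.single j (0, (R j).ρ' g⁻¹ v') : Total R) j = (0, (R j).ρ' g⁻¹ v')
    simp
  have h5 : (R j).B (P ((R j).ρ g v)) v' = χ g ^ (R j).w * (R j).B (P v) ((R j).ρ' g⁻¹ v') := by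
    have e3 : (R j).B (P ((R j).ρ g ((![((Pi.single j (v, 0) : Total R), (0 : Y)),
      (Pi.single j (0, (R j).ρ' g⁻¹ v'), 0)] 0).1 j).1)) ((R j).ρ' g ((![((Pi.single j (v, 0) :
      Total R), (0 : Y)), (Pi.single j (0, (R j).ρ' g⁻¹ v'), 0)] 1).1 j).2) =
      χ g ^ (R j).w * (R j).B (P ((![((Pi.single j (v, 0) : Total R), (0 : Y)),
      (Pi.single j (0, (R j).ρ' g⁻¹ v'), 0)] 0).1 j).1) ((![((Pi.single j (v, 0) :
      Total R), (0 : Y)), (Pi.single j (0, (R j).ρ' g⁻¹ v'), 0)] 1).1 j).2 := h4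
    rw [e1, e2] at e3
    rw [← e3, mul_inv_rep]
  rw [h3, h3, h5, ← htw, mul_inv_rep]

/-- **The equivalence.** -/
theorem liff [IsAlgClosed k] (T : Set J) (e : J → ℤ) (hT : WeilClassesAreTate R T e)
    {Y : Type} [AddCommGroup Y] [Module k Y]
    [FiniteDimensional k Y] (σ : Representation k G Y) (γ : Γ) (α : ∀ j, Fin (dm R j) → k)
    (hα : AreEigenvalues R (ι γ) α) (hrel : OnlyConstantRelationsWith ι R σ γ T α) :
    TateAreMotivic ι χ (actRY R σ) ↔
      TateAreMotivic ι χ (fun g y => move σ g y) ∧ ∀ j, EndosAreMotivic ι (R j).ρ := by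
  constructor
  · intro h
    have hE := endos_of_tate ι R σ h
    exact ⟨(lmain ι R T e hT hE σ γ α hα hrel).1 h, hE⟩
  · rintro ⟨h, hE⟩
    exact (lmain ι R T e hT hE σ γ α hα hrel).2 h

end

end Pool.Agent.V1141.SO
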