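import Pool.Agent.V1141.SO.LDefs
import Pool.Agent.V1141.SO.GMain
import Pool.Agent.V1141.WT.G2

/-!
# Tate classes and motivic classes: pairs of dual representations, the main theorem
-/

set_option autoImplicit false
set_option linter.unusedSectionVars false

namespace Pool.Agent.V1141.SO

open Module Pool.Agent.V1141.WT Pool.Agent.V1141.OF

noncomputable section

variable {k : Type} [Field k] [CharZero k] {Γ G : Type} [Group Γ] [Group G] {χ : G →* k}
  {J : Type} [Fintype J] (ι : Γ →* G) (R : J → Piece k χ)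

theorem eigen_forms [IsAlgClosed k] {Y : Type} [AddCommGroup Y] [Module k Y]
    [FiniteDimensional k Y] (σ : Representation k G Y) (γ : Γ) {n : ℕ} {β : k}
    (hβ : Module.End.HasEigenvalue (homRep (σ.comp ι) (1 : Representation k Γ k) n γ) β) :
    ∃ b : Fin n → k, (∀ l, Module.End.HasEigenvalue (σ (ι γ)) (b l)) ∧ (∏ l, b l)⁻¹ = β := by
  obtain ⟨F, hF⟩ := hβ.exists_hasEigenvector
  have h1 : homRep (σ.comp ι) (1 : Representation k Γ k) n γ F = β • F := hF.apply_eq_smul
  have h2 : ∀ y, β * F (fun l => σ (ι γ) (y l)) = F y := by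
    intro y
    have h3 := DFunLike.congr_fun h1 (fun l => σ (ι γ) (y l))
    rw [homRep_apply] at h3
    have h4 : (fun l => (σ.comp ι) γ⁻¹ (σ (ι γ) (y l))) = y := by
      funext l
      change (σ.comp ι) γ⁻¹ ((σ.comp ι) γ (y l)) = y l
      rw [← Module.End.mul_apply, ← map_mul, inv_mul_cancel, map_one, Module.End.one_apply]
    rw [h4] at h3
    exact h3.symm
  have hβ0 : β ≠ 0 := by
    intro h0
    apply hF.2
    refine MultilinearMap.ext fun y => ?_
    rw [← h2 y, h0, zero_mul]
    rfl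
  have hT : Function.Surjective (σ (ι γ)) := by
    intro y
    refine ⟨σ (ι γ)⁻¹ y, ?_⟩
    rw [← Module.End.mul_apply, ← map_mul, mul_inv_cancel, map_one, Module.End.one_apply]
  obtain ⟨b, hb1, hb2⟩ := eig_forms (σ (ι γ)) hT n F β⁻¹ hF.2 (inv_ne_zero hβ0) (fun y => by
    rw [← h2 y, inv_mul_cancel_left₀ hβ0])
  exact ⟨b, hb1, by rw [← hb2, inv_inv]⟩

/-- the parts of a Tate form are Tate classes -/
theorem split_tateR {Y : Type} [AddCommGroup Y] [Module k Y] (σ : Representation k G Y)
    {N n₁ n₂ : ℕ} (e : Fin n₁ ⊕ Fin n₂ ≃ Fin N) {c : ℤ}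
    {f : MultilinearMap k (fun _ : Fin N => Total R × Y) k}
    (hf : IsTate (fun g : Γ => actRY R σ (ι g)) (χ.comp ι) c f) :
    IsTateMap (sumRep (resR ι fun j => (R j).ρ) (resR ι fun j => (R j).ρ'))
      (twistRep (χ.comp ι) (homRep (σ.comp ι) (1 : Representation k Γ k) n₂) c)
      (split e f) := by
  obtain ⟨Δ, hΔ, h⟩ := hf
  refine ⟨Δ, hΔ, fun g hg x => MultilinearMap.ext fun y => ?_⟩
  change split e f (fun i => action R (ι g) (x i)) y =
    χ (ι g) ^ c * split e f x (fun l => (σ.comp ι) g⁻¹ (y l))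
  rw [split_apply, split_apply]
  have h1 := h g hg (fun l => Sum.elim (fun i => ((x i, 0) : Total R × Y))
    (fun i => (0, (σ.comp ι) g⁻¹ (y i))) (e.symm l))
  rw [iota_chi] at h1
  rw [← h1]
  congr 1
  funext l
  rcases e.symm l with i | i
  · exact Prod.ext rfl (map_zero _).symm
  · refine Prod.ext ?_ ?_
    · funext j
      exact Prod.ext (map_zero _).symm (map_zero _).symm
    · change y i = (σ.comp ι) g ((σ.comp ι) g⁻¹ (y i))
      rw [← Module.End.mul_apply, ← map_mul, mul_inv_cancel, map_one, Module.End.one_apply]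

/-- the product of a form and of a Tate class is motivic -/
theorem product_motivicR {Y : Type} [AddCommGroup Y] [Module k Y] (σ : Representation k G Y)
    (hY : TateAreMotivic ι χ (fun g y => move σ g y))
    {N n₁ n₂ : ℕ} (e : Fin n₁ ⊕ Fin n₂ ≃ Fin N) {c : ℤ}
    {F : MultilinearMap k (fun _ : Fin n₁ => Total R) (MultilinearMap k (fun _ : Fin n₂ => Y) k)}
    (hF : IsMixedProduct ι (sumRep (fun j => (R j).ρ) fun j => (R j).ρ')
      (twistRep (χ.comp ι) (homRep (σ.comp ι) (1 : Representation k Γ k) n₂) c) χ F) :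
    IsTate (actRY R σ) χ c (merge e F) := by
  obtain ⟨ψ, u, c₁, ⟨Δ₀, hΔ₀, h5⟩, ⟨Δ₂, hΔ₂, h7⟩, h4⟩ := hF
  have hu : IsTate (fun g : Γ => move σ (ι g)) (χ.comp ι) (c - c₁) u := by
    refine ⟨Δ₂, hΔ₂, fun g hg y => ?_⟩
    have e1 := DFunLike.congr_fun (h7 g hg) (fun l => σ (ι g) (y l))
    have e2 : χ (ι g) ^ c * u (fun l => (σ.comp ι) g⁻¹ ((σ.comp ι) g (y l))) =
        χ (ι g) ^ c₁ * u (fun l => σ (ι g) (y l)) := e1
    have e3 : (fun l => (σ.comp ι) g⁻¹ ((σ.comp ι) g (y l))) = y := by
      funext l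
      rw [← Module.End.mul_apply, ← map_mul, inv_mul_cancel, map_one, Module.End.one_apply]
    rw [e3] at e2
    change u (fun l => σ (ι g) (y l)) = χ (ι g) ^ (c - c₁) * u y
    rw [zpow_sub₀ (chi_comp_ne _), div_mul_eq_mul_div, e2,
      mul_div_cancel_left₀ _ (zpow_ne_zero _ (chi_comp_ne _))]
  obtain ⟨Δ₃, hΔ₃, h8⟩ := hY n₂ (c - c₁) u hu
  refine ⟨Δ₀ ⊓ Δ₃, inferInstance, fun g hg x => ?_⟩
  rw [merge_apply, merge_apply, h4, h4, smul_apply, smul_apply]
  have e1 := h5 g hg.1 (fun i => (x (e (Sum.inl i))).1)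
  have e2 := h8 g hg.2 (fun i => (x (e (Sum.inr i))).2)
  change ψ (fun i => sumRep (fun j => (R j).ρ) (fun j => (R j).ρ') g (x (e (Sum.inl i))).1) •
    u (fun i => move σ g (x (e (Sum.inr i))).2) = _
  rw [e1, e2, smul_eq_mul, smul_eq_mul, zpow_sub₀ (chi_comp_ne g)]
  field_simp [zpow_ne_zero c₁ (chi_comp_ne (χ := χ) g)]

theorem lmain [IsAlgClosed k] (T : Set J) (e : J → ℤ) (hT : WeilClassesAreTate R T e)
    (hE : ∀ j, EndosAreMotivic ι (R j).ρ) {Y : Type} [AddCommGroup Y] [Module k Y]
    [FiniteDimensional k Y] (σ : Representation k G Y) (γ : Γ) (α : ∀ j, Fin (dm R j) → k)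
    (hα : AreEigenvalues R (ι γ) α) (hrel : OnlyConstantRelationsWith ι R σ γ T α) :
    TateAreMotivic ι χ (actRY R σ) ↔ TateAreMotivic ι χ (fun g y => move σ g y) := by
  classical
  constructor
  · intro h N c f hf
    let F : MultilinearMap k (fun _ : Fin N => Total R × Y) k :=
      f.compLinearMap (fun _ => LinearMap.snd k (Total R) Y)
    have hF : IsTate (fun g : Γ => actRY R σ (ι g)) (χ.comp ι) c F := by
      obtain ⟨Δ, hΔ, h1⟩ := hf
      exact ⟨Δ, hΔ, fun g hg x => h1 g hg fun i => (x i).2⟩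
    obtain ⟨Δ, hΔ, h1⟩ := h N c F hF
    exact ⟨Δ, hΔ, fun g hg y => h1 g hg fun i => (0, y i)⟩
  · intro hY N c f hf
    obtain ⟨Δ₀, hΔ₀, hdet⟩ := hT
    have hone : OnlyConstantRelations T (χ (ι γ)) 1 α := by
      have h1 := hrel 0 (fun l => l.elim0) (fun l => l.elim0)
      rwa [Finset.univ_eq_empty, Finset.prod_empty, inv_one] at h1
    have h0 : ∀ j i, α j i ≠ 0 := by
      intro j i h
      have h1 : Module.End.HasEigenvalue ((R j).ρ (ι γ)) 0 := by
        rw [Module.End.hasEigenvalue_iff_isRoot_charpoly, hα j, Polynomial.IsRoot,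
          Polynomial.eval_prod]
        refine Finset.prod_eq_zero (Finset.mem_univ i) ?_
        simp [h]
      obtain ⟨v, hv⟩ := h1.exists_hasEigenvector
      apply hv.2
      have h2 : (R j).ρ (ι γ)⁻¹ ((R j).ρ (ι γ) v) = v := by
        rw [← Module.End.mul_apply, ← map_mul, inv_mul_cancel, map_one, Module.End.one_apply]
      rw [← h2, hv.apply_eq_smul, zero_smul, map_zero]
    have hinj : ∀ j, Function.Injective (α j) := by
      intro j i i' hii
      by_contra hne
      let m : ∀ j, Fin (dm R j) → ℤ := Pi.single j (Pi.single i 1 - Pi.single i' 1)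
      have h1 : ∏ j', ∏ x, α j' x ^ m j' x = 1 ^ 1 * χ (ι γ) ^ (0 : ℤ) := by
        rw [zpow_zero, one_pow, mul_one, Finset.prod_eq_single j]
        · have h2 : ∀ x, α j x ^ m j x =
              α j x ^ ((Pi.single i 1 : Fin (dm R j) → ℤ) x) /
                α j x ^ ((Pi.single i' 1 : Fin (dm R j) → ℤ) x) := by
            intro x
            simp only [m]
            rw [Pi.single_eq_same, Pi.sub_apply, zpow_sub₀ (h0 j x)]
          have h3 : ∀ i : Fin (dm R j),
              ∏ x, α j x ^ ((Pi.single i 1 : Fin (dm R j) → ℤ) x) = α j i := by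
            intro i
            rw [Finset.prod_eq_single i]
            · rw [Pi.single_eq_same, zpow_one]
            · intro x _ hx
              rw [Pi.single_eq_of_ne hx, zpow_zero]
            · intro h
              exact absurd (Finset.mem_univ _) h
          rw [Finset.prod_congr rfl fun x _ => h2 x, Finset.prod_div_distrib, h3, h3, hii,
            div_self (h0 j i')]
        · intro j' _ hj'
          refine Finset.prod_eq_one fun x _ => ?_
          simp only [m]
          rw [Pi.single_eq_of_ne hj', Pi.zero_apply, zpow_zero]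
        · intro h
          exact absurd (Finset.mem_univ _) h
      obtain ⟨d, h4, -⟩ := hone m 0 1 one_pos h1
      have h5 := (h4 j i).trans (h4 j i').symm
      simp only [m] at h5
      rw [Pi.single_eq_same, Pi.sub_apply, Pi.sub_apply, Pi.single_eq_same, Pi.single_eq_same,
        Pi.single_eq_of_ne hne, Pi.single_eq_of_ne (Ne.symm hne)] at h5
      norm_num at h5
    have hr : ∀ j, 0 < dm R j := fun j => Module.finrank_pos
    have hrat : ∀ m : (Σ j, Fin (dm R j)) → ℤ,
        (∀ j, ∑ i : Σ j, Fin (dm R j), (if i.1 = j then m i else 0) = 0) →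
          ∏ i : Σ j, Fin (dm R j), α i.1 i.2 ^ m i = 1 → m = 0 := by
      intro m hm hprod
      obtain ⟨d, h1, -⟩ := hone (fun j i => m ⟨j, i⟩) 0 1 one_pos (by
        rw [zpow_zero, one_pow, mul_one, ← hprod, Fintype.prod_sigma])
      have h2 : ∀ j, d j = 0 := by
        intro j
        have h3 := hm j
        rw [sum_block, Finset.sum_congr rfl fun p _ => h1 j p, Finset.sum_const, Finset.card_univ,
          Fintype.card_fin, nsmul_eq_mul] at h3
        rcases mul_eq_zero.1 h3 with h4 | h4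
        · exact absurd (by exact_mod_cast h4) (hr j).ne'
        · exact h4
      funext i
      obtain ⟨j, p⟩ := i
      exact (h1 j p).trans (h2 j)
    choose b hb using fun j => exists_eigen ((R j).ρ (ι γ)) (hinj j) (hα j)
    have hfin' : ∀ j, FiniteDimensional k (R j).V' := fun j =>
      (LinearEquiv.ofBijective (R j).B.flip (R j).pairing.1).symm.finiteDimensional
    rw [eq_sum_merge f]
    refine (tateSub (actRY R σ) χ N c).sum_mem fun s _ => ?_
    have hF := split_tateR ι R σ (finSumEquivOfFinset (s := s) rfl rfl) hf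
    have h1 := splitG ι (fun j => (R j).ρ) (fun j => (R j).ρ') hE (fun j => (R j).B)
      (fun j => (R j).pairing.1) (fun j => (R j).pairing.2) b hΔ₀
      (fun g hg j hj => hdet j hj g hg) hb h0 hr hrat
      (twistRep (χ.comp ι) (homRep (σ.comp ι) (1 : Representation k Γ k) sᶜ.card) c)
      (fun m c' n β hn hβ h => by
        obtain ⟨b', hb1, hb2⟩ := eigen_forms ι σ γ (eigen_twist _ c hβ)
        refine hrel _ b' hb1 m (c * n + c') n hn ?_
        rw [h, hb2, mul_pow, ← zpow_natCast (((χ.comp ι) γ) ^ (-c)) n, ← zpow_mul]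
        change β ^ n * χ (ι γ) ^ c' = β ^ n * χ (ι γ) ^ (-c * (n : ℤ)) * χ (ι γ) ^ (c * n + c')
        rw [mul_assoc, ← zpow_add₀ (chi_comp_ne _)]
        congr 2
        ring) hF
    have h2 : (Submodule.span k {h | IsMixedProduct ι
        (sumRep (fun j => (R j).ρ) fun j => (R j).ρ')
        (twistRep (χ.comp ι) (homRep (σ.comp ι) (1 : Representation k Γ k) sᶜ.card) c) χ h}) ≤
        (tateSub (actRY R σ) χ N c).comap (mergeL (finSumEquivOfFinset (s := s) rfl rfl)) := by
      rw [Submodule.span_le]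
      intro F hF'
      exact product_motivicR ι R σ hY (finSumEquivOfFinset (s := s) rfl rfl) hF'
    exact h2 h1

end

end Pool.Agent.V1141.SO
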