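import Pool.Agent.V1141.OF.Orth5

/-!
# The infinitesimal operators which kill all Tate forms

This is the first half of the proof of `Pool.Agent.V1141.OF.orth_main`.
-/

set_option autoImplicit false
set_option linter.unusedSectionVars false

namespace Pool.Agent.V1141.SO

open Module Pool.Agent.H204R3.CM Pool.Agent.H204R3.SP Pool.Agent.H204R3.GP Pool.Agent.V1141.OF
open Pool.Agent.Y137.MV (IsEqv kills_zero kills_add kills_smul kills_conj eqv_pull dd_kills)

noncomputable section

theorem tt_mem {k : Type} [Field k] [CharZero k] [IsAlgClosed k] {I : Type} [Fintype I]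
    [DecidableEq I] {V : I → Type} [∀ i, AddCommGroup (V i)] [∀ i, Module k (V i)]
    [∀ i, FiniteDimensional k (V i)] {M : Type} [AddCommGroup M] [Module k M]
    [FiniteDimensional k M] {Γ : Type} [Group Γ] (ρ : ∀ i, Representation k Γ (V i))
    (τ : Representation k Γ M) (χ : Γ →* k) (w : I → ℕ) (sgn : I → ℤ)
    (hsgn : ∀ i, sgn i = 1 ∨ sgn i = -1)
    (ω : ∀ i, V i →ₗ[k] V i →ₗ[k] k) (hsym : ∀ i u v, ω i u v = (sgn i : k) * ω i v u)
    (hnd : ∀ i, ∀ u, (∀ v, ω i v u = 0) → u = 0)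
    (hω : ∀ i s u v, ω i (ρ i s u) (ρ i s v) = χ s ^ w i * ω i u v)
    (hEnd : ∀ i, OnlyScalarEndos (ρ i))
    (γ : Γ) (hsep : ∀ i, (ρ i γ).charpoly.Separable)
    (hself : ∀ i a a', Module.End.HasEigenvalue (ρ i γ) a → Module.End.HasEigenvalue (ρ i γ) a' →
      a ^ 2 = χ γ ^ w i → a' ^ 2 = χ γ ^ w i → a = a')
    (hrel : ∀ β, Module.End.HasEigenvalue (τ γ) β → NoRelationsWith ρ χ w γ β) :
    ∃ (d : I → ℕ) (b : ∀ i, Basis (Fin (d i)) k (V i)) (inv : ∀ i, Fin (d i) → Fin (d i))
      (J : ∀ i, Fin (d i) → k), (∀ i a, J i a ≠ 0) ∧ (∀ i a, inv i (inv i a) = a) ∧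
      (∀ i x y, ω i (b i x) (b i y) = if y = inv i x then J i x else 0) ∧
      ∀ i a c, TT (ω i) (sgn i : k) (b i a) (b i c) ∈ lieO ρ τ ω i := by
  classical
  choose d α b hα hb hev using fun i => exists_eigenbasis_sep (ρ i γ) (hsep i)
  have hα0 : ∀ i j, α i j ≠ 0 := by
    intro i j h
    have h1 : ρ i γ⁻¹ (ρ i γ (b i j)) = b i j := by
      rw [← Module.End.mul_apply, ← map_mul, inv_mul_cancel, map_one, Module.End.one_apply]
    rw [hb, h, zero_smul, map_zero] at h1
    exact (b i).ne_zero j h1.symm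
  have hs : ∀ i, (sgn i : k) = 1 ∨ (sgn i : k) = -1 := by
    intro i
    rcases hsgn i with h | h
    · left
      rw [h, Int.cast_one]
    · right
      rw [h, Int.cast_neg, Int.cast_one]
  have hs0 : ∀ i, (sgn i : k) ≠ 0 := by
    intro i
    rcases hs i with h | h <;> rw [h] <;> norm_num
  have hnd' : ∀ i, ∀ u, (∀ v, ω i u v = 0) → u = 0 := by
    intro i u hu
    apply hnd i
    intro v
    rw [hsym, hu, mul_zero]
  choose inv hinv hmul hzero hnz using fun i => exists_inv (b i) (hb i) (hα i) (hα0 i) (ω i)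
    (hs0 i) (hsym i) (hnd' i) (hω i γ)
  let J : ∀ i, Fin (d i) → k := fun i j => ω i (b i j) (b i (inv i j))
  have hωb : ∀ i x y, ω i (b i x) (b i y) = if y = inv i x then J i x else 0 := by
    intro i x y
    by_cases h : y = inv i x
    · rw [if_pos h, h]
    · rw [if_neg h, hzero i x y h]
  have hselfi : ∀ i, ∀ a a', inv i a = a → inv i a' = a' → a = a' := by
    intro i a a' ha ha'
    refine hα i (hself i _ _ ((hev i _).2 ⟨a, rfl⟩) ((hev i _).2 ⟨a', rfl⟩) ?_ ?_)
    · have h1 := hmul i a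
      rw [ha] at h1
      rw [sq, h1]
    · have h1 := hmul i a'
      rw [ha'] at h1
      rw [sq, h1]
  have hbalM : ∀ (κ : Type) [Fintype κ] [DecidableEq κ]
      (φ : MultilinearMap k (fun _ : κ => ∀ i, V i) M), IsEqv (sumRep ρ) τ φ →
      ∀ K : κ → Σ i, Fin (d i), φ (fun l => (Pi.basis b) (K l)) ≠ 0 → ∀ y : Σ i, Fin (d i),
        (Finset.univ.filter (fun l => K l = y)).card =
          (Finset.univ.filter (fun l => K l = ⟨y.1, inv y.1 y.2⟩)).card := by
    rintro κ _ _ φ ⟨Δ, hΔ, hφ⟩ K hK y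
    obtain ⟨N, hN, -, hNΔ⟩ := Subgroup.exists_pow_mem_of_index_ne_zero hΔ.index_ne_zero γ
    have h1 := hφ (γ ^ N) hNΔ (fun l => (Pi.basis b) (K l))
    simp only [sumRep_pow ρ b hb] at h1
    rw [MultilinearMap.map_smul_univ, map_pow, Finset.prod_pow] at h1
    obtain ⟨β, hβ, hβN⟩ := exists_eigenvalue_of_pow (τ γ) hN hK h1.symm
    exact bal_of_rel' ρ χ w hα hev (hrel β hβ) hmul K hN hβN.symm y
  have hD : ∀ i y, DD (b i) (inv i) y ∈ lieO ρ τ ω i := by
    intro i y
    refine ⟨fun u v => ?_, fun κ _ _ φ l hφ => ?_⟩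
    · have h1 := TT_diag (b i) (hinv i) (hnz i) (ω i) (hs i) (hsym i) (hωb i) y
      have h2 := TT_so (ω i) (s_sq (hs i)) (hsym i) (b i (inv i y)) (b i y) u v
      rw [h1, LinearMap.smul_apply, LinearMap.smul_apply, map_smul, map_smul,
        LinearMap.smul_apply, smul_eq_mul, smul_eq_mul, ← mul_add] at h2
      exact (mul_eq_zero.1 h2).resolve_left (hnz i _)
    · rw [io_DD]
      refine dd_kills (Pi.basis b) _ _ (fun K hK => hbalM κ φ hφ K fun h0 => hK ?_) _
      change l (φ (fun j => (Pi.basis b) (K j))) = 0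
      rw [h0, map_zero]
  have hTT : ∀ i a c, TT (ω i) (sgn i : k) (b i a) (b i c) ∈ lieO ρ τ ω i := fun i a c =>
    block_mem (b i) (lieO ρ τ ω i) (fun X hX Y hY => lieO_bracket ρ τ ω i hX hY) (hD i) (hinv i)
      (hselfi i) (hnz i) (ω i) (hs i) (hsym i) (hωb i) (fun X hX => hX.1)
      (fun X Y c hX hY hH hHY hc => lieO_opp ρ τ ω i X Y c hX hY hH hHY hc) (ρ i)
      (fun g X hX => lieO_conj ρ τ ω i (hω i) g hX) (hEnd i) a c
  exact ⟨d, b, inv, J, hnz, hinv, hωb, hTT⟩

/-- the part of a multilinear map with the pattern `c` -/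
def patt {k : Type} [Field k] {I : Type} [DecidableEq I] {V : I → Type} [∀ i, AddCommGroup (V i)]
    [∀ i, Module k (V i)] {M : Type} [AddCommGroup M] [Module k M] {n : ℕ} (c : Fin n → I)
    (f : MultilinearMap k (fun _ : Fin n => ∀ i, V i) M) :
    MultilinearMap k (fun _ : Fin n => ∀ i, V i) M :=
  f.compLinearMap fun l => (LinearMap.single k V (c l)).comp (LinearMap.proj (c l))

theorem patt_apply {k : Type} [Field k] {I : Type} [DecidableEq I] {V : I → Type}
    [∀ i, AddCommGroup (V i)] [∀ i, Module k (V i)] {M : Type} [AddCommGroup M] [Module k M]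
    {n : ℕ} (c : Fin n → I) (f : MultilinearMap k (fun _ : Fin n => ∀ i, V i) M)
    (x : Fin n → ∀ i, V i) :
    patt c f x = f (fun l => LinearMap.single k V (c l) (x l (c l))) := rfl

theorem sum_patt {k : Type} [Field k] {I : Type} [Fintype I] [DecidableEq I] {V : I → Type}
    [∀ i, AddCommGroup (V i)] [∀ i, Module k (V i)] {M : Type} [AddCommGroup M] [Module k M]
    {n : ℕ} (f : MultilinearMap k (fun _ : Fin n => ∀ i, V i) M) :
    f = ∑ c : Fin n → I, patt c f := by
  refine MultilinearMap.ext fun x => ?_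
  rw [MultilinearMap.sum_apply]
  have h1 : x = fun l => ∑ i, LinearMap.single k V i (x l i) := by
    funext l
    exact (Finset.univ_sum_single (x l)).symm
  conv_lhs => rw [h1]
  rw [MultilinearMap.map_sum]
  rfl

theorem patt_eqv {k : Type} [Field k] [CharZero k] {I : Type} [Fintype I] [DecidableEq I] {V : I → Type}
    [∀ i, AddCommGroup (V i)] [∀ i, Module k (V i)] {M : Type} [AddCommGroup M] [Module k M]
    {Γ : Type} [Group Γ] (ρ : ∀ i, Representation k Γ (V i)) (τ : Representation k Γ M)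
    {n : ℕ} (c : Fin n → I) {f : MultilinearMap k (fun _ : Fin n => ∀ i, V i) M}
    (hf : IsEqv (sumRep ρ) τ f) : IsEqv (sumRep ρ) τ (patt c f) := by
  obtain ⟨Δ, hΔ, h⟩ := hf
  refine ⟨Δ, hΔ, fun s hs v => ?_⟩
  rw [patt_apply, patt_apply, ← h s hs]
  congr 1
  funext l
  rw [sumRep_single]
  rfl

/-- The coordinates of the components of an equivariant map are invariant. -/
theorem inv_coord {k : Type} [Field k] [CharZero k] {I : Type} [Fintype I]
    [DecidableEq I] {V : I → Type} [∀ i, AddCommGroup (V i)] [∀ i, Module k (V i)]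
    {M : Type} [AddCommGroup M] [Module k M]
    {Γ : Type} [Group Γ] (ρ : ∀ i, Representation k Γ (V i))
    (τ : Representation k Γ M) (sgn : I → ℤ) (ω : ∀ i, V i →ₗ[k] V i →ₗ[k] k)
    {d : I → ℕ} (b : ∀ i, Basis (Fin (d i)) k (V i))
    (hTT : ∀ i a c, TT (ω i) (sgn i : k) (b i a) (b i c) ∈ lieO ρ τ ω i)
    {n : ℕ} {φ : MultilinearMap k (fun _ : Fin n => ∀ i, V i) M} (hφ : IsEqv (sumRep ρ) τ φ)
    (l : M →ₗ[k] k) :
    Pool.Agent.TH125.Nod.Inv (Sigma.fst : (Σ i, Fin (d i)) → I)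
      (fun x y => sumForm ω ((Pi.basis b) x) ((Pi.basis b) y))
      (fun i => ((sgn i : ℤ) : k)) (fun K : Fin n → Σ i, Fin (d i) =>
        l (φ (fun j => (Pi.basis b) (K j)))) := by
  have hQl : ∀ x (z : ∀ i, V i), sumForm ω ((Pi.basis b) x) z = ω x.1 (b x.1 x.2) (z x.1) := by
    intro x z
    rw [basis_single, sumForm_left]
  rintro ⟨i, a⟩ ⟨i', c⟩ hii K
  change i = i' at hii
  subst hii
  have h1 := (hTT i c a).2 (Fin n) φ l hφ (fun j => (Pi.basis b) (K j))
  rw [← h1]
  refine Finset.sum_congr rfl fun j _ => ?_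
  have h2 : io k i (TT (ω i) (sgn i : k) (b i c) (b i a)) ((Pi.basis b) (K j)) =
      sumForm ω ((Pi.basis b) ⟨i, c⟩) ((Pi.basis b) (K j)) • (Pi.basis b) ⟨i, a⟩ -
        ((sgn i : k) * sumForm ω ((Pi.basis b) ⟨i, a⟩) ((Pi.basis b) (K j))) •
          (Pi.basis b) ⟨i, c⟩ := by
    rw [io_apply, TT_apply, map_sub, map_smul, map_smul, hQl, hQl, basis_single b ⟨i, a⟩,
      basis_single b ⟨i, c⟩]
  have h3 : ∀ z, l (φ (fun j' => (Pi.basis b) (Function.update K j z j'))) =
      (l.compMultilinearMap φ) (Function.update (fun j => (Pi.basis b) (K j)) j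
        ((Pi.basis b) z)) := by
    intro z
    change l (φ _) = l (φ _)
    refine congrArg l (congrArg φ (funext fun l' => ?_))
    by_cases hl : l' = j
    · subst hl
      rw [Function.update_self, Function.update_self]
    · rw [Function.update_of_ne hl, Function.update_of_ne hl]
  rw [h2, MultilinearMap.map_update_sub, MultilinearMap.map_update_smul,
    MultilinearMap.map_update_smul, ← h3, ← h3]

end

end Pool.Agent.V1141.SO
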