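import Pool.Agent.V1141.SO.Form

/-!
# The form on tensors is nondegenerate on the invariants
-/

set_option autoImplicit false
set_option linter.unusedSectionVars false

open Finset Function

namespace Pool.Agent.V1141.SO

open Pool.Agent.TH125.Nod

variable {K : Type} [Field K] {B : Type} [Fintype B] [DecidableEq B] {ι : Type} [DecidableEq ι]
  {κ : B → ι} {Q R : Matrix B B K} {s : ι → ℤ} {r : B → K} {iv : B → B}

theorem detF_row {i : ι} {n : ℕ} {e0 : Fin n ≃ {b // κ b = i}} {J : Fin n → B} {x : Fin n}
    (hx : κ (J x) ≠ i) : detF κ K i e0 J = 0 := by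
  unfold detF
  refine Matrix.det_eq_zero_of_row_eq_zero x fun y => ?_
  rw [Matrix.of_apply, if_neg]
  intro h
  apply hx
  rw [h]
  exact (e0 y).2

/-- A form which is alternating in all its variables in the block `i`, whose number is the dimension
of the block, is the product of the determinant and of a form in the other variables. -/
theorem alt_factor [CharZero K] (hQb : ∀ u v, κ u ≠ κ v → Q u v = 0) {S : Type} [Fintype S]
    [DecidableEq S] {c : S → ι} {i : ι} {t : ι → K} {w : (S → B) → K}
    (hsup : Sup κ c w) (hinv : Inv κ Q t w)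
    (halt : ∀ a b, c a = i → c b = i → a ≠ b → sw (K := K) a b w = -w)
    (hcard : (univ.filter (c · = i)).card = (univ.filter fun b => κ b = i).card) :
    ∃ (n : ℕ) (p : Fin n ⊕ {x // ¬ (c x = i)} ≃ S) (e0 : Fin n ≃ {b // κ b = i})
      (g : ({x // ¬ (c x = i)} → B) → K), (∀ x, c (p (Sum.inl x)) = i) ∧
      (∀ y, p (Sum.inr y) = y.1) ∧ Sup κ (fun x : {x // ¬ (c x = i)} => c x.1) g ∧ Inv κ Q t g ∧
      w = fun J => detF κ K i e0 (fun x => J (p (Sum.inl x))) *
        g (fun y => J (p (Sum.inr y))) := by
  classical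
  obtain ⟨n, hn⟩ : ∃ n, n = (univ.filter (c · = i)).card := ⟨_, rfl⟩
  let eA : Fin n ≃ {x // c x = i} := (Fintype.equivFinOfCardEq (by
    rw [Fintype.card_subtype, hn])).symm
  let e0 : Fin n ≃ {b // κ b = i} := (Fintype.equivFinOfCardEq (by
    rw [Fintype.card_subtype, hn, hcard])).symm
  let p : Fin n ⊕ {x // ¬ (c x = i)} ≃ S := (Equiv.sumCongr eA (Equiv.refl _)).trans
    (Equiv.sumCompl (fun x => c x = i))
  let comb : ({x // ¬ (c x = i)} → B) → S → B := fun J' x =>
    if h : c x = i then (e0 (eA.symm ⟨x, h⟩)).1 else J' ⟨x, h⟩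
  have hcomb1 : ∀ J' x, c x = i → κ (comb J' x) = i := by
    intro J' x h
    simp only [comb]
    rw [dif_pos h]
    exact (e0 _).2
  have hcomb2 : ∀ J' x (h : ¬ (c x = i)), comb J' x = J' ⟨x, h⟩ := by
    intro J' x h
    simp only [comb]
    rw [dif_neg h]
  let g : ({x // ¬ (c x = i)} → B) → K := fun J' => w (comb J')
  have hgs : Sup κ (fun x : {x // ¬ (c x = i)} => c x.1) g := by
    intro J' hJ'
    apply hsup
    intro h
    apply hJ'
    intro x
    have h1 := h x.1
    rw [hcomb2 J' x.1 x.2] at h1
    exact h1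
  have hgi : Inv κ Q t g := by
    intro u v huv J'
    by_cases hu : κ u = i
    · refine Finset.sum_eq_zero fun j _ => ?_
      have h1 : ∀ z, κ z = i → g (update J' j z) = 0 := by
        intro z hz
        apply hgs
        intro h
        have h2 := h j
        rw [update_self, hz] at h2
        exact j.2 h2.symm
      rw [h1 u hu, h1 v (by rw [← huv, hu]), smul_zero, smul_zero, sub_zero]
    · have h := hinv u v huv (comb J')
      rw [← (Equiv.sumCompl (fun x => c x = i)).sum_comp, Fintype.sum_sum_type] at h
      have h1 : ∀ x : {x // c x = i}, Q v (comb J' x.1) = 0 ∧ Q u (comb J' x.1) = 0 := by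
        intro x
        have h2 := hcomb1 J' x.1 x.2
        exact ⟨hQb _ _ (by rw [h2, ← huv]; exact hu), hQb _ _ (by rw [h2]; exact hu)⟩
      rw [Finset.sum_eq_zero (fun x _ => ?_), zero_add] at h
      · rw [← h]
        refine Finset.sum_congr rfl fun j _ => ?_
        have h3 : ∀ z, g (update J' j z) = w (update (comb J') j.1 z) := by
          intro z
          change w (comb (update J' j z)) = _
          congr 1
          funext x
          by_cases hx : x = j.1
          · subst hx
            rw [update_self, hcomb2 _ _ j.2, update_self]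
          · rw [update_of_ne hx]
            by_cases hx' : c x = i
            · simp only [comb]
              rw [dif_pos hx', dif_pos hx']
            · rw [hcomb2 _ _ hx', hcomb2 _ _ hx', update_of_ne]
              intro h4
              exact hx (congrArg Subtype.val h4)
        rw [h3, h3, Equiv.sumCompl_apply_inr, hcomb2 J' j.1 j.2]
      · rw [Equiv.sumCompl_apply_inl, (h1 x).1, (h1 x).2, zero_smul, mul_zero, zero_smul, sub_zero]
  refine ⟨n, p, e0, g, fun x => (eA x).2, fun y => rfl, hgs, hgi, ?_⟩
  funext J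
  change w J = detF κ K i e0 (fun x => J (eA x).1) * w (comb (fun y => J y.1))
  by_cases hbad : ∃ x : Fin n, κ (J (eA x).1) ≠ i
  · obtain ⟨x, hx⟩ := hbad
    rw [hsup J (fun h => hx ((h _).trans (eA x).2)), detF_row (x := x) hx, zero_mul]
  push Not at hbad
  by_cases hinj : Injective fun x : Fin n => J (eA x).1
  · let σf : Fin n → Fin n := fun x => e0.symm ⟨J (eA x).1, hbad x⟩
    have hσf : Injective σf := by
      intro x y h
      apply hinj
      exact congrArg Subtype.val (e0.symm.injective h)
    let σ : Equiv.Perm (Fin n) := Equiv.ofBijective σf (Finite.injective_iff_bijective.1 hσf)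
    have hσ : ∀ x, J (eA x).1 = (e0 (σ x)).1 := by
      intro x
      change _ = (e0 (e0.symm ⟨J (eA x).1, hbad x⟩)).1
      rw [Equiv.apply_symm_apply]
    have h1 : detF κ K i e0 (fun x => J (eA x).1) = ((Equiv.Perm.sign σ : ℤ) : K) := by
      have h2 : detF κ K i e0 (fun x => J (eA x).1) = Matrix.det ((σ.toPEquiv).toMatrix) := by
        unfold detF
        congr 1
        ext x y
        rw [Matrix.of_apply, PEquiv.toMatrix_apply]
        change (if J (eA x).1 = (e0 y).1 then (1 : K) else 0) = _
        rw [hσ]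
        have h3 : ((e0 (σ x)).1 = (e0 y).1) ↔ y ∈ (σ.toPEquiv) x := by
          rw [Equiv.toPEquiv_apply, Option.mem_some_iff]
          exact ⟨fun h => e0.injective (Subtype.ext h), fun h => by rw [h]⟩
        by_cases h4 : (e0 (σ x)).1 = (e0 y).1
        · rw [if_pos h4, if_pos (h3.1 h4)]
        · rw [if_neg h4, if_neg (fun h => h4 (h3.2 h))]
      rw [h2, Matrix.det_permutation]
    have key : ∀ τ : Equiv.Perm {x // c x = i},
        rho (K := K) (Equiv.Perm.ofSubtype τ) w = ((Equiv.Perm.sign τ : ℤ) : K) • w := by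
      intro τ
      induction τ using Equiv.Perm.swap_induction_on with
      | one => simp [rho_one]
      | swap_mul τ x y hxy hτ =>
        rw [map_mul, rho_mul, hτ, map_smul, Equiv.Perm.sign_mul, Equiv.Perm.sign_swap hxy,
          Equiv.Perm.ofSubtype_swap_eq]
        have h5 := halt x.1 y.1 x.2 y.2 (fun h => hxy (Subtype.ext h))
        rw [sw] at h5
        rw [h5]
        push_cast
        module
    have h6 := congrFun (key (eA.permCongr σ)) (comb (fun y => J y.1))
    rw [Pi.smul_apply, Equiv.Perm.sign_permCongr, smul_eq_mul] at h6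
    rw [h1, ← h6]
    change w J = w (fun x => comb (fun y => J y.1) (Equiv.Perm.ofSubtype (eA.permCongr σ) x))
    congr 1
    funext x
    by_cases hx : c x = i
    · have h8 : Equiv.Perm.ofSubtype (eA.permCongr σ) x = ((eA.permCongr σ) ⟨x, hx⟩).1 :=
        Equiv.Perm.ofSubtype_apply_of_mem (eA.permCongr σ) hx
      rw [h8]
      have h9 : comb (fun y => J y.1) ((eA.permCongr σ) ⟨x, hx⟩).1 =
          (e0 (eA.symm ((eA.permCongr σ) ⟨x, hx⟩))).1 := dif_pos ((eA.permCongr σ) ⟨x, hx⟩).2
      have h7 := hσ (eA.symm ⟨x, hx⟩)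
      rw [Equiv.apply_symm_apply] at h7
      refine Eq.trans h7 (Eq.trans ?_ h9.symm)
      rw [Equiv.permCongr_apply, Equiv.symm_apply_apply]
    · have h8 : Equiv.Perm.ofSubtype (eA.permCongr σ) x = x :=
        Equiv.Perm.ofSubtype_apply_of_not_mem (eA.permCongr σ) hx
      rw [h8]
      exact (hcomb2 (fun y => J y.1) x hx).symm
  · have hne : ∃ x y, J (eA x).1 = J (eA y).1 ∧ x ≠ y := by
      unfold Injective at hinj
      push Not at hinj
      exact hinj
    obtain ⟨x, y, hxy, hne⟩ := hne
    have h1 : detF κ K i e0 (fun x => J (eA x).1) = 0 := by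
      unfold detF
      refine Matrix.det_zero_of_row_eq hne ?_
      funext z
      rw [Matrix.of_apply, Matrix.of_apply]
      change (if J (eA x).1 = (e0 z).1 then (1 : K) else 0) =
        (if J (eA y).1 = (e0 z).1 then (1 : K) else 0)
      rw [hxy]
    rw [h1, zero_mul]
    have h2 := congrFun (halt (eA x).1 (eA y).1 (eA x).2 (eA y).2
      (fun h => hne (eA.injective (Subtype.ext h)))) J
    rw [Pi.neg_apply] at h2
    change w (fun j => J (Equiv.swap (eA x).1 (eA y).1 j)) = _ at h2
    have h3 : (fun j => J (Equiv.swap (eA x).1 (eA y).1 j)) = J := by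
      funext j
      by_cases e1 : j = (eA x).1
      · rw [e1, Equiv.swap_apply_left, hxy]
      by_cases e2 : j = (eA y).1
      · rw [e2, Equiv.swap_apply_right, hxy]
      rw [Equiv.swap_apply_of_ne_of_ne e1 e2]
    rw [h3] at h2
    exact self_eq_neg.1 h2


theorem detF_perm {i : ι} {n : ℕ} (e0 : Fin n ≃ {b // κ b = i}) (σ : Equiv.Perm (Fin n)) :
    detF κ K i e0 (fun x => (e0 (σ x)).1) = ((Equiv.Perm.sign σ : ℤ) : K) := by
  have h2 : detF κ K i e0 (fun x => (e0 (σ x)).1) = Matrix.det ((σ.toPEquiv).toMatrix) := by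
    unfold detF
    congr 1
    ext x y
    rw [Matrix.of_apply, PEquiv.toMatrix_apply]
    have h3 : ((e0 (σ x)).1 = (e0 y).1) ↔ y ∈ (σ.toPEquiv) x := by
      rw [Equiv.toPEquiv_apply, Option.mem_some_iff]
      exact ⟨fun h => e0.injective (Subtype.ext h), fun h => by rw [h]⟩
    by_cases h4 : (e0 (σ x)).1 = (e0 y).1
    · rw [if_pos h4, if_pos (h3.1 h4)]
    · rw [if_neg h4, if_neg (fun h => h4 (h3.2 h))]
  rw [h2, Matrix.det_permutation]

theorem detF_ne {i : ι} {n : ℕ} (e0 : Fin n ≃ {b // κ b = i}) {J : Fin n → B}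
    (h : detF κ K i e0 J ≠ 0) : ∃ σ : Equiv.Perm (Fin n), (fun x => (e0 (σ x)).1) = J := by
  have hb : ∀ x, κ (J x) = i := by
    intro x
    by_contra hx
    exact h (detF_row hx)
  have hinj : Injective J := by
    intro x y hxy
    by_contra hne
    apply h
    unfold detF
    refine Matrix.det_zero_of_row_eq hne ?_
    funext z
    rw [Matrix.of_apply, Matrix.of_apply, hxy]
  let σf : Fin n → Fin n := fun x => e0.symm ⟨J x, hb x⟩
  have hσf : Injective σf := by
    intro x y h
    exact hinj (congrArg Subtype.val (e0.symm.injective h))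
  refine ⟨Equiv.ofBijective σf (Finite.injective_iff_bijective.1 hσf), ?_⟩
  funext x
  change (e0 (e0.symm ⟨J x, hb x⟩)).1 = J x
  rw [Equiv.apply_symm_apply]

theorem frm_det [CharZero K] {i : ι} {n : ℕ} (e0 : Fin n ≃ {b // κ b = i})
    (hiv : ∀ x, κ (iv x) = κ x) (hii : ∀ x, iv (iv x) = x) (hr : ∀ x, r x ≠ 0) :
    frm r iv (detF κ K i e0) (detF κ K i e0) ≠ 0 := by
  classical
  let πf : Fin n → Fin n := fun x => e0.symm ⟨iv (e0 x).1, (hiv _).trans (e0 x).2⟩
  have hπf : ∀ x, (e0 (πf x)).1 = iv (e0 x).1 := by
    intro x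
    change (e0 (e0.symm ⟨iv (e0 x).1, (hiv _).trans (e0 x).2⟩)).1 = _
    rw [Equiv.apply_symm_apply]
  have hinj : Injective πf := by
    intro x y h
    have h1 : iv (e0 x).1 = iv (e0 y).1 := by rw [← hπf, ← hπf, h]
    have h2 := congrArg iv h1
    rw [hii, hii] at h2
    exact e0.injective (Subtype.ext h2)
  let π : Equiv.Perm (Fin n) := Equiv.ofBijective πf (Finite.injective_iff_bijective.1 hinj)
  have hσinj : Injective (fun (σ : Equiv.Perm (Fin n)) (x : Fin n) => (e0 (σ x)).1) := by
    intro σ σ' h
    refine Equiv.ext fun x => ?_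
    exact e0.injective (Subtype.ext (congrFun h x))
  have h1 : frm r iv (detF κ K i e0) (detF κ K i e0) =
      ∑ σ : Equiv.Perm (Fin n), (∏ x, r (e0 x).1) * ((Equiv.Perm.sign π : ℤ) : K) := by
    unfold frm
    symm
    refine Fintype.sum_of_injective (fun (σ : Equiv.Perm (Fin n)) (x : Fin n) => (e0 (σ x)).1)
      hσinj _ _ (fun J hJ => ?_) (fun σ => ?_)
    · have h2 : detF κ K i e0 J = 0 := by
        by_contra h
        obtain ⟨σ, hσ⟩ := detF_ne e0 h
        exact hJ ⟨σ, hσ⟩
      rw [h2, zero_mul, mul_zero]
    · have h2 : (fun x => iv (e0 (σ x)).1) = fun x => (e0 ((π * σ) x)).1 := by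
        funext x
        exact (hπf (σ x)).symm
      have h3 : ∏ x, r (e0 (σ x)).1 = ∏ x, r (e0 x).1 :=
        Equiv.prod_comp σ (fun x => r (e0 x).1)
      have h4 : ((Equiv.Perm.sign σ : ℤ) : K) * ((Equiv.Perm.sign σ : ℤ) : K) = 1 := by
        rcases Int.units_eq_one_or (Equiv.Perm.sign σ) with h | h <;> rw [h] <;> norm_num
      change _ = (∏ x, r (e0 (σ x)).1) * (detF κ K i e0 (fun x => (e0 (σ x)).1) *
        detF κ K i e0 (fun x => iv (e0 (σ x)).1))
      rw [h2, h3, detF_perm, detF_perm, Equiv.Perm.sign_mul]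
      push_cast
      linear_combination -(∏ x, r (e0 x).1) * ((Equiv.Perm.sign π : ℤ) : K) * h4
  rw [h1, Finset.sum_const, nsmul_eq_mul]
  refine mul_ne_zero ?_ (mul_ne_zero (Finset.prod_ne_zero_iff.2 fun x _ => hr _) ?_)
  · rw [Finset.card_univ, Fintype.card_perm]
    exact_mod_cast Nat.factorial_ne_zero _
  · rcases Int.units_eq_one_or (Equiv.Perm.sign π) with h | h <;> rw [h] <;> norm_num

/-- the invariant forms orthogonal to the generated ones -/
def orthS (κ : B → ι) (Q : Matrix B B K) (s : ι → ℤ) (r : B → K) (iv : B → B) {S : Type}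
    [Fintype S] [DecidableEq S] (c : S → ι) : Submodule K ((S → B) → K) where
  carrier := {F | F ∈ invS κ Q (fun i => ((s i : ℤ) : K)) S ∧
    ∀ g ∈ GenD κ Q s c, frm r iv F g = 0}
  add_mem' := fun {F F'} h h' => ⟨Submodule.add_mem _ h.1 h'.1, fun g hg => by
    rw [frm_add', h.2 g hg, h'.2 g hg, add_zero]⟩
  zero_mem' := ⟨Submodule.zero_mem _, fun g _ => by
    unfold frm
    simp⟩
  smul_mem' := fun a F h => ⟨Submodule.smul_mem _ a h.1, fun g hg => by
    rw [frm_smul', h.2 g hg, mul_zero]⟩

/-- **Nondegeneracy on the invariants**: an invariant form orthogonal to all products of pairings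
and determinants is zero. -/
theorem ng [CharZero K] (hs : ∀ i, s i = 1 ∨ s i = -1)
    (hQb : ∀ a b, κ a ≠ κ b → Q a b = 0) (hQs : ∀ a b, Q a b = ((s (κ a) : ℤ) : K) * Q b a)
    (hQR : Q * R = 1) (hiv : ∀ x, κ (iv x) = κ x) (hii : ∀ x, iv (iv x) = x)
    (hr : ∀ x, r x ≠ 0) (hrQ : ∀ p q, r p * r q * Q (iv p) (iv q) =
      ((s (κ p) : ℤ) : K) * R p q) (N : ℕ) :
    ∀ (S : Type) [Fintype S] [DecidableEq S] (c : S → ι) (F : (S → B) → K), Fintype.card S = N →
      Sup κ c F → Inv κ Q (fun i => ((s i : ℤ) : K)) F →
      (∀ g ∈ GenD κ Q s c, frm r iv F g = 0) → F = 0 := by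
  classical
  induction N using Nat.strong_induction_on with
  | _ N ih =>
    intro S _ _ c F hN hsup hinv horth
    rcases isEmpty_or_nonempty S with hS | ⟨⟨a0⟩⟩
    · funext J
      have h1 := horth (fun _ => 1) (genD_empty c _)
      unfold frm at h1
      rw [Finset.univ_unique, Finset.sum_singleton, Finset.univ_eq_empty, Finset.prod_empty,
        one_mul, mul_one] at h1
      rw [Pi.zero_apply, ← h1]
      congr 1
      funext j
      exact (hS.false j).elim
    · set i := c a0 with hi
      have hmem : F ∈ (⊥ : Submodule K ((S → B) → K)) := by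
        refine alt_mem' (K := K) (κ := κ) (c := c) (i := i) ⊥ (orthS κ Q s r iv c)
          (fun a b _ _ f hf => by
            rw [Submodule.mem_bot] at hf ⊢
            rw [hf]
            exact map_zero _)
          (fun a b ha hb f hf => ⟨by
            have hf' : Inv κ Q (fun i => ((s i : ℤ) : K)) f := hf.1
            exact inv_rho hf' _, fun g hg => by
            rw [frm_perm, hf.2]
            refine genD_perm (fun j => ?_) hg
            rw [Equiv.swap_inv]
            exact c_swap ha hb j⟩) (blk κ i).card rfl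
          (univ.filter (c · = i)) rfl (s i) (hs i).symm ?_ ((blk κ i).card + 1) {a0} ?_
          ⟨a0, by simp⟩ ?_ F ⟨hinv, horth⟩ hsup ?_ ?_
        · intro hsi hcard w hwU hwS halt
          have hwI : Inv κ Q (fun i => ((s i : ℤ) : K)) w := hwU.1
          obtain ⟨n, p, e0, g, hp1, hp2, hg1, hg2, hw⟩ := alt_factor hQb hwS hwI
            (fun a b ha hb hab => by
              have h := halt a (by simp [ha]) b (by simp [hb]) hab
              rw [Submodule.mem_bot] at h
              exact eq_neg_of_add_eq_zero_left h) hcard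
          have hc2 : (fun y => c (p (Sum.inr y))) = fun x : {x // ¬ (c x = i)} => c x.1 :=
            funext fun y => by rw [hp2]
          have hg0 : g = 0 := by
            refine ih (Fintype.card {x // ¬ (c x = i)}) ?_ _ _ g rfl hg1 hg2 fun g'' hg'' => ?_
            · rw [← hN]
              exact Fintype.card_subtype_lt (x := a0) (fun h => h hi.symm)
            · have h1 := hwU.2 _ (genD_cons (c := c) p (ψ := detF κ K i e0)
                (Or.inr ⟨i, e0, hsi, hp1, rfl⟩) (g := g'') (by rw [hc2]; exact hg''))
              rw [hw, frm_mul p] at h1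
              exact (mul_eq_zero.1 h1).resolve_left (frm_det e0 hiv hii hr)
          rw [Submodule.mem_bot, hw, hg0]
          funext J
          rw [Pi.zero_apply, mul_zero]
          rfl
        · intro x hx
          rw [Finset.mem_singleton] at hx
          rw [hx]
          simp [hi]
        · rw [Finset.card_singleton]
          omega
        · intro a ha
          have hai : c a = i := (Finset.mem_filter.1 ha).2
          have hcon : ∀ b ∈ (univ.filter fun j => c j = i).erase a, con κ R i a b F = 0 := by
            intro b hb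
            rw [Finset.mem_erase] at hb
            have hab : a ≠ b := Ne.symm hb.1
            have hbi : c b = i := (Finset.mem_filter.1 hb.2).2
            refine ih (Fintype.card {x // x ≠ a ∧ x ≠ b}) ?_ _ _ _ rfl (sup_con hsup R)
              (inv_con hs hQb hQs hQR hinv hab) fun g hg => ?_
            · rw [← hN]
              exact Fintype.card_subtype_lt (x := a) (fun h => h.1 rfl)
            · have h1 := horth _ (genD_pair hQb hab (hai.trans hbi.symm) hg)
              rw [frm_pair hab hai hbi hiv hrQ hsup] at h1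
              refine (mul_eq_zero.1 h1).resolve_left ?_
              rcases hs i with h | h <;> rw [h] <;> norm_num
          rw [Submodule.mem_bot]
          funext J
          rw [Pi.add_apply, Pi.smul_apply, Finset.sum_apply, Pi.zero_apply]
          by_cases hJ : ∀ j, κ (J j) = c j
          · have h1 := cas hs hQb hQR hinv hJ hai
            rw [Finset.sum_eq_zero (s := (univ.filter fun j => c j = i).erase a)
              (f := fun b => Q (J a) (J b) • con κ R i a b F (fun x => J x.1))
              (fun b hb => by rw [hcon b hb, Pi.zero_apply, smul_zero]), smul_zero] at h1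
            exact h1
          · rw [hsup J hJ, smul_zero, zero_add]
            refine Finset.sum_eq_zero fun b hb => ?_
            rw [Finset.mem_erase, Finset.mem_filter] at hb
            exact Sup_rho (K := K) (c_swap hai hb.2.2) hsup J hJ
        · intro a ha b hb hab
          rw [Finset.mem_singleton] at ha hb
          exact absurd (ha.trans hb.symm) hab
      rwa [Submodule.mem_bot] at hmem

end Pool.Agent.V1141.SO
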