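import Pool.Agent.V1141.SO.Iff
import Pool.Agent.V1141.SO.Ng

/-!
# Tate classes whose contractions with all products of pairings and discriminants vanish
-/

set_option autoImplicit false
set_option linter.unusedSectionVars false

namespace Pool.Agent.V1141.SO

open Module Pool.Agent.V1141.WT Pool.Agent.V1141.OF
open Pool.Agent.Y137.MV (IsEqv)

noncomputable section

section tt

variable {k : Type} [Field k] [CharZero k] {I : Type} [Fintype I]
  [DecidableEq I] {V : I → Type} [∀ i, AddCommGroup (V i)] [∀ i, Module k (V i)]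
  {M : Type} [AddCommGroup M] [Module k M]
  {Γ : Type} [Group Γ] (ρ : ∀ i, Representation k Γ (V i))
  (τ : Representation k Γ M) (sgn : I → ℤ) (ω : ∀ i, V i →ₗ[k] V i →ₗ[k] k)

theorem TT_left (s : k) (i : I) (v : V i) : ∃ L : V i →ₗ[k] Module.End k (V i),
    ∀ u, L u = TT (ω i) s u v := by
  refine ⟨{ toFun := fun u => TT (ω i) s u v, map_add' := fun u u' => ?_,
            map_smul' := fun a u => ?_ }, fun u => rfl⟩
  · refine LinearMap.ext fun w => ?_
    rw [TT_apply, LinearMap.add_apply, TT_apply, TT_apply, map_add, LinearMap.add_apply]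
    module
  · refine LinearMap.ext fun w => ?_
    rw [TT_apply, RingHom.id_apply, LinearMap.smul_apply, TT_apply, map_smul,
      LinearMap.smul_apply, smul_eq_mul]
    module

theorem TT_right (s : k) (i : I) (u : V i) : ∃ L : V i →ₗ[k] Module.End k (V i),
    ∀ v, L v = TT (ω i) s u v := by
  refine ⟨{ toFun := fun v => TT (ω i) s u v, map_add' := fun v v' => ?_,
            map_smul' := fun a v => ?_ }, fun v => rfl⟩
  · refine LinearMap.ext fun w => ?_
    rw [TT_apply, LinearMap.add_apply, TT_apply, TT_apply, map_add, LinearMap.add_apply]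
    module
  · refine LinearMap.ext fun w => ?_
    rw [TT_apply, RingHom.id_apply, LinearMap.smul_apply, TT_apply, map_smul,
      LinearMap.smul_apply, smul_eq_mul]
    module

theorem tt_all {d : I → ℕ} (b : ∀ i, Basis (Fin (d i)) k (V i))
    (hTT : ∀ i a c, TT (ω i) (sgn i : k) (b i a) (b i c) ∈ lieO ρ τ ω i) (i : I) (u v : V i) :
    TT (ω i) (sgn i : k) u v ∈ lieO ρ τ ω i := by
  have h1 : ∀ (c : Fin (d i)) (u : V i), TT (ω i) (sgn i : k) u (b i c) ∈ lieO ρ τ ω i := by
    intro c u
    obtain ⟨L, hL⟩ := TT_left ω (sgn i : k) i (b i c)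
    have h2 : Submodule.map L ⊤ ≤ lieO ρ τ ω i := by
      rw [← (b i).span_eq, Submodule.map_span, Submodule.span_le]
      rintro _ ⟨_, ⟨a, rfl⟩, rfl⟩
      rw [hL]
      exact hTT i a c
    rw [← hL]
    exact h2 ⟨u, trivial, rfl⟩
  obtain ⟨L, hL⟩ := TT_right ω (sgn i : k) i u
  have h2 : Submodule.map L ⊤ ≤ lieO ρ τ ω i := by
    rw [← (b i).span_eq, Submodule.map_span, Submodule.span_le]
    rintro _ ⟨_, ⟨c, rfl⟩, rfl⟩
    rw [hL]
    exact h1 c u
  rw [← hL]
  exact h2 ⟨v, trivial, rfl⟩

end tt

section family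

variable {k : Type} [Field k] [CharZero k] {Γ : Type} [Group Γ] {χ : Γ →* k} {I : Type}
  [Fintype I] [DecidableEq I] (P : I → FormPiece k χ)

/-- the twist of a representation by a power of the character -/
def twistRep {M : Type} [AddCommGroup M] [Module k M] (χ : Γ →* k) (τ : Representation k Γ M)
    (c : ℤ) : Representation k Γ M where
  toFun g := χ g ^ c • τ g
  map_one' := by
    rw [map_one, one_zpow, one_smul, map_one]
  map_mul' g h := by
    rw [map_mul, map_mul, mul_zpow, smul_mul_smul_comm]

theorem twistRep_apply {M : Type} [AddCommGroup M] [Module k M] (χ : Γ →* k)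
    (τ : Representation k Γ M) (c : ℤ) (g : Γ) (x : M) :
    twistRep χ τ c g x = χ g ^ c • τ g x := rfl

theorem eigen_twist {M : Type} [AddCommGroup M] [Module k M] (τ : Representation k Γ M)
    (c : ℤ) {γ : Γ} {β : k} (h : Module.End.HasEigenvalue (twistRep χ τ c γ) β) :
    Module.End.HasEigenvalue (τ γ) (β * χ γ ^ (-c)) := by
  obtain ⟨u, hu⟩ := h.exists_hasEigenvector
  have h1 : χ γ ^ c • τ γ u = β • u := hu.apply_eq_smul
  have h2 : τ γ u = (β * χ γ ^ (-c)) • u := by
    rw [mul_comm, mul_smul, ← h1, smul_smul, ← zpow_add₀ (OF.chi_ne χ γ), neg_add_cancel, zpow_zero,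
      one_smul]
  exact Module.End.hasEigenvalue_of_hasEigenvector ⟨Module.End.mem_eigenspace_iff.2 h2, hu.2⟩

/-- the coordinates of a sum of Tate classes with several twists are invariant -/
theorem inv_twists [IsAlgClosed k] {M : Type} [AddCommGroup M] [Module k M]
    [FiniteDimensional k M]
    (τ : Representation k Γ M) (hEnd : ∀ i, OnlyScalarEndos (P i).ρ) (γ : Γ)
    (hsimple : SimpleEigenvalues P γ) (hrel : ∀ c : ℤ, NoRelations P (twistRep χ τ c) γ)
    {d : I → ℕ} (b : ∀ i, Basis (Fin (d i)) k (P i).V) {N : ℕ}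
    {f : MultilinearMap k (fun _ : Fin N => Sum P) M}
    (hf : f ∈ Submodule.span k {h | ∃ c : ℤ, IsTateClass (act P) (twistRep χ τ c) h})
    (l : M →ₗ[k] k) (cc : Fin N → I) :
    (fun K : Fin N → Σ i, Fin (d i) => l (patt (V := fun i => (P i).V) cc f
      (fun j => (Pi.basis b) (K j)))) ∈
      invS (Sigma.fst : (Σ i, Fin (d i)) → I)
      (fun x y => sumForm (fun i => (P i).ω) ((Pi.basis b) x) ((Pi.basis b) y))
      (fun i => (((P i).sgn : ℤ) : k)) (Fin N) := by
  have hsgn : ∀ i, (P i).sgn = 1 ∨ (P i).sgn = -1 := fun i =>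
    (P i).sgn_eq.imp (fun h => h.1) id
  induction hf using Submodule.span_induction with
  | mem x hx =>
    obtain ⟨c, hx⟩ := hx
    obtain ⟨d', b', inv, J, hJ, hinv, hωb, hTT⟩ := tt_mem (V := fun i => (P i).V)
      (fun i => (P i).ρ) (twistRep χ τ c) χ (fun i => (P i).w) (fun i => (P i).sgn) hsgn
      (fun i => (P i).ω) (fun i => (P i).sym) (fun i => (P i).nondeg) (fun i => (P i).twisted)
      hEnd γ (fun i => (hsimple i).1) (fun i => (hsimple i).2) (hrel c)
    have hx' : IsEqv (sumRep fun i => (P i).ρ) (twistRep χ τ c) x := hx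
    exact inv_coord (V := fun i => (P i).V) (fun i => (P i).ρ) (twistRep χ τ c)
      (fun i => (P i).sgn) (fun i => (P i).ω) b
      (fun i a c' => tt_all (V := fun i => (P i).V) (fun i => (P i).ρ) (twistRep χ τ c)
        (fun i => (P i).sgn) (fun i => (P i).ω) b' hTT i (b i a) (b i c'))
      (patt_eqv (V := fun i => (P i).V) _ _ cc hx') l
  | zero =>
    convert Submodule.zero_mem _ using 1
    funext K
    exact map_zero l
  | add x y _ _ hx hy =>
    convert Submodule.add_mem _ hx hy using 1
    funext K
    exact map_add l _ _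
  | smul a x _ hx =>
    convert Submodule.smul_mem _ a hx using 1
    funext K
    exact map_smul l a _

end family

/-- A basis of the space of a piece in which the form is given by an involution of the indices. -/
structure HypBasis {k : Type} [Field k] {Γ : Type} [Group Γ] {χ : Γ →* k}
    (P : FormPiece k χ) where
  /-- the dimension -/
  d : ℕ
  /-- the basis -/
  b : Basis (Fin d) k P.V
  /-- the involution -/
  star : Fin d → Fin d
  /-- the values -/
  v : Fin d → k
  star_star : ∀ x, star (star x) = x
  v_ne : ∀ x, v x ≠ 0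
  form : ∀ x y, value P.ω (b x) (b y) = if y = star x then v x else 0

section family

variable {k : Type} [Field k] {Γ : Type} [Group Γ] {χ : Γ →* k} {I : Type}
  [DecidableEq I] {P : I → FormPiece k χ}

/-- The basis vector of `V i` with index `x`, as an element of the sum of all `V i`. -/
def vec (h : ∀ i, HypBasis (P i)) (x : Σ i, Fin (h i).d) : Sum P :=
  Pi.single x.1 ((h x.1).b x.2)

/-- The dual basis vector. -/
def dualVec (h : ∀ i, HypBasis (P i)) (x : Σ i, Fin (h i).d) : Sum P :=
  ((h x.1).v x.2)⁻¹ • Pi.single x.1 ((h x.1).b ((h x.1).star x.2))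

/-- The contraction of the multilinear map `f` with the form `ψ`: the sum of
`ψ (dual basis vectors) f (basis vectors)` over all families of basis vectors. -/
def contraction [Fintype I] (h : ∀ i, HypBasis (P i)) {M : Type} [AddCommGroup M] [Module k M]
    {N : ℕ} (f : MultilinearMap k (fun _ : Fin N => Sum P) M)
    (ψ : MultilinearMap k (fun _ : Fin N => Sum P) k) : M :=
  ∑ K : Fin N → Σ i, Fin (h i).d, ψ (fun l => dualVec h (K l)) • f (fun l => vec h (K l))

end family

section family

variable {k : Type} [Field k] [CharZero k] {Γ : Type} [Group Γ] {χ : Γ →* k} {I : Type}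
  [Fintype I] [DecidableEq I] (P : I → FormPiece k χ)

/-- **A sum of Tate classes with several twists, whose contractions with all products of pairings and
discriminants vanish, is zero.** -/
theorem zero_of_contractions [IsAlgClosed k] {M : Type} [AddCommGroup M] [Module k M]
    [FiniteDimensional k M]
    (τ : Representation k Γ M) (hEnd : ∀ i, OnlyScalarEndos (P i).ρ) (γ : Γ)
    (hsimple : SimpleEigenvalues P γ) (hrel : ∀ c : ℤ, NoRelations P (twistRep χ τ c) γ)
    (h : ∀ i, HypBasis (P i)) {N : ℕ} {f : MultilinearMap k (fun _ : Fin N => Sum P) M}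
    (hf : f ∈ Submodule.span k {g | ∃ c : ℤ, IsTateClass (act P) (twistRep χ τ c) g})
    (h0 : ∀ ψ : MultilinearMap k (fun _ : Fin N => Sum P) k, IsProductOfForms P ψ →
      contraction h f ψ = 0) : f = 0 := by
  classical
  have hsgn : ∀ i, (P i).sgn = 1 ∨ (P i).sgn = -1 := fun i =>
    (P i).sgn_eq.imp (fun h => h.1) id
  let d : I → ℕ := fun i => (h i).d
  let b : ∀ i, Basis (Fin (d i)) k (P i).V := fun i => (h i).b
  let ω : ∀ i, (P i).V →ₗ[k] (P i).V →ₗ[k] k := fun i => (P i).ω
  let E : Basis (Σ i, Fin (d i)) k (Sum P) := Pi.basis b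
  let Q : Matrix (Σ i, Fin (d i)) (Σ i, Fin (d i)) k := fun x y => sumForm ω (E x) (E y)
  let iv : (Σ i, Fin (d i)) → Σ i, Fin (d i) := fun x => ⟨x.1, (h x.1).star x.2⟩
  let r : (Σ i, Fin (d i)) → k := fun x => ((h x.1).v x.2)⁻¹
  have hform : ∀ i (x y : Fin (d i)), (P i).ω ((h i).b x) ((h i).b y) =
      if y = (h i).star x then (h i).v x else 0 := fun i x y => (h i).form x y
  have hQb : ∀ x y : Σ i, Fin (d i), x.1 ≠ y.1 → Q x y = 0 := by
    intro x y h
    change sumForm ω ((Pi.basis b) x) ((Pi.basis b) y) = 0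
    rw [sumForm_E b ω rfl, E_ne b (Ne.symm h), map_zero]
  have hQsame : ∀ i a c, Q ⟨i, a⟩ ⟨i, c⟩ = if c = (h i).star a then (h i).v a else 0 := by
    intro i a c
    change sumForm ω ((Pi.basis b) ⟨i, a⟩) ((Pi.basis b) ⟨i, c⟩) = _
    rw [sumForm_E b ω (i := i) rfl, E_same, E_same]
    exact hform i a c
  have hQs : ∀ x y : Σ i, Fin (d i), Q x y = (((P x.1).sgn : ℤ) : k) * Q y x := by
    rintro ⟨i, a⟩ ⟨i', c⟩
    by_cases hi : i = i'
    · subst hi
      rw [hQsame, hQsame, ← hform, ← hform]
      exact (P i).sym _ _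
    · rw [hQb _ _ hi, hQb _ _ (Ne.symm hi), mul_zero]
  have hsv : ∀ i (a : Fin (d i)), (h i).v a = (((P i).sgn : ℤ) : k) * (h i).v ((h i).star a) := by
    intro i a
    have h1 := hQs ⟨i, a⟩ ⟨i, (h i).star a⟩
    rw [hQsame, hQsame, if_pos rfl, if_pos ((h i).star_star a).symm] at h1
    exact h1
  let R : Matrix (Σ i, Fin (d i)) (Σ i, Fin (d i)) k := fun x y => if x = iv y then r y else 0
  have hivi : ∀ x, iv (iv x) = x := by
    rintro ⟨i, a⟩
    change (⟨i, (h i).star ((h i).star a)⟩ : Σ i, Fin (d i)) = ⟨i, a⟩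
    rw [(h i).star_star]
  have hr : ∀ x, r x ≠ 0 := fun x => inv_ne_zero ((h x.1).v_ne x.2)
  have hQiv : ∀ x y, Q x y = if y = iv x then (h x.1).v x.2 else 0 := by
    rintro ⟨i, a⟩ ⟨i', c⟩
    by_cases hi : i = i'
    · subst hi
      rw [hQsame]
      by_cases hc : c = (h i).star a
      · rw [if_pos hc, if_pos (by rw [hc])]
      · rw [if_neg hc, if_neg]
        intro h2
        exact hc (eq_of_heq (Sigma.mk.inj h2).2)
    · rw [hQb _ _ hi, if_neg]
      intro h2
      exact hi (congrArg Sigma.fst h2).symm
  have hQR : Q * R = 1 := by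
    ext x z
    rw [Matrix.mul_apply, Finset.sum_eq_single (iv z), Matrix.one_apply]
    · change Q x (iv z) * (if iv z = iv z then r z else 0) = _
      rw [if_pos rfl, hQiv]
      by_cases hx : x = z
      · subst hx
        rw [if_pos rfl, if_pos rfl]
        exact mul_inv_cancel₀ ((h x.1).v_ne x.2)
      · rw [if_neg hx, if_neg, zero_mul]
        intro h2
        apply hx
        have h3 := congrArg iv h2
        rw [hivi, hivi] at h3
        exact h3.symm
    · intro y _ hy
      change Q x y * (if y = iv z then r z else 0) = 0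
      rw [if_neg hy, mul_zero]
    · intro h
      exact absurd (Finset.mem_univ _) h
  have hrQ : ∀ p q, r p * r q * Q (iv p) (iv q) = (((P p.1).sgn : ℤ) : k) * R p q := by
    intro p q
    rw [hQiv, hivi]
    change _ = (((P p.1).sgn : ℤ) : k) * (if p = iv q then r q else 0)
    by_cases hpq : iv q = p
    · rw [if_pos hpq, if_pos hpq.symm]
      subst hpq
      rw [hivi]
      obtain ⟨i, a⟩ := q
      change ((h i).v ((h i).star a))⁻¹ * ((h i).v a)⁻¹ * (h i).v a =
        (((P i).sgn : ℤ) : k) * ((h i).v a)⁻¹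
      rw [mul_assoc, inv_mul_cancel₀ ((h i).v_ne a), mul_one]
      have h1 := hsv i a
      have h2 := (h i).v_ne a
      have h3 := (h i).v_ne ((h i).star a)
      field_simp
      rw [mul_comm]
      exact h1
    · rw [if_neg hpq, if_neg (fun h => hpq h.symm), mul_zero, mul_zero]
  -- it is sufficient to consider the components
  have key : ∀ (l : M →ₗ[k] k) (c : Fin N → I) (K : Fin N → Σ i, Fin (d i)),
      l (patt (V := fun i => (P i).V) c f (fun j => (Pi.basis b) (K j))) = 0 := by
    intro l c
    let F : (Fin N → Σ i, Fin (d i)) → k := fun K =>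
      l (patt (V := fun i => (P i).V) c f (fun j => (Pi.basis b) (K j)))
    have hsup : Pool.Agent.TH125.Nod.Sup (Sigma.fst : (Σ i, Fin (d i)) → I) c F := by
      intro K hK
      push Not at hK
      obtain ⟨j, hj⟩ := hK
      change l (f (fun l' => LinearMap.single k (fun i => (P i).V) (c l')
        ((Pi.basis b) (K l') (c l')))) = 0
      rw [f.map_coord_zero j, map_zero]
      rw [E_ne b hj, map_zero]
    have hF : ∀ K : Fin N → Σ i, Fin (d i), (∀ j, (K j).1 = c j) →
        F K = l (f (fun j => (Pi.basis b) (K j))) := by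
      intro K hK
      change l (f (fun l' => LinearMap.single k (fun i => (P i).V) (c l')
        ((Pi.basis b) (K l') (c l')))) = _
      refine congrArg l (congrArg f (funext fun j => ?_))
      have h4 : ∀ (x : Σ i, Fin (d i)) (i : I), x.1 = i →
          LinearMap.single k (fun i => (P i).V) i ((Pi.basis b) x i) = (Pi.basis b) x := by
        rintro x i rfl
        rw [basis_single, LinearMap.single_apply, LinearMap.single_apply, Pi.single_eq_same]
      exact h4 _ _ (hK j)
    have hzero : F = 0 := by
      refine ng (κ := (Sigma.fst : (Σ i, Fin (d i)) → I)) (Q := Q) (R := R)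
        (s := fun i => (P i).sgn) (r := r) (iv := iv) hsgn hQb hQs hQR (fun _ => rfl) hivi hr hrQ N
        (Fin N) c F (Fintype.card_fin N) hsup
        (inv_twists P τ hEnd γ hsimple hrel b hf l c) fun g hg => ?_
      unfold GenD at hg
      induction hg using Submodule.span_induction with
      | mem g hg =>
        have hgs := isGen_sup (κ := (Sigma.fst : (Σ i, Fin (d i)) → I)) hQb hg
        obtain ⟨A, _, m, p, ψ, hψ, rfl⟩ := hg
        choose Ψ hΨ1 hΨ2 hΨ3 using fun a => factor P b (hψ a)
        let tot : MultilinearMap k (fun _ : Fin N => Sum P) k := (sigmaProd Ψ).domDomCongr p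
        have htot : ∀ x, tot x = ∏ a, Ψ a (fun i => x (p ⟨a, i⟩)) := fun x => rfl
        have hc := congrArg l (h0 tot ⟨A, inferInstance, m, p, Ψ, hΨ1, htot⟩)
        rw [map_zero] at hc
        rw [← hc]
        unfold frm contraction
        rw [map_sum]
        refine Finset.sum_congr rfl fun K _ => ?_
        have h5 : tot (fun l => dualVec h (K l)) =
            (∏ j, r (K j)) * ∏ a, ψ a (fun x => iv (K (p ⟨a, x⟩))) := by
          have h6 : (fun l => dualVec h (K l)) = fun l => r (K l) • (Pi.basis b) (iv (K l)) := by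
            funext l
            rw [basis_single]
            rfl
          rw [h6, MultilinearMap.map_smul_univ, smul_eq_mul, htot]
          congr 1
          exact Finset.prod_congr rfl fun a _ => hΨ3 a (fun x => iv (K (p ⟨a, x⟩)))
        have h7 : (fun l => vec h (K l)) = fun l => (Pi.basis b) (K l) := by
          funext l
          rw [basis_single]
          rfl
        rw [h5, h7, map_smul, smul_eq_mul]
        by_cases hK : ∀ j, (K j).1 = c j
        · rw [hF K hK]
          ring
        · have h8 : (∏ a, ψ a (fun x => iv (K (p ⟨a, x⟩)))) = 0 :=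
            hgs (fun j => iv (K j)) hK
          rw [hsup K hK, zero_mul, mul_zero, h8, mul_zero, zero_mul]
      | zero =>
        unfold frm
        simp
      | add x y _ _ hx hy => rw [frm_add, hx, hy, add_zero]
      | smul a x _ hx => rw [frm_smul, hx, mul_zero]
    exact fun K => congrFun hzero K
  rw [sum_patt (V := fun i => (P i).V) f]
  refine Finset.sum_eq_zero fun c _ => ?_
  refine Basis.ext_multilinear (fun _ => E) fun K => ?_
  change patt (V := fun i => (P i).V) c f (fun j => (Pi.basis b) (K j)) = 0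
  rw [← Module.forall_dual_apply_eq_zero_iff k]
  exact fun l => key l c K

end family

end

end Pool.Agent.V1141.SO
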